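import Pool.Agent.T2H72.DC.Stm

set_option autoImplicit false

/-!
# Package AVG: weak limits are approximated by convex combinations
-/

namespace Pool.Agent.T2H72.DC

open Finset Filter Topology

namespace PkgAVG

/-- bounded sequences converge along an ultrafilter -/
theorem exists_lim (U : Ultrafilter ℕ) (s : ℕ → ℝ) (C : ℝ) (h : ∀ m, |s m| ≤ C) :
    ∃ L, Tendsto s (U : Filter ℕ) (𝓝 L) ∧ |L| ≤ C := by
  have hc : IsCompact (Set.Icc (-C) C) := isCompact_Icc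
  have h1 : ((U.map s : Ultrafilter ℝ) : Filter ℝ) ≤ 𝓟 (Set.Icc (-C) C) := by
    rw [le_principal_iff, Ultrafilter.coe_map, Filter.mem_map]
    exact Filter.Eventually.of_forall fun m => abs_le.1 (h m)
  obtain ⟨L, hL, hL2⟩ := hc.ultrafilter_le_nhds (U.map s) h1
  exact ⟨L, hL2, abs_le.2 hL⟩

/-- The convex weights supported in `V`. -/
def cv (V : Set ℕ) : Set (ℕ →₀ ℝ) :=
  {c | (∀ k, 0 ≤ c k) ∧ (c.sum fun _ r => r) = 1 ∧ ∀ k, c k ≠ 0 → k ∈ V}

theorem cv_mono {V V' : Set ℕ} (h : V ⊆ V') : cv V ⊆ cv V' :=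
  fun _ hc => ⟨hc.1, hc.2.1, fun k hk => h (hc.2.2 k hk)⟩

theorem single_mem {V : Set ℕ} {k : ℕ} (hk : k ∈ V) : Finsupp.single k (1 : ℝ) ∈ cv V := by
  refine ⟨fun j => ?_, ?_, fun j hj => ?_⟩
  · rw [Finsupp.single_apply]
    split_ifs <;> norm_num
  · rw [Finsupp.sum_single_index rfl]
  · rw [Finsupp.single_apply] at hj
    split_ifs at hj with h
    · rwa [← h]
    · exact absurd rfl hj

theorem sum_eq_lin (c : ℕ →₀ ℝ) :
    (c.sum fun _ r => r) = Finsupp.linearCombination ℝ (fun _ : ℕ => (1 : ℝ)) c := by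
  rw [Finsupp.linearCombination_apply]
  apply Finsupp.sum_congr
  intro k _
  simp

theorem mid_mem {V : Set ℕ} {c c' : ℕ →₀ ℝ} (h : c ∈ cv V) (h' : c' ∈ cv V) :
    (2⁻¹ : ℝ) • (c + c') ∈ cv V := by
  refine ⟨fun k => ?_, ?_, fun k hk => ?_⟩
  · simp only [Finsupp.smul_apply, Finsupp.add_apply, smul_eq_mul]
    have := h.1 k
    have := h'.1 k
    positivity
  · rw [sum_eq_lin, map_smul, map_add, ← sum_eq_lin, ← sum_eq_lin, h.2.1, h'.2.1]
    norm_num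
  · by_contra hcon
    have h1 : c k = 0 := by
      by_contra h1
      exact hcon (h.2.2 k h1)
    have h2 : c' k = 0 := by
      by_contra h2
      exact hcon (h'.2.2 k h2)
    apply hk
    simp [h1, h2]

/-- the value of convex weights is near `L` if all `f k`, `k ∈ V`, are -/
theorem near {V : Set ℕ} {c : ℕ →₀ ℝ} (h : c ∈ cv V) (f : ℕ → ℝ) (L δ : ℝ)
    (hf : ∀ k ∈ V, |f k - L| ≤ δ) : |Finsupp.linearCombination ℝ f c - L| ≤ δ := by
  have h1 : Finsupp.linearCombination ℝ f c - L = ∑ k ∈ c.support, c k * (f k - L) := by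
    have h2 : ∑ k ∈ c.support, c k = 1 := h.2.1
    rw [Finsupp.linearCombination_apply, Finsupp.sum]
    simp only [smul_eq_mul, mul_sub, sum_sub_distrib]
    rw [← Finset.sum_mul, h2, one_mul]
  rw [h1]
  calc |∑ k ∈ c.support, c k * (f k - L)| ≤ ∑ k ∈ c.support, |c k * (f k - L)| :=
        abs_sum_le_sum_abs _ _
    _ ≤ ∑ k ∈ c.support, c k * δ := by
        apply sum_le_sum
        intro k hk
        rw [abs_mul, abs_of_nonneg (h.1 k)]
        exact mul_le_mul_of_nonneg_left (hf k (h.2.2 k (Finsupp.mem_support_iff.1 hk))) (h.1 k)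
    _ = δ := by
        have h2 : ∑ k ∈ c.support, c k = 1 := h.2.1
        rw [← Finset.sum_mul, h2, one_mul]

/-- the abstract form -/
theorem abstract (U : Ultrafilter ℕ) (Q : (ℕ →₀ ℝ) → ℝ) (M : ℝ) (hQ0 : ∀ d, 0 ≤ Q d)
    (hQM : ∀ k, Q (Finsupp.single k 1) ≤ M)
    (hpar : ∀ c c', Q (c - c') = 2 * Q c + 2 * Q c' - 4 * Q ((2⁻¹ : ℝ) • (c + c')))
    (ε : ℝ) (hε : 0 < ε) :
    ∃ c : ℕ →₀ ℝ, (∀ k, 0 ≤ c k) ∧ (c.sum fun _ r => r) = 1 ∧
      ∀ f : ℕ → ℝ, (∀ k, |f k| ≤ 1) → (∀ d, (Finsupp.linearCombination ℝ f d) ^ 2 ≤ Q d) →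
        ∀ᶠ k in (U : Filter ℕ), |f k - Finsupp.linearCombination ℝ f c| < ε := by
  classical
  obtain ⟨δ, hδ, hδε⟩ : ∃ δ : ℝ, 0 < δ ∧ 8 * δ ≤ (ε / 4) ^ 2 :=
    ⟨(ε / 4) ^ 2 / 8, by positivity, by linarith⟩
  have hbdd : ∀ V : Set ℕ, BddBelow (Q '' cv V) := fun V => ⟨0, by
    rintro _ ⟨c, _, rfl⟩
    exact hQ0 c⟩
  let d : Set ℕ → ℝ := fun V => sInf (Q '' cv V)
  have hne : ∀ V ∈ U, (Q '' cv V).Nonempty := by
    intro V hV
    obtain ⟨k, hk⟩ := U.nonempty_of_mem hV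
    exact ⟨_, _, single_mem hk, rfl⟩
  have hdM : ∀ V ∈ U, d V ≤ M := by
    intro V hV
    obtain ⟨k, hk⟩ := U.nonempty_of_mem hV
    exact (csInf_le (hbdd V) ⟨_, single_mem hk, rfl⟩).trans (hQM k)
  let S : Set ℝ := {r | ∃ V ∈ U, r = d V}
  have hSb : BddAbove S := ⟨M, by
    rintro _ ⟨V, hV, rfl⟩
    exact hdM V hV⟩
  have hSne : S.Nonempty := ⟨_, Set.univ, Filter.univ_mem, rfl⟩
  obtain ⟨D, hD⟩ : ∃ D, D = sSup S := ⟨_, rfl⟩
  obtain ⟨_, ⟨V0, hV0, rfl⟩, hV0D⟩ := exists_lt_of_lt_csSup hSne (show D - δ < sSup S by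
    rw [← hD]; linarith)
  have hle : ∀ V ∈ U, d V ≤ D := by
    intro V hV
    rw [hD]
    exact le_csSup hSb ⟨V, hV, rfl⟩
  obtain ⟨_, ⟨c, hc, rfl⟩, hcQ⟩ := exists_lt_of_csInf_lt (hne V0 hV0)
    (show sInf (Q '' cv V0) < d V0 + δ from lt_add_of_pos_right _ hδ)
  refine ⟨c, hc.1, hc.2.1, ?_⟩
  intro f hf hfQ
  obtain ⟨L, hL, _⟩ := exists_lim U f 1 hf
  have hV1 : {k | |f k - L| < ε / 4} ∈ (U : Filter ℕ) := by
    have := Metric.tendsto_nhds.1 hL (ε / 4) (by positivity)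
    simp only [Real.dist_eq] at this
    exact this
  have hV : V0 ∩ {k | |f k - L| < ε / 4} ∈ (U : Filter ℕ) := Filter.inter_mem hV0 hV1
  obtain ⟨V, hVdef⟩ : ∃ V, V = V0 ∩ {k | |f k - L| < ε / 4} := ⟨_, rfl⟩
  rw [← hVdef] at hV
  obtain ⟨_, ⟨c', hc', rfl⟩, hcQ'⟩ := exists_lt_of_csInf_lt (hne V hV)
    (show sInf (Q '' cv V) < d V + δ from lt_add_of_pos_right _ hδ)
  have hVV0 : V ⊆ V0 := by
    rw [hVdef]
    exact Set.inter_subset_left
  have hmid : d V0 ≤ Q ((2⁻¹ : ℝ) • (c + c')) :=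
    csInf_le (hbdd V0) ⟨_, mid_mem hc (cv_mono hVV0 hc'), rfl⟩
  have hsmall : Q (c - c') ≤ (ε / 4) ^ 2 := by
    rw [hpar]
    have h1 := hle V0 hV0
    have h2 := hle V hV
    linarith
  have hcc : |Finsupp.linearCombination ℝ f c - Finsupp.linearCombination ℝ f c'| ≤ ε / 4 := by
    rw [← map_sub]
    have h1 := (hfQ (c - c')).trans hsmall
    exact abs_le_of_sq_le_sq h1 (by positivity)
  have hnear := near hc' f L (ε / 4) (fun k hk => by
    rw [hVdef] at hk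
    exact hk.2.le)
  filter_upwards [hV1] with k hk
  have hk' : |f k - L| < ε / 4 := hk
  have h1 : f k - Finsupp.linearCombination ℝ f c = (f k - L) -
      (Finsupp.linearCombination ℝ f c' - L) -
      (Finsupp.linearCombination ℝ f c - Finsupp.linearCombination ℝ f c') := by ring
  rw [h1]
  calc |(f k - L) - (Finsupp.linearCombination ℝ f c' - L) -
      (Finsupp.linearCombination ℝ f c - Finsupp.linearCombination ℝ f c')|
      ≤ |f k - L| + |Finsupp.linearCombination ℝ f c' - L| +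
        |Finsupp.linearCombination ℝ f c - Finsupp.linearCombination ℝ f c'| := by
        refine (abs_sub _ _).trans ?_
        gcongr
        exact abs_sub _ _
    _ < ε := by linarith

/-- a bound for a linear combination of numbers in `[0, 1]` -/
theorem lin_bound (g : ℕ → ℝ) (hg : ∀ k, 0 ≤ g k ∧ g k ≤ 1) (d : ℕ →₀ ℝ) :
    |Finsupp.linearCombination ℝ g d| ≤ ∑ k ∈ d.support, |d k| := by
  rw [Finsupp.linearCombination_apply, Finsupp.sum]
  refine (abs_sum_le_sum_abs _ _).trans (sum_le_sum fun k _ => ?_)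
  rw [smul_eq_mul, abs_mul, abs_of_nonneg (hg k).1]
  exact mul_le_of_le_one_right (abs_nonneg _) (hg k).2

/-- averages of bounded functions are bounded -/
theorem avg_bound {Ω : Type} [Fintype Ω] (ν : Ω → ℝ) (h0 : ∀ ω, 0 ≤ ν ω) (h1 : ∑ ω, ν ω = 1)
    (F : Ω → ℝ) (C : ℝ) (hF : ∀ ω, |F ω| ≤ C) : |∑ ω, ν ω * F ω| ≤ C := by
  calc |∑ ω, ν ω * F ω| ≤ ∑ ω, |ν ω * F ω| := abs_sum_le_sum_abs _ _
    _ ≤ ∑ ω, ν ω * C := by
        apply sum_le_sum
        intro ω _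
        rw [abs_mul, abs_of_nonneg (h0 ω)]
        exact mul_le_mul_of_nonneg_left (hF ω) (h0 ω)
    _ = C := by rw [← Finset.sum_mul, h1, one_mul]

/-- Cauchy-Schwarz for an average -/
theorem avg_cs {Ω : Type} [Fintype Ω] (ν : Ω → ℝ) (h0 : ∀ ω, 0 ≤ ν ω) (h1 : ∑ ω, ν ω = 1)
    (Z F : Ω → ℝ) (hZ : ∀ ω, |Z ω| ≤ 1) :
    (∑ ω, ν ω * Z ω * F ω) ^ 2 ≤ ∑ ω, ν ω * F ω ^ 2 := by
  have h2 : ∀ ω, ν ω * Z ω * F ω = (Real.sqrt (ν ω) * Z ω) * (Real.sqrt (ν ω) * F ω) := by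
    intro ω
    have := Real.mul_self_sqrt (h0 ω)
    calc ν ω * Z ω * F ω = (Real.sqrt (ν ω) * Real.sqrt (ν ω)) * Z ω * F ω := by rw [this]
      _ = _ := by ring
  have h3 := sum_mul_sq_le_sq_mul_sq (univ : Finset Ω) (fun ω => Real.sqrt (ν ω) * Z ω)
    (fun ω => Real.sqrt (ν ω) * F ω)
  have h4 : ∑ ω, (Real.sqrt (ν ω) * Z ω) ^ 2 ≤ 1 := by
    rw [← h1]
    apply sum_le_sum
    intro ω _
    rw [mul_pow, Real.sq_sqrt (h0 ω)]
    exact mul_le_of_le_one_right (h0 ω) ((sq_le_one_iff_abs_le_one _).2 (hZ ω))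
  have h5 : ∑ ω, (Real.sqrt (ν ω) * F ω) ^ 2 = ∑ ω, ν ω * F ω ^ 2 := by
    apply sum_congr rfl
    intro ω _
    rw [mul_pow, Real.sq_sqrt (h0 ω)]
  rw [h5] at h3
  have h6 : 0 ≤ ∑ ω, ν ω * F ω ^ 2 := sum_nonneg fun ω _ => mul_nonneg (h0 ω) (sq_nonneg _)
  calc (∑ ω, ν ω * Z ω * F ω) ^ 2
      = (∑ ω, (Real.sqrt (ν ω) * Z ω) * (Real.sqrt (ν ω) * F ω)) ^ 2 := by
        rw [sum_congr rfl fun ω _ => h2 ω]
    _ ≤ (∑ ω, (Real.sqrt (ν ω) * Z ω) ^ 2) * ∑ ω, ν ω * F ω ^ 2 := h3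
    _ ≤ 1 * ∑ ω, ν ω * F ω ^ 2 := mul_le_mul_of_nonneg_right h4 h6
    _ = _ := one_mul _

end PkgAVG

open PkgAVG

theorem pAVG : S_AVG := by
  classical
  intro U Ω _ ν h0 h1 h x hx ε hε
  -- the linear functionals
  let lin : ∀ m, Ω m → Fin h → ((ℕ →₀ ℝ) →ₗ[ℝ] ℝ) := fun m ω a =>
    Finsupp.linearCombination ℝ (fun k => x k m ω a)
  let q : ℕ → (ℕ →₀ ℝ) → ℝ := fun m d => ∑ ω, ν m ω * ∑ a, (lin m ω a d) ^ 2
  have hq0 : ∀ m d, 0 ≤ q m d := fun m d =>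
    sum_nonneg fun ω _ => mul_nonneg (h0 m ω) (sum_nonneg fun a _ => sq_nonneg _)
  have hlb : ∀ m ω a (d : ℕ →₀ ℝ), |lin m ω a d| ≤ ∑ k ∈ d.support, |d k| := fun m ω a d =>
    lin_bound _ (fun k => hx k m ω a) d
  have hqb : ∀ (d : ℕ →₀ ℝ) m, |q m d| ≤ h * (∑ k ∈ d.support, |d k|) ^ 2 := by
    intro d m
    apply avg_bound (ν m) (h0 m) (h1 m)
    intro ω
    rw [abs_of_nonneg (sum_nonneg fun a _ => sq_nonneg _)]
    calc ∑ a, (lin m ω a d) ^ 2 ≤ ∑ _a : Fin h, (∑ k ∈ d.support, |d k|) ^ 2 := by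
          apply sum_le_sum
          intro a _
          rw [← sq_abs]
          exact pow_le_pow_left₀ (abs_nonneg _) (hlb m ω a d) 2
      _ = _ := by simp
  choose Q hQ _ using fun d : ℕ →₀ ℝ => exists_lim U (fun m => q m d) _ (hqb d)
  have hQ0 : ∀ d, 0 ≤ Q d := fun d => ge_of_tendsto' (hQ d) fun m => hq0 m d
  have hQM : ∀ k, Q (Finsupp.single k 1) ≤ h := by
    intro k
    apply le_of_tendsto' (hQ _)
    intro m
    have := hqb (Finsupp.single k 1) m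
    rw [abs_of_nonneg (hq0 _ _)] at this
    refine this.trans (le_of_eq ?_)
    rw [Finsupp.support_single_ne_zero k (one_ne_zero)]
    simp
  have hpar : ∀ c c', Q (c - c') = 2 * Q c + 2 * Q c' - 4 * Q ((2⁻¹ : ℝ) • (c + c')) := by
    intro c c'
    have e1 : ∀ m, q m (c - c') = 2 * q m c + 2 * q m c' - 4 * q m ((2⁻¹ : ℝ) • (c + c')) := by
      intro m
      simp only [q, mul_sum, ← sum_add_distrib, ← sum_sub_distrib]
      apply sum_congr rfl
      intro ω _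
      apply sum_congr rfl
      intro a _
      rw [map_sub, map_smul, map_add, smul_eq_mul]
      ring
    have e2 : Tendsto (fun m => q m (c - c')) (U : Filter ℕ)
        (𝓝 (2 * Q c + 2 * Q c' - 4 * Q ((2⁻¹ : ℝ) • (c + c')))) := by
      refine Tendsto.congr (fun m => (e1 m).symm) ?_
      exact ((hQ c).const_mul 2 |>.add ((hQ c').const_mul 2)).sub ((hQ _).const_mul 4)
    exact tendsto_nhds_unique (hQ _) e2
  obtain ⟨c, hc0, hc1, hc⟩ := abstract U Q h hQ0 hQM hpar ε hε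
  refine ⟨c.support, c, hc0, hc1, ?_⟩
  intro Z hZ a
  -- the limits of the integrals against `Z`
  have hfb : ∀ k m, |∑ ω, ν m ω * (Z m ω * x k m ω a)| ≤ 1 := by
    intro k m
    apply avg_bound (ν m) (h0 m) (h1 m)
    intro ω
    rw [abs_mul, abs_of_nonneg (hx k m ω a).1]
    exact mul_le_one₀ (hZ m ω) (hx k m ω a).1 (hx k m ω a).2
  choose f hf hf1 using fun k => exists_lim U (fun m => ∑ ω, ν m ω * (Z m ω * x k m ω a)) 1 (hfb k)
  have hlin : ∀ d : ℕ →₀ ℝ, Tendsto (fun m => ∑ ω, ν m ω * Z m ω * lin m ω a d) (U : Filter ℕ)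
      (𝓝 (Finsupp.linearCombination ℝ f d)) := by
    intro d
    rw [Finsupp.linearCombination_apply, Finsupp.sum]
    have e1 : ∀ m, ∑ k ∈ d.support, d k * ∑ ω, ν m ω * (Z m ω * x k m ω a) =
        ∑ ω, ν m ω * Z m ω * lin m ω a d := by
      intro m
      simp only [lin, Finsupp.linearCombination_apply, Finsupp.sum, smul_eq_mul, mul_sum]
      rw [sum_comm]
      apply sum_congr rfl
      intro ω _
      apply sum_congr rfl
      intro k _
      ring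
    refine Tendsto.congr e1 ?_
    apply tendsto_finsetSum
    intro k _
    rw [smul_eq_mul]
    exact (hf k).const_mul _
  have hcs : ∀ d, (Finsupp.linearCombination ℝ f d) ^ 2 ≤ Q d := by
    intro d
    refine le_of_tendsto_of_tendsto' ((hlin d).pow 2) (hQ d) fun m => ?_
    refine (avg_cs (ν m) (h0 m) (h1 m) (Z m) (fun ω => lin m ω a d) (hZ m)).trans ?_
    apply sum_le_sum
    intro ω _
    apply mul_le_mul_of_nonneg_left _ (h0 m ω)
    exact single_le_sum (f := fun a => (lin m ω a d) ^ 2) (fun _ _ => sq_nonneg _) (mem_univ a)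
  filter_upwards [hc f hf1 hcs] with k hk
  have ht : Tendsto (fun m => |∑ ω, ν m ω * Z m ω *
      (x k m ω a - ∑ k' ∈ c.support, c k' * x k' m ω a)|) (U : Filter ℕ)
      (𝓝 |f k - Finsupp.linearCombination ℝ f c|) := by
    apply Tendsto.abs
    refine Tendsto.congr (fun m => ?_) ((hf k).sub (hlin c))
    simp only [lin, Finsupp.linearCombination_apply, Finsupp.sum, smul_eq_mul]
    rw [← sum_sub_distrib]
    apply sum_congr rfl
    intro ω _
    ring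
  exact (ht.eventually (gt_mem_nhds hk)).mono fun m hm => le_of_lt hm

end Pool.Agent.T2H72.DC
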