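import Pool.Agent.T2H72.DC.Stm

set_option autoImplicit false

namespace Pool.Agent.T2H72.DC

open Finset

theorem blk_step {S : Sys} (v : ℕ → S.X → ℝ) (hdis : ∀ m n, m ≠ n → ∀ x, v m x = 0 ∨ v n x = 0)
    (htail : ∀ k, ∀ ε > (0 : ℝ), ∃ s : Finset S.X, NLe S.Phi ((↑s : Set S.X)ᶜ.indicator (v k)) ε)
    (p N : ℕ) (ε : ℝ) (hε : 0 < ε) : ∃ q : ℕ × ℕ, p < q.1 ∧ N < q.2 ∧ (∀ x : S.X, x.1 ≤ N → v q.1 x = 0) ∧
      NLe S.Phi ({x : S.X | q.2 < x.1}.indicator (v q.1)) ε := by
  classical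
  have h1 : ∃ p', p < p' ∧ ∀ x : S.X, x.1 ≤ N → v p' x = 0 := by
    by_contra hcon
    push Not at hcon
    let W : Finset S.X := (Finset.range (N + 1)).biUnion S.lvl
    have h2 : ∀ j : ℕ, ∃ x : W, v (p + 1 + j) x ≠ 0 := by
      intro j
      obtain ⟨x, hx1, hx2⟩ := hcon (p + 1 + j) (by omega)
      exact ⟨⟨x, Finset.mem_biUnion.2 ⟨x.1, Finset.mem_range.2 (by omega), mem_lvl.2 rfl⟩⟩, hx2⟩
    choose f hf using h2
    obtain ⟨i, j, hij, hfij⟩ := Finite.exists_ne_map_eq_of_infinite f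
    have h3 := hf i
    have h4 := hf j
    rw [← hfij] at h4
    rcases hdis (p + 1 + i) (p + 1 + j) (by omega) (f i) with h | h
    · exact h3 h
    · exact h4 h
  obtain ⟨p', hp', hv⟩ := h1
  obtain ⟨s, hs⟩ := htail p' ε hε
  refine ⟨(p', max (N + 1) (s.sup (fun x => x.1))), hp', ?_, hv, ?_⟩
  · exact lt_of_lt_of_le (Nat.lt_succ_self N) (le_max_left _ _)
  · refine NLe.mono (fun f hf => hf.1) hs fun x => ?_
    by_cases hx : x ∈ {x : S.X | max (N + 1) (s.sup (fun x => x.1)) < x.1}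
    · rw [Set.indicator_of_mem hx, Set.indicator_of_mem]
      intro hxs
      have h2 : x.1 ≤ s.sup (fun x => x.1) := Finset.le_sup (f := fun x : S.X => x.1) hxs
      have h3 : max (N + 1) (s.sup (fun x => x.1)) < x.1 := hx
      have h4 := le_max_right (N + 1) (s.sup (fun x => x.1))
      omega
    · rw [Set.indicator_of_notMem hx, abs_zero]
      exact abs_nonneg _

theorem pBLK : S_BLK := by
  classical
  intro S v hdis htail
  have hstep := blk_step v hdis htail
  choose q hq1 hq2 hq3 hq4 using fun (st : ℕ × ℕ) (k : ℕ) =>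
    hstep st.1 st.2 (1 / 2 ^ (k + 2)) (by positivity)
  let st : ℕ → ℕ × ℕ := fun k => Nat.rec (0, 0) (fun k s => q s k) k
  have hst : ∀ k, st (k + 1) = q (st k) k := fun _ => rfl
  refine ⟨fun k => (st (k + 1)).1, strictMono_nat_of_lt_succ fun k => ?_,
    fun k => (Finset.Ioc (st k).2 (st (k + 1)).2).biUnion S.lvl, ?_, ?_⟩
  · rw [hst (k + 1)]
    exact hq1 (st (k + 1)) (k + 1)
  · have hmono : StrictMono fun k => (st k).2 := strictMono_nat_of_lt_succ fun k => by
      rw [hst k]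
      exact hq2 (st k) k
    intro i j hij x hx y hy
    obtain ⟨a, ha, hxa⟩ := Finset.mem_biUnion.1 hx
    obtain ⟨b, hb, hyb⟩ := Finset.mem_biUnion.1 hy
    rw [mem_lvl] at hxa hyb
    rw [Finset.mem_Ioc] at ha hb
    have h1 : (st (i + 1)).2 ≤ (st j).2 := hmono.monotone (Nat.succ_le_of_lt hij)
    omega
  · intro k
    have h4 := hq4 (st k) k
    rw [← hst k] at h4
    refine NLe.mono (fun f hf => hf.1) h4 fun x => ?_
    by_cases hx : x ∈ ((↑((Finset.Ioc (st k).2 (st (k + 1)).2).biUnion S.lvl) : Set S.X))ᶜ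
    · rw [Set.indicator_of_mem hx]
      by_cases hx2 : x.1 ≤ (st k).2
      · have := hq3 (st k) k x hx2
        rw [← hst k] at this
        rw [this, abs_zero]
        exact abs_nonneg _
      · rw [Set.indicator_of_mem]
        change (st (k + 1)).2 < x.1
        by_contra hcon
        exact hx (Finset.mem_biUnion.2 ⟨x.1, Finset.mem_Ioc.2 ⟨by omega, by omega⟩, mem_lvl.2 rfl⟩)
    · rw [Set.indicator_of_notMem hx, abs_zero]
      exact abs_nonneg _

end Pool.Agent.T2H72.DC
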