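import Pool.Agent.T2H72.DC.Stm

/-! # Package CA -/

set_option autoImplicit false

namespace Pool.Agent.T2H72.DC

open Finset Filter

namespace PkgCA

theorem two_rpow_le : (2 : ℝ) ^ (4 / 3 : ℝ) ≤ 4 := by
  calc (2 : ℝ) ^ (4 / 3 : ℝ) ≤ (2 : ℝ) ^ (2 : ℝ) :=
        Real.rpow_le_rpow_of_exponent_le (by norm_num) (by norm_num)
    _ = 4 := by norm_num

theorem two_mul_rpow (m : ℝ) (hm : 0 ≤ m) : (2 * m) ^ (4 / 3 : ℝ) ≤ 4 * m ^ (4 / 3 : ℝ) := by
  rw [Real.mul_rpow (by norm_num) hm]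
  exact mul_le_mul_of_nonneg_right two_rpow_le (Real.rpow_nonneg hm _)

theorem add_rpow (a b : ℝ) (ha : 0 ≤ a) (hb : 0 ≤ b) :
    (a + b) ^ (4 / 3 : ℝ) ≤ 4 * (a ^ (4 / 3 : ℝ) + b ^ (4 / 3 : ℝ)) := by
  have ha' := Real.rpow_nonneg ha (4 / 3)
  have hb' := Real.rpow_nonneg hb (4 / 3)
  rcases le_total a b with h | h
  · have h1 : (a + b) ^ (4 / 3 : ℝ) ≤ (2 * b) ^ (4 / 3 : ℝ) :=
      Real.rpow_le_rpow (by linarith) (by linarith) (by norm_num)
    have := two_mul_rpow b hb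
    linarith
  · have h1 : (a + b) ^ (4 / 3 : ℝ) ≤ (2 * a) ^ (4 / 3 : ℝ) :=
      Real.rpow_le_rpow (by linarith) (by linarith) (by norm_num)
    have := two_mul_rpow a ha
    linarith

theorem sum_rpow (s : Finset ℕ) (x : ℕ → ℝ) (hx : ∀ i ∈ s, 0 ≤ x i) :
    ∑ i ∈ s, x i ^ (4 / 3 : ℝ) ≤ (∑ i ∈ s, x i) ^ (4 / 3 : ℝ) := by
  induction s using Finset.induction_on with
  | empty => simp [Real.zero_rpow]
  | insert a s ha ih =>
    rw [Finset.sum_insert ha, Finset.sum_insert ha]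
    have h1 := hx a (Finset.mem_insert_self _ _)
    have h2 : 0 ≤ ∑ i ∈ s, x i :=
      Finset.sum_nonneg (fun i hi => hx i (Finset.mem_insert_of_mem hi))
    have h3 := ih (fun i hi => hx i (Finset.mem_insert_of_mem hi))
    have h4 := Real.add_rpow_le_rpow_add h1 h2 (by norm_num : (1 : ℝ) ≤ 4 / 3)
    linarith

theorem half_sum (n : ℕ) (b : ℕ → ℝ) (hb : ∀ k, 0 ≤ b k) :
    (∑ k ∈ range n, b k * (1 / 2) ^ k) ^ (4 / 3 : ℝ) ≤ 4 * ∑ k ∈ range n, b k ^ (4 / 3 : ℝ) := by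
  obtain ⟨Q, hQd⟩ : ∃ Q : ℝ, Q = ∑ k ∈ range n, b k ^ (4 / 3 : ℝ) := ⟨_, rfl⟩
  have hQ : 0 ≤ Q := by
    rw [hQd]; exact Finset.sum_nonneg (fun k _ => Real.rpow_nonneg (hb k) _)
  have hB : 0 ≤ Q ^ (3 / 4 : ℝ) := Real.rpow_nonneg hQ _
  have hbB : ∀ k ∈ range n, b k ≤ Q ^ (3 / 4 : ℝ) := by
    intro k hk
    have h1 : b k ^ (4 / 3 : ℝ) ≤ Q := by
      rw [hQd]
      exact Finset.single_le_sum (f := fun k => b k ^ (4 / 3 : ℝ))
        (fun i _ => Real.rpow_nonneg (hb i) _) hk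
    calc b k = (b k ^ (4 / 3 : ℝ)) ^ (3 / 4 : ℝ) := by
          rw [← Real.rpow_mul (hb k)]; norm_num
      _ ≤ Q ^ (3 / 4 : ℝ) := Real.rpow_le_rpow (Real.rpow_nonneg (hb k) _) h1 (by norm_num)
  have h1 : ∑ k ∈ range n, b k * (1 / 2) ^ k ≤ 2 * Q ^ (3 / 4 : ℝ) := by
    calc ∑ k ∈ range n, b k * (1 / 2) ^ k ≤ ∑ k ∈ range n, Q ^ (3 / 4 : ℝ) * (1 / 2) ^ k :=
          Finset.sum_le_sum (fun k hk => mul_le_mul_of_nonneg_right (hbB k hk) (by positivity))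
      _ = Q ^ (3 / 4 : ℝ) * ∑ k ∈ range n, (1 / 2 : ℝ) ^ k := by rw [Finset.mul_sum]
      _ ≤ Q ^ (3 / 4 : ℝ) * 2 := mul_le_mul_of_nonneg_left (sum_geometric_two_le n) hB
      _ = 2 * Q ^ (3 / 4 : ℝ) := mul_comm _ _
  have h0 : 0 ≤ ∑ k ∈ range n, b k * (1 / 2) ^ k :=
    Finset.sum_nonneg (fun k _ => mul_nonneg (hb k) (by positivity))
  rw [← hQd]
  calc (∑ k ∈ range n, b k * (1 / 2) ^ k) ^ (4 / 3 : ℝ) ≤ (2 * Q ^ (3 / 4 : ℝ)) ^ (4 / 3 : ℝ) :=
        Real.rpow_le_rpow h0 h1 (by norm_num)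
    _ ≤ 4 * (Q ^ (3 / 4 : ℝ)) ^ (4 / 3 : ℝ) := two_mul_rpow _ hB
    _ = 4 * Q := by rw [← Real.rpow_mul hQ]; norm_num

section
variable {S : Sys} {T : ℕ → Finset S.X} {f : ℕ → S.X → ℝ} {ε : ℕ → ℝ}

open Classical in
noncomputable def g (T : ℕ → Finset S.X) (f : ℕ → S.X → ℝ) (ε : ℕ → ℝ) (k : ℕ) (x : S.X) : ℝ :=
  if x ∈ T k ∧ f k x ≤ ε k then f k x else 0

theorem g_nonneg (hf : ∀ k, f k ∈ S.Phi) (k : ℕ) (x : S.X) : 0 ≤ g T f ε k x := by
  unfold g
  split_ifs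
  · exact (hf k).1 x
  · exact le_rfl

theorem g_le (hf : ∀ k, f k ∈ S.Phi) (k : ℕ) (x : S.X) : g T f ε k x ≤ f k x := by
  unfold g
  split_ifs
  · exact le_rfl
  · exact (hf k).1 x

theorem g_le_eps (hε : ∀ k, 0 ≤ ε k) (k : ℕ) (x : S.X) : g T f ε k x ≤ ε k := by
  unfold g
  split_ifs with h
  · exact h.2
  · exact hε k

theorem g_supp {k : ℕ} {x : S.X} (h : g T f ε k x ≠ 0) : x ∈ T k := by
  unfold g at h
  by_contra hc
  rw [if_neg (fun h' => hc h'.1)] at h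
  exact h rfl

theorem main (hT : S.Blk T) (hf : ∀ k, f k ∈ S.Phi) (hε : ∀ k, 0 ≤ ε k)
    (hε2 : ∀ i k, i < k → ∀ x ∈ T i, ε k * ((x.1 : ℝ) + 2) ≤ (1 / 2) ^ k)
    (b : ℕ → ℝ) (hb : ∀ k, 0 ≤ b k) (n : ℕ) :
    S.Bd (fun x => ∑ k ∈ range n, b k * g T f ε k x)
      (20 * ∑ k ∈ range n, (b k) ^ (4 / 3 : ℝ)) := by
  classical
  intro r F hF
  obtain ⟨a, ha⟩ : ∃ a : ℕ → ℕ → ℝ, a = fun i k => ∑ x ∈ F i, g T f ε k x := ⟨_, rfl⟩
  have ha0 : ∀ i k, 0 ≤ a i k := fun i k => by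
    rw [ha]; exact Finset.sum_nonneg (fun x _ => g_nonneg hf k x)
  obtain ⟨L, hL⟩ : ∃ L : ℕ → ℕ → Prop, L = fun i k => ∃ k' < k, ∃ x ∈ F i, x ∈ T k' := ⟨_, rfl⟩
  have hsum : ∀ i, ∑ x ∈ F i, ∑ k ∈ range n, b k * g T f ε k x = ∑ k ∈ range n, b k * a i k := by
    intro i
    rw [Finset.sum_comm]
    refine Finset.sum_congr rfl fun k _ => ?_
    rw [ha, Finset.mul_sum]
  have hane : ∀ i k, a i k ≠ 0 → ∃ x ∈ F i, x ∈ T k := by
    intro i k h
    rw [ha] at h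
    obtain ⟨x, hx, hx'⟩ := Finset.exists_ne_zero_of_sum_ne_zero h
    exact ⟨x, hx, g_supp hx'⟩
  -- columns
  have hcol : ∀ k, ∑ i ∈ range r, a i k ^ (4 / 3 : ℝ) ≤ 1 := by
    intro k
    have h1 : S.Bd (g T f ε k) 1 := Bd.mono (g_nonneg hf k) (g_le hf k) (hf k).2
    have := h1 r F hF
    rw [ha]
    exact this
  -- late entries
  have hlate : ∀ i < r, ∀ k, L i k → a i k ≤ (1 / 2) ^ k := by
    intro i hi k hk
    rw [hL] at hk
    obtain ⟨k', hk', x, hx, hxT⟩ := hk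
    have h1 : a i k = ∑ y ∈ (F i).filter (fun y => x.1 < y.1), g T f ε k y := by
      rw [ha, Finset.sum_filter]
      refine Finset.sum_congr rfl fun y _ => ?_
      split_ifs with h
      · rfl
      · by_contra hc
        exact h (hT k' k hk' x hxT y (g_supp hc))
    rw [h1]
    calc ∑ y ∈ (F i).filter (fun y => x.1 < y.1), g T f ε k y
        ≤ ∑ y ∈ (F i).filter (fun y => x.1 < y.1), ε k :=
          Finset.sum_le_sum (fun y _ => g_le_eps hε k y)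
      _ = ((F i).filter (fun y => x.1 < y.1)).card * ε k := by
          rw [Finset.sum_const, nsmul_eq_mul]
      _ ≤ ((x.1 : ℝ) + 2) * ε k := by
          refine mul_le_mul_of_nonneg_right ?_ (hε k)
          have := Coh.card_above (hF.1 i hi) hx
          have h2 : (((F i).filter (fun y => x.1 < y.1)).card : ℝ) ≤ ((x.1 + 1 : ℕ) : ℝ) := by
            exact_mod_cast this
          push_cast at h2
          linarith
      _ = ε k * ((x.1 : ℝ) + 2) := mul_comm _ _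
      _ ≤ (1 / 2) ^ k := hε2 k' k hk' x hxT
  have hlate1 : ∀ k, ∑ i ∈ range r, (if L i k then a i k else 0) ≤ (1 / 2) ^ k := by
    intro k
    by_cases h : ∃ i < r, L i k ∧ a i k ≠ 0
    · obtain ⟨i, hi, hLi, hai⟩ := h
      rw [Finset.sum_eq_single i]
      · rw [if_pos hLi]
        exact hlate i hi k hLi
      · intro j hj hji
        rw [Finset.mem_range] at hj
        split_ifs with hLj
        · by_contra haj
          obtain ⟨x, hx, hxT⟩ := hane i k hai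
          obtain ⟨y, hy, hyT⟩ := hane j k haj
          rw [hL] at hLi hLj
          obtain ⟨k1, hk1, x1, hx1, hx1T⟩ := hLi
          obtain ⟨k2, hk2, y1, hy1, hy1T⟩ := hLj
          rcases lt_or_gt_of_ne hji with h2 | h2
          · -- j < i
            have e1 := hF.2 j i h2 hi y hy x1 hx1
            have e2 := hT k1 k hk1 x1 hx1T y hyT
            omega
          · have e1 := hF.2 i j h2 hj x hx y1 hy1
            have e2 := hT k2 k hk2 y1 hy1T x hxT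
            omega
        · rfl
      · intro h2
        exact absurd (Finset.mem_range.mpr hi) h2
    · push Not at h
      have h0 : ∀ i ∈ range r, (if L i k then a i k else 0) = 0 := by
        intro i hi
        rw [Finset.mem_range] at hi
        split_ifs with hLi
        · exact h i hi hLi
        · rfl
      rw [Finset.sum_eq_zero h0]
      positivity
  -- the splitting
  obtain ⟨P, hP⟩ : ∃ P : ℕ → ℝ, P = fun i => ∑ k ∈ range n, (if L i k then 0 else b k * a i k) :=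
    ⟨_, rfl⟩
  obtain ⟨R, hR⟩ : ∃ R : ℕ → ℝ, R = fun i => ∑ k ∈ range n, b k * (if L i k then a i k else 0) :=
    ⟨_, rfl⟩
  have hP0 : ∀ i, 0 ≤ P i := fun i => by
    rw [hP]
    refine Finset.sum_nonneg fun k _ => ?_
    split_ifs
    · exact le_rfl
    · exact mul_nonneg (hb k) (ha0 i k)
  have hR0 : ∀ i, 0 ≤ R i := fun i => by
    rw [hR]
    refine Finset.sum_nonneg fun k _ => mul_nonneg (hb k) ?_
    split_ifs
    · exact ha0 i k
    · exact le_rfl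
  have hPR : ∀ i, ∑ k ∈ range n, b k * a i k = P i + R i := by
    intro i
    rw [hP, hR, ← Finset.sum_add_distrib]
    refine Finset.sum_congr rfl fun k _ => ?_
    split_ifs
    · ring
    · ring
  have hPle : ∀ i, P i ^ (4 / 3 : ℝ) ≤ ∑ k ∈ range n, b k ^ (4 / 3 : ℝ) * a i k ^ (4 / 3 : ℝ) := by
    intro i
    have hnn : ∀ k ∈ range n, 0 ≤ b k ^ (4 / 3 : ℝ) * a i k ^ (4 / 3 : ℝ) := fun k _ =>
      mul_nonneg (Real.rpow_nonneg (hb k) _) (Real.rpow_nonneg (ha0 i k) _)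
    by_cases h : ∃ k ∈ range n, ¬ L i k ∧ a i k ≠ 0
    · obtain ⟨k, hk, hLk, hak⟩ := h
      have e1 : P i = b k * a i k := by
        rw [hP]
        simp only
        rw [Finset.sum_eq_single k]
        · rw [if_neg hLk]
        · intro j _ hjk
          split_ifs with hLj
          · rfl
          · have : a i j = 0 := by
              by_contra haj
              obtain ⟨x, hx, hxT⟩ := hane i k hak
              obtain ⟨y, hy, hyT⟩ := hane i j haj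
              rcases lt_or_gt_of_ne hjk with h2 | h2
              · exact hLk (by rw [hL]; exact ⟨j, h2, y, hy, hyT⟩)
              · exact hLj (by rw [hL]; exact ⟨k, h2, x, hx, hxT⟩)
            rw [this, mul_zero]
        · intro h2
          exact absurd hk h2
      rw [e1, Real.mul_rpow (hb k) (ha0 i k)]
      exact Finset.single_le_sum hnn hk
    · push Not at h
      have e1 : P i = 0 := by
        rw [hP]
        refine Finset.sum_eq_zero fun k hk => ?_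
        split_ifs with hLk
        · rfl
        · rw [h k hk hLk, mul_zero]
      rw [e1, Real.zero_rpow (by norm_num)]
      exact Finset.sum_nonneg hnn
  have hQ0 : 0 ≤ ∑ k ∈ range n, b k ^ (4 / 3 : ℝ) :=
    Finset.sum_nonneg (fun k _ => Real.rpow_nonneg (hb k) _)
  have hPsum : ∑ i ∈ range r, P i ^ (4 / 3 : ℝ) ≤ ∑ k ∈ range n, b k ^ (4 / 3 : ℝ) := by
    calc ∑ i ∈ range r, P i ^ (4 / 3 : ℝ)
        ≤ ∑ i ∈ range r, ∑ k ∈ range n, b k ^ (4 / 3 : ℝ) * a i k ^ (4 / 3 : ℝ) :=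
          Finset.sum_le_sum fun i _ => hPle i
      _ = ∑ k ∈ range n, b k ^ (4 / 3 : ℝ) * ∑ i ∈ range r, a i k ^ (4 / 3 : ℝ) := by
          rw [Finset.sum_comm]
          refine Finset.sum_congr rfl fun k _ => ?_
          rw [Finset.mul_sum]
      _ ≤ ∑ k ∈ range n, b k ^ (4 / 3 : ℝ) * 1 :=
          Finset.sum_le_sum fun k _ =>
            mul_le_mul_of_nonneg_left (hcol k) (Real.rpow_nonneg (hb k) _)
      _ = ∑ k ∈ range n, b k ^ (4 / 3 : ℝ) := by simp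
  have hRsum : ∑ i ∈ range r, R i ^ (4 / 3 : ℝ) ≤ 4 * ∑ k ∈ range n, b k ^ (4 / 3 : ℝ) := by
    have h1 : ∑ i ∈ range r, R i ≤ ∑ k ∈ range n, b k * (1 / 2) ^ k := by
      calc ∑ i ∈ range r, R i
          = ∑ k ∈ range n, b k * ∑ i ∈ range r, (if L i k then a i k else 0) := by
            rw [hR, Finset.sum_comm]
            refine Finset.sum_congr rfl fun k _ => ?_
            rw [Finset.mul_sum]
        _ ≤ ∑ k ∈ range n, b k * (1 / 2) ^ k :=
            Finset.sum_le_sum fun k _ => mul_le_mul_of_nonneg_left (hlate1 k) (hb k)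
    calc ∑ i ∈ range r, R i ^ (4 / 3 : ℝ) ≤ (∑ i ∈ range r, R i) ^ (4 / 3 : ℝ) :=
          sum_rpow _ _ (fun i _ => hR0 i)
      _ ≤ (∑ k ∈ range n, b k * (1 / 2) ^ k) ^ (4 / 3 : ℝ) :=
          Real.rpow_le_rpow (Finset.sum_nonneg fun i _ => hR0 i) h1 (by norm_num)
      _ ≤ _ := half_sum n b hb
  calc ∑ i ∈ range r, (∑ x ∈ F i, ∑ k ∈ range n, b k * g T f ε k x) ^ (4 / 3 : ℝ)
      = ∑ i ∈ range r, (P i + R i) ^ (4 / 3 : ℝ) :=
        Finset.sum_congr rfl fun i _ => by rw [hsum, hPR]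
    _ ≤ ∑ i ∈ range r, 4 * (P i ^ (4 / 3 : ℝ) + R i ^ (4 / 3 : ℝ)) :=
        Finset.sum_le_sum fun i _ => add_rpow _ _ (hP0 i) (hR0 i)
    _ = 4 * (∑ i ∈ range r, P i ^ (4 / 3 : ℝ) + ∑ i ∈ range r, R i ^ (4 / 3 : ℝ)) := by
        rw [← Finset.sum_add_distrib, Finset.mul_sum]
    _ ≤ 20 * ∑ k ∈ range n, b k ^ (4 / 3 : ℝ) := by linarith

end

end PkgCA

open PkgCA in
theorem pCA : S_CA := by
  classical
  intro S T hT u f c hc hf h
  -- the choice of the subsequence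
  have h' : ∀ (ε : ℝ) (N : ℕ), ∃ k, 0 < ε → N ≤ k ∧
      c ≤ ∑ x ∈ (T k).filter (fun x => f k x ≤ ε), f k x * |u k x| := by
    intro ε N
    by_cases hε : 0 < ε
    · obtain ⟨k, hk⟩ := h ε hε N
      exact ⟨k, fun _ => hk⟩
    · exact ⟨0, fun h0 => absurd h0 hε⟩
  choose K hK using h'
  obtain ⟨L, hL⟩ : ∃ L : ℕ → ℕ, L = fun m => (range (m + 1)).sup (fun j => (T j).sup (fun x => x.1)) :=
    ⟨_, rfl⟩
  have hLle : ∀ j m, j ≤ m → ∀ x ∈ T j, x.1 ≤ L m := by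
    intro j m hjm x hx
    rw [hL]
    refine le_trans (Finset.le_sup (f := fun x : S.X => x.1) hx) ?_
    exact Finset.le_sup (f := fun j => (T j).sup (fun x : S.X => x.1))
      (Finset.mem_range.mpr (Nat.lt_succ_of_le hjm))
  obtain ⟨e, he⟩ : ∃ e : ℕ → ℕ → ℝ, e = fun k m => (1 / 2) ^ (k + 1) / ((L m : ℝ) + 2) := ⟨_, rfl⟩
  have hepos : ∀ k m, 0 < e k m := by
    intro k m; rw [he]; positivity
  obtain ⟨φ, hφ0, hφs⟩ : ∃ φ : ℕ → ℕ, φ 0 = K 1 0 ∧ ∀ k, φ (k + 1) = K (e k (φ k)) (φ k + 1) :=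
    ⟨fun k => Nat.rec (K 1 0) (fun k m => K (e k m) (m + 1)) k, rfl, fun k => rfl⟩
  obtain ⟨ε, hε0, hεs⟩ : ∃ ε : ℕ → ℝ, ε 0 = 1 ∧ ∀ k, ε (k + 1) = e k (φ k) :=
    ⟨fun k => Nat.casesOn k 1 (fun k => e k (φ k)), rfl, fun k => rfl⟩
  have hφm : StrictMono φ := by
    refine strictMono_nat_of_lt_succ fun k => ?_
    rw [hφs]
    have := (hK (e k (φ k)) (φ k + 1) (hepos _ _)).1
    omega
  have hεpos : ∀ k, 0 < ε k := by
    intro k
    cases k with
    | zero => rw [hε0]; norm_num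
    | succ k => rw [hεs]; exact hepos _ _
  have hsel : ∀ k, c ≤ ∑ x ∈ (T (φ k)).filter (fun x => f (φ k) x ≤ ε k),
      f (φ k) x * |u (φ k) x| := by
    intro k
    cases k with
    | zero => rw [hφ0, hε0]; exact (hK 1 0 (by norm_num)).2
    | succ k => rw [hφs, hεs]; exact (hK _ _ (hepos _ _)).2
  have hT' : S.Blk (T ∘ φ) := fun i j hij => hT (φ i) (φ j) (hφm hij)
  refine ⟨φ, hφm, c, hc, 20, by norm_num, fun b hb n =>
    ⟨PkgCA.g (T ∘ φ) (fun k => f (φ k)) ε, fun k x => g_nonneg (fun k => hf (φ k)) k x, ?_, ?_, ?_⟩⟩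
  · intro k x hx
    by_contra hc'
    exact hx (g_supp hc')
  · intro k _
    refine le_trans (hsel k) (le_of_eq ?_)
    rw [Finset.sum_filter]
    refine Finset.sum_congr rfl fun x hx => ?_
    unfold PkgCA.g
    by_cases h1 : f (φ k) x ≤ ε k
    · rw [if_pos h1, if_pos ⟨hx, h1⟩]
      rfl
    · rw [if_neg h1, if_neg (fun h2 => h1 h2.2), zero_mul]
  · refine main hT' (fun k => hf (φ k)) (fun k => (hεpos k).le) ?_ b hb n
    intro i k hik x hx
    cases k with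
    | zero => omega
    | succ k =>
      rw [hεs, he]
      have h1 : x.1 ≤ L (φ k) := hLle (φ i) (φ k) (hφm.monotone (by omega)) x hx
      have h2 : (x.1 : ℝ) ≤ L (φ k) := by exact_mod_cast h1
      have h3 : (0 : ℝ) < (L (φ k) : ℝ) + 2 := by positivity
      rw [div_mul_eq_mul_div, div_le_iff₀ h3]
      exact mul_le_mul_of_nonneg_left (by linarith) (by positivity)

end Pool.Agent.T2H72.DC
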