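import Pool.Agent.T2H72.DC.Stm

set_option autoImplicit false

namespace Pool.Agent.T2H72.DC

open Finset Filter

theorem pCB (hP : S_PRS) (hR : S_REM) (hI : S_INEQ) : S_CB := by
  classical
  intro S T hT u n c hc h
  have hne : ∀ k, ∃ x ∈ T k, x.1 = n k := by
    intro k
    by_contra hcon
    push Not at hcon
    have h1 : (T k).filter (fun x => x.1 = n k) = ∅ := by
      rw [Finset.filter_eq_empty_iff]
      exact fun x hx => hcon x hx
    have h2 := h k
    rw [h1, Finset.sum_empty] at h2
    linarith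
  have hn : StrictMono n := by
    intro i j hij
    obtain ⟨x, hx, hxi⟩ := hne i
    obtain ⟨y, hy, hyj⟩ := hne j
    have := hT i j hij x hx y hy
    omega
  let M : ℕ → ℝ := fun k => ∑ x ∈ (T k).filter (fun x => x.1 = n k), |u k x|
  have hM : ∀ k, c ≤ M k := h
  let ν : ℕ → S.X → ℝ := fun k x => if x ∈ T k ∧ x.1 = n k then |u k x| / M k else 0
  have hν0 : ∀ k x, 0 ≤ ν k x := by
    intro k x
    simp only [ν]
    split_ifs
    · exact div_nonneg (abs_nonneg _) (le_trans hc.le (hM k))
    · exact le_rfl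
  have hν1 : ∀ k, ∑ x ∈ S.lvl (n k), ν k x = 1 := by
    intro k
    have hsub : (T k).filter (fun x => x.1 = n k) ⊆ S.lvl (n k) := by
      intro x hx
      rw [Finset.mem_filter] at hx
      exact mem_lvl.2 hx.2
    rw [← Finset.sum_subset hsub]
    · have h1 : ∀ x ∈ (T k).filter (fun x => x.1 = n k), ν k x = |u k x| / M k := by
        intro x hx
        rw [Finset.mem_filter] at hx
        simp only [ν]
        rw [if_pos hx]
      rw [Finset.sum_congr rfl h1, ← Finset.sum_div]
      exact div_self (ne_of_gt (lt_of_lt_of_le hc (hM k)))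
    · intro x _ hx
      simp only [ν]
      rw [if_neg]
      intro h'
      exact hx (Finset.mem_filter.2 h')
  obtain ⟨φ, hφ, hSm⟩ := hP S n hn ν hν0 hν1
  obtain ⟨J₀, hJ⟩ := hR
  obtain ⟨C, hC, hineq⟩ := hI J₀
  refine ⟨φ, hφ, c / 2, by positivity, C, hC, fun b hb N => ?_⟩
  let A : Finset ℕ := (Finset.range N).filter (fun k => 0 < b k)
  let τ : ℕ → ℤ := fun k => Int.clog 2 (b k)
  obtain ⟨B, hBs, hBm, hBc⟩ := hJ S (n ∘ φ) (hn.comp hφ) (ν ∘ φ) hSm A τ
  let g : ℕ → S.X → ℝ := fun k x => if x ∈ B k ∧ x ∈ T (φ k) then 1 else 0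
  have hg0 : ∀ k x, 0 ≤ g k x := by
    intro k x
    simp only [g]
    split_ifs <;> norm_num
  refine ⟨g, hg0, ?_, ?_, ?_⟩
  · intro k x hx
    simp only [g]
    rw [if_neg]
    exact fun h' => hx h'.2
  · intro k _
    have h1 : ∑ x ∈ (T ∘ φ) k, g k x * |(u ∘ φ) k x| = M (φ k) * ∑ x ∈ B k, ν (φ k) x := by
      have e1 : ∑ x ∈ (T ∘ φ) k, g k x * |(u ∘ φ) k x| =
          ∑ x ∈ (T (φ k)).filter (fun x => x ∈ B k), |u (φ k) x| := by
        rw [Finset.sum_filter]
        refine Finset.sum_congr rfl fun x hx => ?_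
        simp only [g, Function.comp_apply] at hx ⊢
        by_cases hxB : x ∈ B k
        · rw [if_pos ⟨hxB, hx⟩, if_pos hxB, one_mul]
        · rw [if_neg (fun h' => hxB h'.1), if_neg hxB, zero_mul]
      have e2 : ∑ x ∈ B k, ν (φ k) x =
          ∑ x ∈ (T (φ k)).filter (fun x => x ∈ B k), |u (φ k) x| / M (φ k) := by
        have hsub : (T (φ k)).filter (fun x => x ∈ B k) ⊆ B k := by
          intro x hx
          exact (Finset.mem_filter.1 hx).2
        rw [← Finset.sum_subset hsub]
        · refine Finset.sum_congr rfl fun x hx => ?_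
          rw [Finset.mem_filter] at hx
          simp only [ν]
          rw [if_pos ⟨hx.1, mem_lvl.1 (hBs k hx.2)⟩]
        · intro x hx1 hx2
          simp only [ν]
          rw [if_neg]
          intro h'
          exact hx2 (Finset.mem_filter.2 ⟨h'.1, hx1⟩)
      rw [e1, e2, ← Finset.sum_div, mul_div_cancel₀]
      exact ne_of_gt (lt_of_lt_of_le hc (hM _))
    rw [h1]
    have h2 := hBm k
    simp only [Function.comp_apply] at h2
    have h3 := hM (φ k)
    nlinarith
  · intro r F hF
    let K : ℕ → Finset ℕ := fun i => A.filter (fun k => ∃ x ∈ F i, x ∈ B k ∧ x ∈ T (φ k))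
    let D : ℕ → Finset ℕ := fun i => A.filter (fun k' => (∃ k ∈ K i, k ≤ k') ∧ ∃ k ∈ K i, k' ≤ k)
    have hlev : ∀ k x, x ∈ B k → x.1 = n (φ k) := fun k x hx => mem_lvl.1 (hBs k hx)
    have ha : ∀ i < r, ∑ x ∈ F i, ∑ k ∈ Finset.range N, b k * g k x ≤ ∑ k ∈ K i, b k := by
      intro i hi
      rw [Finset.sum_comm]
      have hsub : K i ⊆ Finset.range N := fun k hk =>
        (Finset.mem_filter.1 (Finset.mem_filter.1 hk).1).1
      have hle : ∀ k ∈ Finset.range N, ∑ x ∈ F i, b k * g k x ≤ if k ∈ K i then b k else 0 := by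
        intro k hk
        by_cases hkK : k ∈ K i
        · rw [if_pos hkK, ← Finset.mul_sum]
          apply mul_le_of_le_one_right (hb k)
          simp only [g]
          rw [Finset.sum_boole]
          have h1 : ((F i).filter (fun x => x ∈ B k ∧ x ∈ T (φ k))).card ≤ 1 := by
            rw [Finset.card_le_one]
            intro x hx y hy
            rw [Finset.mem_filter] at hx hy
            apply (hF.1 i hi).1 x hx.1 y hy.1
            rw [hlev k x hx.2.1, hlev k y hy.2.1]
          exact_mod_cast h1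
        · rw [if_neg hkK]
          apply le_of_eq
          by_cases hbk : 0 < b k
          · refine Finset.sum_eq_zero fun x hx => ?_
            simp only [g]
            rw [if_neg, mul_zero]
            intro h'
            exact hkK (Finset.mem_filter.2 ⟨Finset.mem_filter.2 ⟨hk, hbk⟩, x, hx, h'⟩)
          · have hb0 : b k = 0 := le_antisymm (not_lt.1 hbk) (hb k)
            rw [hb0]
            simp
      refine (Finset.sum_le_sum hle).trans ?_
      rw [← Finset.sum_filter]
      apply le_of_eq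
      congr 1
      ext k
      rw [Finset.mem_filter]
      exact ⟨fun h' => h'.2, fun h' => ⟨hsub h', h'⟩⟩
    have hb1 : ∀ i < r, (∑ x ∈ F i, ∑ k ∈ Finset.range N, b k * g k x) ^ (4 / 3 : ℝ) ≤
        C * ∑ k ∈ D i, (b k) ^ (4 / 3 : ℝ) := by
      intro i hi
      have h1 : 0 ≤ ∑ x ∈ F i, ∑ k ∈ Finset.range N, b k * g k x :=
        Finset.sum_nonneg fun x _ => Finset.sum_nonneg fun k _ => mul_nonneg (hb k) (hg0 k x)
      refine (Real.rpow_le_rpow h1 (ha i hi) (by norm_num)).trans ?_
      apply hineq b τ (D i) (K i)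
      · intro k hk
        have hkA : 0 < b k := (Finset.mem_filter.1 (Finset.mem_filter.1 hk).1).2
        exact ⟨by exact_mod_cast Int.zpow_pred_clog_lt_self (b := 2) (by norm_num) hkA,
          by exact_mod_cast Int.self_le_zpow_clog (b := 2) (by norm_num) (b k)⟩
      · intro k hk
        exact Finset.mem_filter.2 ⟨(Finset.mem_filter.1 hk).1, ⟨k, hk, le_rfl⟩, ⟨k, hk, le_rfl⟩⟩
      · intro t
        have h2 := hBc (F i) (hF.1 i hi) ((K i).filter (fun k => τ k = t))
          (fun k hk => (Finset.mem_filter.1 (Finset.mem_filter.1 hk).1).1) t (by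
            intro k hk
            rw [Finset.mem_filter] at hk
            obtain ⟨x, hx1, hx2⟩ := (Finset.mem_filter.1 hk.1).2
            exact ⟨hk.2, x, hx1, hx2.1⟩)
        rcases h2 with h2 | h2
        · left
          exact h2
        · right
          refine h2.trans ?_
          apply Nat.pow_le_pow_left
          apply Finset.card_le_card
          intro k' hk'
          rw [Finset.mem_filter] at hk'
          obtain ⟨hA, ht, ⟨i1, hi1, hi2⟩, ⟨j1, hj1, hj2⟩⟩ := hk'
          rw [Finset.mem_filter]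
          exact ⟨Finset.mem_filter.2 ⟨hA, ⟨i1, (Finset.mem_filter.1 hi1).1, hi2⟩,
            ⟨j1, (Finset.mem_filter.1 hj1).1, hj2⟩⟩, ht⟩
    have hdis : ∀ i j, i < j → j < r → Disjoint (D i) (D j) := by
      intro i j hij hj
      rw [Finset.disjoint_left]
      intro k hki hkj
      obtain ⟨_, _, ⟨k₂, hk₂, hk2⟩⟩ := Finset.mem_filter.1 hki
      obtain ⟨_, ⟨k₁, hk₁, hk1⟩, _⟩ := Finset.mem_filter.1 hkj
      obtain ⟨x, hx1, hx2, _⟩ := (Finset.mem_filter.1 hk₂).2
      obtain ⟨y, hy1, hy2, _⟩ := (Finset.mem_filter.1 hk₁).2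
      have h1 := hF.2 i j hij hj x hx1 y hy1
      rw [hlev _ _ hx2, hlev _ _ hy2] at h1
      have h2 := (hn.comp hφ).lt_iff_lt.1 h1
      omega
    calc ∑ i ∈ Finset.range r, (∑ x ∈ F i, ∑ k ∈ Finset.range N, b k * g k x) ^ (4 / 3 : ℝ)
        ≤ ∑ i ∈ Finset.range r, C * ∑ k ∈ D i, (b k) ^ (4 / 3 : ℝ) :=
          Finset.sum_le_sum fun i hi => hb1 i (Finset.mem_range.1 hi)
      _ = C * ∑ i ∈ Finset.range r, ∑ k ∈ D i, (b k) ^ (4 / 3 : ℝ) := by rw [Finset.mul_sum]
      _ = C * ∑ k ∈ (Finset.range r).biUnion D, (b k) ^ (4 / 3 : ℝ) := by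
          rw [Finset.sum_biUnion]
          intro i hi j hj hij
          rw [Finset.mem_coe, Finset.mem_range] at hi hj
          rcases lt_or_gt_of_ne hij with h' | h'
          · exact hdis i j h' hj
          · exact (hdis j i h' hi).symm
      _ ≤ C * ∑ k ∈ Finset.range N, (b k) ^ (4 / 3 : ℝ) := by
          apply mul_le_mul_of_nonneg_left _ hC.le
          apply Finset.sum_le_sum_of_subset_of_nonneg
          · intro k hk
            rw [Finset.mem_biUnion] at hk
            obtain ⟨i, _, hk⟩ := hk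
            exact (Finset.mem_filter.1 (Finset.mem_filter.1 hk).1).1
          · intro k _ _
            exact Real.rpow_nonneg (hb k) _

end Pool.Agent.T2H72.DC
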