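import Pool.Agent.T2H72.DC.Stm

set_option autoImplicit false

/-!
# Package DESC: small probability of long descents
-/

namespace Pool.Agent.T2H72.DC

open Finset Filter Topology

namespace PkgDESC

theorem It_mono {U : Filter ℕ} : ∀ (r : ℕ) (G G' : List ℕ → Prop),
    (∀ l, l.length = r → G l → G' l) → It U r G → It U r G'
  | 0, _, _, h, hG => h [] rfl hG
  | r + 1, _, _, h, hG => Filter.Eventually.mono hG fun k hk =>
      It_mono r _ _ (fun l hl => h (k :: l) (by simp [hl])) hk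

theorem It_all {U : Filter ℕ} {ι : Type} [Finite ι] : ∀ (r : ℕ) (G : ι → List ℕ → Prop),
    (∀ a, It U r (G a)) → It U r (fun l => ∀ a, G a l)
  | 0, _, h => h
  | r + 1, G, h => by
      have h1 : ∀ᶠ k in U, ∀ a, It U r (fun l => G a (k :: l)) := Filter.eventually_all.2 h
      exact h1.mono fun k hk => It_all r (fun a l => G a (k :: l)) hk

/-- The indicator of `X = a`. -/
def ind (X a : ℕ) : ℝ := if X = a then 1 else 0

theorem ind_nonneg (X a : ℕ) : 0 ≤ ind X a := by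
  unfold ind
  split_ifs <;> norm_num

theorem ind_le_one (X a : ℕ) : ind X a ≤ 1 := by
  unfold ind
  split_ifs <;> norm_num

theorem claim (U : Filter ℕ) (Ω : ℕ → Type) [∀ m, Fintype (Ω m)] (ν : ∀ m, Ω m → ℝ) (h : ℕ)
    (x : ℕ → ∀ m, Ω m → Fin h → ℝ) (hx : ∀ k m ω a, 0 ≤ x k m ω a ∧ x k m ω a ≤ 1)
    (z : ∀ m, Ω m → Fin h → ℝ) (hz : ∀ m ω a, 0 ≤ z m ω a ∧ z m ω a ≤ 1) (ε : ℝ)
    (hA : ∀ Z : ∀ m, Ω m → ℝ, (∀ m ω, |Z m ω| ≤ 1) → ∀ a : Fin h,
      ∀ᶠ k in U, ∀ᶠ m in U, |∑ ω, ν m ω * Z m ω * (x k m ω a - z m ω a)| ≤ ε) :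
    ∀ (r : ℕ) (Z : ∀ m, Ω m → ℝ), (∀ m ω, |Z m ω| ≤ 1) → ∀ a : Fin r → Fin h,
      It U r (fun l => ∀ᶠ m in U,
        |∑ ω, ν m ω * Z m ω * ∏ j : Fin r, x (l.getD (j : ℕ) 0) m ω (a j)
          - ∑ ω, ν m ω * Z m ω * ∏ j : Fin r, z m ω (a j)| ≤ r * ε) := by
  intro r
  induction r with
  | zero =>
    intro Z _ a
    show ∀ᶠ m in U, _
    refine Filter.Eventually.of_forall fun m => ?_
    simp
  | succ r ih =>
    intro Z hZ a
    have hprod : ∀ m ω, |∏ j : Fin r, z m ω (a j.succ)| ≤ 1 := by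
      intro m ω
      rw [Finset.abs_prod]
      refine Finset.prod_le_one (fun j _ => abs_nonneg _) fun j _ => ?_
      rw [abs_of_nonneg (hz _ _ _).1]
      exact (hz _ _ _).2
    have h1 := hA (fun m ω => Z m ω * ∏ j : Fin r, z m ω (a j.succ)) (fun m ω => by
      rw [abs_mul]
      exact mul_le_one₀ (hZ m ω) (abs_nonneg _) (hprod m ω)) (a 0)
    show ∀ᶠ k in U, It U r _
    refine h1.mono fun k hk => ?_
    have h2 := ih (fun m ω => Z m ω * x k m ω (a 0)) (fun m ω => by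
      rw [abs_mul, abs_of_nonneg (hx _ _ _ _).1]
      exact mul_le_one₀ (hZ m ω) (hx _ _ _ _).1 (hx _ _ _ _).2) (fun j => a j.succ)
    refine It_mono r _ _ (fun l _ hl => ?_) h2
    filter_upwards [hl, hk] with m hm1 hm2
    have e1 : ∑ ω, ν m ω * Z m ω * ∏ j : Fin (r + 1), x ((k :: l).getD (j : ℕ) 0) m ω (a j)
        = ∑ ω, ν m ω * (Z m ω * x k m ω (a 0)) *
          ∏ j : Fin r, x (l.getD (j : ℕ) 0) m ω (a j.succ) := by
      refine Finset.sum_congr rfl fun ω _ => ?_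
      rw [Fin.prod_univ_succ]
      simp only [Fin.val_zero, List.getD_cons_zero, Fin.val_succ, List.getD_cons_succ]
      ring
    have e2 : ∑ ω, ν m ω * Z m ω * ∏ j : Fin (r + 1), z m ω (a j)
        = ∑ ω, ν m ω * (Z m ω * x k m ω (a 0)) * ∏ j : Fin r, z m ω (a j.succ)
          - ∑ ω, ν m ω * (Z m ω * ∏ j : Fin r, z m ω (a j.succ)) *
            (x k m ω (a 0) - z m ω (a 0)) := by
      rw [← Finset.sum_sub_distrib]
      refine Finset.sum_congr rfl fun ω _ => ?_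
      rw [Fin.prod_univ_succ]
      ring
    rw [e1, e2]
    have h3 := abs_le.1 hm1
    have h4 := abs_le.1 hm2
    rw [abs_le]
    push_cast
    constructor <;> nlinarith [h3.1, h3.2, h4.1, h4.2]

open Classical in
/-- pointwise: the event is covered by the products -/
theorem point {h r : ℕ} (X : ℕ → ℕ) (hX : ∀ k, X k < h) (l : List ℕ) (hl : l.length = r) :
    (if l.Pairwise (fun k k' => X k' < X k) then (1 : ℝ) else 0) ≤
      ∑ a ∈ (Finset.univ : Finset (Fin r → Fin h)).filter (fun a => ∀ i j, i < j → a j < a i),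
        ∏ j : Fin r, ind (X (l.getD (j : ℕ) 0)) (a j) := by
  have hnn : ∀ a : Fin r → Fin h, 0 ≤ ∏ j : Fin r, ind (X (l.getD (j : ℕ) 0)) (a j) :=
    fun a => Finset.prod_nonneg fun j _ => ind_nonneg _ _
  split_ifs with hp
  · obtain ⟨a0, ha0⟩ : ∃ a0 : Fin r → Fin h, ∀ j, ((a0 j : Fin h) : ℕ) = X (l.getD (j : ℕ) 0) :=
      ⟨fun j => ⟨X (l.getD (j : ℕ) 0), hX _⟩, fun j => rfl⟩
    have hmem : a0 ∈ (Finset.univ : Finset (Fin r → Fin h)).filter
        (fun a => ∀ i j, i < j → a j < a i) := by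
      rw [Finset.mem_filter]
      refine ⟨Finset.mem_univ _, fun i j hij => ?_⟩
      rw [Fin.lt_def, ha0, ha0]
      rw [List.pairwise_iff_getElem] at hp
      have hi : (i : ℕ) < l.length := by rw [hl]; exact i.2
      have hj : (j : ℕ) < l.length := by rw [hl]; exact j.2
      have := hp i j hi hj hij
      rw [List.getD_eq_getElem _ _ hi, List.getD_eq_getElem _ _ hj]
      exact this
    have h1 : ∏ j : Fin r, ind (X (l.getD (j : ℕ) 0)) (a0 j) = 1 := by
      refine Finset.prod_eq_one fun j _ => ?_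
      unfold ind
      rw [if_pos (ha0 j).symm]
    rw [← h1]
    exact Finset.single_le_sum (fun a _ => hnn a) hmem
  · exact Finset.sum_nonneg fun a _ => hnn a

end PkgDESC

open PkgDESC in
theorem pDESC (hA : S_AVG) (hE : S_ESYM) : S_DESC := by
  intro U Ω _ ν hν hν1 h X hX r
  classical
  have hfac : (0 : ℝ) < (r.factorial : ℝ) := by exact_mod_cast r.factorial_pos
  obtain ⟨ε, hε, hε2⟩ : ∃ ε : ℝ, 0 < ε ∧ (h : ℝ) ^ r * (r * ε) ≤ 1 / (r.factorial : ℝ) := by
    refine ⟨1 / ((r.factorial : ℝ) * ((h : ℝ) ^ r * r + 1)), by positivity, ?_⟩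
    have h1 : (0 : ℝ) < (h : ℝ) ^ r * r + 1 := by positivity
    rw [← mul_assoc, ← div_eq_mul_one_div, div_le_div_iff₀ (by positivity) hfac]
    nlinarith [hfac, h1]
  obtain ⟨x, hxdef⟩ : ∃ x : ℕ → ∀ m, Ω m → Fin h → ℝ, ∀ k m ω a, x k m ω a = ind (X k m ω) a :=
    ⟨fun k m ω a => ind (X k m ω) a, fun _ _ _ _ => rfl⟩
  have hx : ∀ k m ω a, 0 ≤ x k m ω a ∧ x k m ω a ≤ 1 := by
    intro k m ω a
    rw [hxdef]
    exact ⟨ind_nonneg _ _, ind_le_one _ _⟩
  have hx1 : ∀ k m ω, ∑ a, x k m ω a = 1 := by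
    intro k m ω
    rw [Finset.sum_eq_single (⟨X k m ω, hX k m ω⟩ : Fin h)]
    · rw [hxdef]
      unfold ind
      simp
    · intro b _ hb
      rw [hxdef]
      unfold ind
      rw [if_neg]
      intro hc
      apply hb
      exact Fin.ext hc.symm
    · intro hc
      exact absurd (Finset.mem_univ _) hc
  obtain ⟨K, c, hc, hc1, hK⟩ := hA U Ω ν hν hν1 h x hx ε hε
  obtain ⟨z, hzdef⟩ : ∃ z : ∀ m, Ω m → Fin h → ℝ, ∀ m ω a,
      z m ω a = ∑ k' ∈ K, c k' * x k' m ω a := ⟨_, fun _ _ _ => rfl⟩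
  have hz : ∀ m ω a, 0 ≤ z m ω a ∧ z m ω a ≤ 1 := by
    intro m ω a
    rw [hzdef]
    refine ⟨Finset.sum_nonneg fun k _ => mul_nonneg (hc k) (hx _ _ _ _).1, ?_⟩
    rw [← hc1]
    refine Finset.sum_le_sum fun k _ => ?_
    exact mul_le_of_le_one_right (hc k) (hx _ _ _ _).2
  have hz1 : ∀ m ω, ∑ a, z m ω a = 1 := by
    intro m ω
    have : ∀ a, z m ω a = ∑ k' ∈ K, c k' * x k' m ω a := fun a => hzdef m ω a
    simp only [this]
    rw [Finset.sum_comm]
    simp only [← Finset.mul_sum, hx1, mul_one]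
    exact hc1
  have hcl := claim (U : Filter ℕ) Ω ν h x hx z hz ε (fun Z hZ a => by
    have := hK Z hZ a
    simpa only [hzdef] using this) r (fun _ _ => 1) (fun _ _ => by norm_num)
  refine It_mono r _ _ (fun l hl hG => ?_) (It_all r _ hcl)
  have hG2 : ∀ᶠ m in (U : Filter ℕ), ∀ a : Fin r → Fin h,
      |∑ ω, ν m ω * 1 * ∏ j : Fin r, x (l.getD (j : ℕ) 0) m ω (a j)
          - ∑ ω, ν m ω * 1 * ∏ j : Fin r, z m ω (a j)| ≤ r * ε := Filter.eventually_all.2 hG
  filter_upwards [hG2] with m hm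
  obtain ⟨D, hD⟩ : ∃ D : Finset (Fin r → Fin h), D = (Finset.univ : Finset (Fin r → Fin h)).filter
      (fun a => ∀ i j, i < j → a j < a i) := ⟨_, rfl⟩
  have s1 : dpr (ν m) (fun k => X k m) l ≤
      ∑ a ∈ D, ∑ ω, ν m ω * 1 * ∏ j : Fin r, x (l.getD (j : ℕ) 0) m ω (a j) := by
    unfold dpr
    rw [Finset.sum_comm]
    refine Finset.sum_le_sum fun ω _ => ?_
    rw [← Finset.mul_sum, mul_one]
    have h1 := point (h := h) (r := r) (fun k => X k m ω) (fun k => hX k m ω) l hl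
    have h2 := mul_le_mul_of_nonneg_left h1 (hν m ω)
    rw [mul_ite, mul_one, mul_zero, ← hD] at h2
    refine le_trans (le_of_eq ?_) (h2.trans (le_of_eq ?_))
    · congr
    · congr 1
      refine Finset.sum_congr rfl fun a _ => Finset.prod_congr rfl fun j _ => ?_
      rw [hxdef]
  have s2 : ∑ a ∈ D, ∑ ω, ν m ω * 1 * ∏ j : Fin r, x (l.getD (j : ℕ) 0) m ω (a j) ≤
      ∑ a ∈ D, (∑ ω, ν m ω * 1 * ∏ j : Fin r, z m ω (a j) + r * ε) := by
    refine Finset.sum_le_sum fun a _ => ?_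
    have := (abs_le.1 (hm a)).2
    linarith
  have s3 : ∑ a ∈ D, (∑ ω, ν m ω * 1 * ∏ j : Fin r, z m ω (a j) + r * ε) ≤
      1 / (r.factorial : ℝ) + (h : ℝ) ^ r * (r * ε) := by
    rw [Finset.sum_add_distrib]
    refine add_le_add ?_ ?_
    · rw [Finset.sum_comm]
      have h3 : ∀ ω, ∑ a ∈ D, ν m ω * 1 * ∏ j : Fin r, z m ω (a j) ≤
          ν m ω * (1 / (r.factorial : ℝ)) := by
        intro ω
        rw [← Finset.mul_sum, mul_one]
        refine mul_le_mul_of_nonneg_left ?_ (hν m ω)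
        have := hE h r (fun a => z m ω a) (fun a => (hz m ω a).1)
        rw [hz1, one_pow] at this
        rw [hD]
        refine le_trans (le_of_eq ?_) this
        congr
      refine (Finset.sum_le_sum fun ω _ => h3 ω).trans ?_
      rw [← Finset.sum_mul, hν1, one_mul]
    · rw [Finset.sum_const, nsmul_eq_mul]
      refine mul_le_mul_of_nonneg_right ?_ (by positivity)
      have h4 : D.card ≤ h ^ r := by
        calc D.card ≤ (Finset.univ : Finset (Fin r → Fin h)).card := Finset.card_le_univ _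
          _ = h ^ r := by simp
      exact_mod_cast h4
  have s4 : 1 / (r.factorial : ℝ) + 1 / (r.factorial : ℝ) = 2 / (r.factorial : ℝ) := by ring
  linarith [s1, s2, s3, s4, hε2]

end Pool.Agent.T2H72.DC
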