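import Pool.Agent.T2H72.DC.Stm

/-! Package ESYM of project DC. -/

set_option autoImplicit false

namespace Pool.Agent.T2H72.DC

open Finset Filter

theorem pESYM : S_ESYM := by
  intro h r z hz
  have hf : (0:ℝ) < (r.factorial : ℝ) := by exact_mod_cast r.factorial_pos
  rw [le_div_iff₀ hf]
  obtain ⟨D, hD⟩ : ∃ D : Finset (Fin r → Fin h), D =
    (Finset.univ : Finset (Fin r → Fin h)).filter (fun a => ∀ i j, i < j → a j < a i) := ⟨_, rfl⟩
  rw [← hD]
  have hDm : ∀ a ∈ D, StrictAnti a := by
    intro a ha
    rw [hD, Finset.mem_filter] at ha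
    exact fun i j hij => ha.2 i j hij
  have h1 : (∑ a, z a) ^ r = ∑ a : Fin r → Fin h, ∏ i, z (a i) := by
    have := Finset.prod_univ_sum (fun _ : Fin r => (Finset.univ : Finset (Fin h))) (fun _ a => z a)
    rw [Finset.prod_const, Finset.card_univ, Fintype.card_fin, Fintype.piFinset_univ] at this
    exact this
  have h2 : (∑ a ∈ D, ∏ i, z (a i)) * (r.factorial : ℝ) =
      ∑ p ∈ D ×ˢ (Finset.univ : Finset (Equiv.Perm (Fin r))), ∏ i, z (p.1 (p.2 i)) := by
    rw [Finset.sum_product, Finset.sum_mul]
    refine Finset.sum_congr rfl fun a _ => ?_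
    have e : ∀ σ ∈ (Finset.univ : Finset (Equiv.Perm (Fin r))),
        ∏ i, z (a (σ i)) = ∏ i, z (a i) := fun σ _ => Equiv.prod_comp σ (fun i => z (a i))
    rw [Finset.sum_congr rfl e, Finset.sum_const, Finset.card_univ, Fintype.card_perm,
      Fintype.card_fin, nsmul_eq_mul, mul_comm]
  rw [h1, h2]
  have hinj : Set.InjOn (fun p : (Fin r → Fin h) × Equiv.Perm (Fin r) => fun i => p.1 (p.2 i))
      (D ×ˢ (Finset.univ : Finset (Equiv.Perm (Fin r))) : Finset _) := by
    rintro ⟨a, σ⟩ ha ⟨b, ρ⟩ hb hab
    rw [Finset.coe_product, Set.mem_prod] at ha hb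
    have ha' := hDm a ha.1
    have hb' := hDm b hb.1
    simp only at hab
    have hra : Set.range a = Set.range b := by
      have e1 : Set.range (fun i => a (σ i)) = Set.range a := σ.surjective.range_comp a
      have e2 : Set.range (fun i => b (ρ i)) = Set.range b := ρ.surjective.range_comp b
      rw [← e1, ← e2, hab]
    have hab' : a = b := by
      have h3 : StrictMono (OrderDual.toDual ∘ a) := ha'
      have h4 : StrictMono (OrderDual.toDual ∘ b) := hb'
      have h5 : Set.range (OrderDual.toDual ∘ a) = Set.range (OrderDual.toDual ∘ b) := by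
        rw [Set.range_comp, Set.range_comp, hra]
      have h6 := (StrictMono.range_inj h3 h4).1 h5
      funext i
      exact congrFun h6 i
    subst hab'
    have : σ = ρ := by
      ext i
      have h7 := congrFun hab i
      rw [ha'.injective h7]
    rw [this]
  rw [← Finset.sum_image (f := fun c : Fin r → Fin h => ∏ i, z (c i))
    (g := fun p : (Fin r → Fin h) × Equiv.Perm (Fin r) => fun i => p.1 (p.2 i)) hinj]
  exact Finset.sum_le_sum_of_subset_of_nonneg (Finset.subset_univ _) fun c _ _ =>
    Finset.prod_nonneg fun i _ => hz _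

end Pool.Agent.T2H72.DC
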