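import Pool.Agent.T2H72.DC.Stm

set_option autoImplicit false

namespace Pool.Agent.T2H72.DC

open Finset

theorem fc_fam (hS : S_STEP) (S : Sys) : ∀ (J : ℕ) (δ : ℝ), 0 < δ → ∀ (σ : Set ℕ), σ.Infinite →
    ∀ (B : Fin J → ℕ → Finset S.X), (∀ s n, B s n ⊆ S.lvl n) →
    (∀ s, ∀ n ∈ σ, δ * (S.lvl n).card ≤ (B s n).card) →
    ∃ x : Fin J → S.X, (∀ s, (x s).1 ∈ σ ∧ x s ∈ B s (x s).1) ∧
      (∀ s t, s < t → (x s).1 < (x t).1) ∧
      (∀ s t, s < t → S.pt (x s).1 (x t) = x s) ∧
      (∀ s t w, s < t → t < w → S.bud (x s).1 (x w) < S.bud (x s).1 (x t)) := by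
  classical
  intro J
  induction J with
  | zero =>
    intro δ _ σ _ B _ _
    exact ⟨fun s => s.elim0, fun s => s.elim0, fun s => s.elim0, fun s => s.elim0, fun s => s.elim0⟩
  | succ J ih =>
    intro δ hδ σ hσ B hBs hBd
    obtain ⟨m, hm, x0, hx0, r, hr, δ', hδ', σ', hσ's, hσ'i, h⟩ :=
      hS S J δ hδ σ hσ (B 0) (fun s => B s.succ) (hBs 0) (fun s n => hBs s.succ n)
        (hBd 0) (fun s n hn => hBd s.succ n hn)
    obtain ⟨x, hx1, hx2, hx3, hx4⟩ := ih δ' hδ' σ' hσ'i
      (fun s n => (B s.succ n).filter (fun w => S.pt m w = x0 ∧ S.bud m w = r s))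
      (fun s n w hw => hBs s.succ n (Finset.mem_filter.1 hw).1)
      (fun s n hn => (h n hn).2 s)
    have hx0m : x0.1 = m := mem_lvl.1 (hBs 0 m hx0)
    have hpt : ∀ s, S.pt m (x s) = x0 := fun s => (Finset.mem_filter.1 (hx1 s).2).2.1
    have hbu : ∀ s, S.bud m (x s) = r s := fun s => (Finset.mem_filter.1 (hx1 s).2).2.2
    have hlt : ∀ s, m < (x s).1 := fun s => (h _ (hx1 s).1).1
    refine ⟨Fin.cons x0 x, ?_, ?_, ?_, ?_⟩
    · intro s
      refine Fin.cases ?_ (fun s => ?_) s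
      · rw [Fin.cons_zero, hx0m]
        exact ⟨hm, hx0⟩
      · rw [Fin.cons_succ]
        exact ⟨hσ's (hx1 s).1, (Finset.mem_filter.1 (hx1 s).2).1⟩
    · intro s t
      refine Fin.cases ?_ (fun s => ?_) s
      · refine Fin.cases (fun h' => absurd h' (lt_irrefl _)) (fun t _ => ?_) t
        rw [Fin.cons_zero, Fin.cons_succ, hx0m]
        exact hlt t
      · refine Fin.cases (fun h' => absurd h' (not_lt.2 (Fin.zero_le _))) (fun t h' => ?_) t
        rw [Fin.cons_succ, Fin.cons_succ]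
        exact hx2 s t (Fin.succ_lt_succ_iff.1 h')
    · intro s t
      refine Fin.cases ?_ (fun s => ?_) s
      · refine Fin.cases (fun h' => absurd h' (lt_irrefl _)) (fun t _ => ?_) t
        rw [Fin.cons_zero, Fin.cons_succ, hx0m]
        exact hpt t
      · refine Fin.cases (fun h' => absurd h' (not_lt.2 (Fin.zero_le _))) (fun t h' => ?_) t
        rw [Fin.cons_succ, Fin.cons_succ]
        exact hx3 s t (Fin.succ_lt_succ_iff.1 h')
    · intro s t w
      refine Fin.cases ?_ (fun s => ?_) s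
      · refine Fin.cases (fun h' => absurd h' (lt_irrefl _)) (fun t _ => ?_) t
        refine Fin.cases (fun h' => absurd h' (not_lt.2 (Fin.zero_le _))) (fun w h' => ?_) w
        rw [Fin.cons_zero, Fin.cons_succ, Fin.cons_succ, hx0m, hbu, hbu]
        exact hr (Fin.succ_lt_succ_iff.1 h')
      · refine Fin.cases (fun h' => absurd h' (not_lt.2 (Fin.zero_le _))) (fun t h' => ?_) t
        refine Fin.cases (fun h'' => absurd h'' (not_lt.2 (Fin.zero_le _))) (fun w h'' => ?_) w
        rw [Fin.cons_succ, Fin.cons_succ, Fin.cons_succ]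
        exact hx4 s t w (Fin.succ_lt_succ_iff.1 h') (Fin.succ_lt_succ_iff.1 h'')

theorem pFC (hS : S_STEP) : S_FC := by
  classical
  intro S J δ hδ σ hσ B hBs hBd
  obtain ⟨x, hx1, hx2, hx3, hx4⟩ := fc_fam hS S J δ hδ σ hσ (fun _ => B) (fun _ => hBs)
    (fun _ => hBd)
  have hlt : ∀ s t, (x s).1 < (x t).1 → s < t := by
    intro s t h
    rcases lt_trichotomy s t with h1 | h1 | h1
    · exact h1
    · rw [h1] at h
      exact absurd h (lt_irrefl _)
    · have := hx2 t s h1
      omega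
  have hinj : Function.Injective x := by
    intro s t h
    rcases lt_trichotomy s t with h1 | h1 | h1
    · have := hx2 s t h1
      rw [h] at this
      exact absurd this (lt_irrefl _)
    · exact h1
    · have := hx2 t s h1
      rw [h] at this
      exact absurd this (lt_irrefl _)
  refine ⟨Finset.univ.image x, ⟨?_, ?_, ?_⟩, ?_, ?_⟩
  · intro a ha b hb hab
    obtain ⟨s, _, rfl⟩ := Finset.mem_image.1 ha
    obtain ⟨t, _, rfl⟩ := Finset.mem_image.1 hb
    rcases lt_trichotomy s t with h1 | h1 | h1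
    · have := hx2 s t h1
      omega
    · rw [h1]
    · have := hx2 t s h1
      omega
  · intro a ha b hb hab
    obtain ⟨s, _, rfl⟩ := Finset.mem_image.1 ha
    obtain ⟨t, _, rfl⟩ := Finset.mem_image.1 hb
    exact hx3 s t (hlt s t hab)
  · intro a ha b hb c hc hab hbc
    obtain ⟨s, _, rfl⟩ := Finset.mem_image.1 ha
    obtain ⟨t, _, rfl⟩ := Finset.mem_image.1 hb
    obtain ⟨w, _, rfl⟩ := Finset.mem_image.1 hc
    exact hx4 s t w (hlt s t hab) (hlt t w hbc)
  · rw [Finset.card_image_of_injective _ hinj, Finset.card_univ, Fintype.card_fin]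
  · intro a ha
    obtain ⟨s, _, rfl⟩ := Finset.mem_image.1 ha
    exact hx1 s

end Pool.Agent.T2H72.DC
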