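import Mathlib

/-!
# Disjointly homogeneous and disjointly complemented Banach lattices (definitions of MP_eafca2_an)
-/

set_option autoImplicit false

namespace Pool.Agent.T2H72.DC

section
variable {E : Type*} [NormedAddCommGroup E] [Lattice E] [NormedSpace ℝ E]

/-- A disjoint sequence: the terms are pairwise disjoint. -/
def DisjSeq (x : ℕ → E) : Prop := ∀ m n, m ≠ n → |x m| ⊓ |x n| = 0

/-- Two sequences are equivalent: there is `C ≥ 1` with
`C⁻¹ ‖∑ a n y n‖ ≤ ‖∑ a n x n‖ ≤ C ‖∑ a n y n‖` for all finite sums. -/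
def EquivSeq (x y : ℕ → E) : Prop :=
  ∃ C : ℝ, 1 ≤ C ∧ ∀ (s : Finset ℕ) (a : ℕ → ℝ),
    C⁻¹ * ‖∑ n ∈ s, a n • y n‖ ≤ ‖∑ n ∈ s, a n • x n‖ ∧
    ‖∑ n ∈ s, a n • x n‖ ≤ C * ‖∑ n ∈ s, a n • y n‖

/-- A sequence is equivalent to the unit vector basis of `ℓ_4`. -/
def EquivEll4 (x : ℕ → E) : Prop :=
  ∃ C : ℝ, 1 ≤ C ∧ ∀ (s : Finset ℕ) (a : ℕ → ℝ),
    C⁻¹ * (∑ n ∈ s, |a n| ^ 4) ^ (1 / 4 : ℝ) ≤ ‖∑ n ∈ s, a n • x n‖ ∧
    ‖∑ n ∈ s, a n • x n‖ ≤ C * (∑ n ∈ s, |a n| ^ 4) ^ (1 / 4 : ℝ)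

/-- The closed linear span of the subsequence `x (φ k)` is complemented (it is the range of a bounded linear
projection, `Submodule.ClosedComplemented`). -/
def ComplSpan (x : ℕ → E) : Prop :=
  (Submodule.span ℝ (Set.range x)).topologicalClosure.ClosedComplemented

end

/-- `E` is disjointly homogeneous: any two normalized disjoint sequences have subsequences
which are equivalent to each other. -/
def IsDH (E : Type*) [NormedAddCommGroup E] [Lattice E] [NormedSpace ℝ E] : Prop :=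
  ∀ x y : ℕ → E, DisjSeq x → DisjSeq y → (∀ n, ‖x n‖ = 1) → (∀ n, ‖y n‖ = 1) →
    ∃ φ ψ : ℕ → ℕ, StrictMono φ ∧ StrictMono ψ ∧ EquivSeq (x ∘ φ) (y ∘ ψ)

/-- `E` is `4`-DH: every normalized disjoint sequence has a subsequence equivalent to the basis of `ℓ_4`. -/
def IsFourDH (E : Type*) [NormedAddCommGroup E] [Lattice E] [NormedSpace ℝ E] : Prop :=
  ∀ x : ℕ → E, DisjSeq x → (∀ n, ‖x n‖ = 1) → ∃ φ : ℕ → ℕ, StrictMono φ ∧ EquivEll4 (x ∘ φ)

/-- `E` is disjointly complemented: every disjoint sequence has a subsequence with complemented closed span. -/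
def IsDC (E : Type*) [NormedAddCommGroup E] [Lattice E] [NormedSpace ℝ E] : Prop :=
  ∀ x : ℕ → E, DisjSeq x → ∃ φ : ℕ → ℕ, StrictMono φ ∧ ComplSpan (x ∘ φ)

end Pool.Agent.T2H72.DC
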