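import Pool.Agent.T2H72.DC.Stm
import Pool.Agent.T2H72.DC.LatDefs

set_option autoImplicit false

namespace Pool.Agent.T2H72.DC

open Finset Filter TopologicalSpace

theorem toFun_abs {S : Sys} (M : Model S.X S.Phi) (x : M.E) (i : S.X) :
    M.toFun |x| i = |M.toFun x i| := by
  have : |x| = x ⊔ -x := rfl
  rw [this, M.map_sup, map_neg]
  rfl

theorem toFun_sum {S : Sys} (M : Model S.X S.Phi) (s : Finset ℕ) (a : ℕ → ℝ) (x : ℕ → M.E) :
    M.toFun (∑ k ∈ s, a k • x k) = fun i => ∑ k ∈ s, a k * M.toFun (x k) i := by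
  rw [map_sum]
  funext i
  rw [Finset.sum_apply]
  refine Finset.sum_congr rfl fun k _ => ?_
  rw [map_smul]
  rfl

theorem disj_iff {S : Sys} (M : Model S.X S.Phi) (x : ℕ → M.E) :
    DisjSeq x ↔ ∀ m n, m ≠ n → ∀ i, M.toFun (x m) i = 0 ∨ M.toFun (x n) i = 0 := by
  constructor
  · intro h m n hmn i
    have h1 := congrArg (fun z => M.toFun z i) (h m n hmn)
    simp only [M.map_inf, toFun_abs, map_zero, Pi.zero_apply] at h1
    rcases min_choice |M.toFun (x m) i| |M.toFun (x n) i| with h2 | h2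
    · left
      rw [h2] at h1
      exact abs_eq_zero.mp h1
    · right
      rw [h2] at h1
      exact abs_eq_zero.mp h1
  · intro h m n hmn
    apply M.inj
    funext i
    rw [M.map_inf, toFun_abs, toFun_abs, map_zero, Pi.zero_apply]
    rcases h m n hmn i with h1 | h1
    · rw [h1, abs_zero]
      exact min_eq_left (abs_nonneg _)
    · rw [h1, abs_zero]
      exact min_eq_right (abs_nonneg _)

theorem fourDH (hF : S_FOUR) {S : Sys} (M : Model S.X S.Phi) : IsFourDH M.E := by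
  intro x hx hn
  obtain ⟨φ, hφ, c, hc, C, hC, h⟩ := hF S (fun k => M.toFun (x k)) ((disj_iff M x).1 hx)
    (fun k ε hε => M.tail (x k) ε hε)
    (fun k => (M.norm_le (x k) 1).1 (hn k).le)
    (fun k c hc h => by
      have := (M.norm_le (x k) c).2 h
      rw [hn k] at this
      linarith)
  refine ⟨φ, hφ, max C (max c⁻¹ 1), le_trans (le_max_right _ _) (le_max_right _ _), ?_⟩
  intro s a
  let n := s.sup id + 1
  let a' : ℕ → ℝ := fun k => if k ∈ s then a k else 0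
  have hsub : s ⊆ Finset.range n := by
    intro k hk
    rw [Finset.mem_range]
    exact Nat.lt_succ_of_le (Finset.le_sup (f := id) hk)
  have h1 : ∑ k ∈ s, |a k| ^ 4 = ∑ k ∈ Finset.range n, |a' k| ^ 4 := by
    rw [← Finset.sum_subset hsub]
    · refine Finset.sum_congr rfl fun k hk => ?_
      simp only [a', if_pos hk]
    · intro k _ hk
      simp only [a', if_neg hk, abs_zero]
      norm_num
  have h2 : ∑ k ∈ s, a k • (x ∘ φ) k = ∑ k ∈ Finset.range n, a' k • (x ∘ φ) k := by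
    rw [← Finset.sum_subset hsub]
    · refine Finset.sum_congr rfl fun k hk => ?_
      simp only [a', if_pos hk]
    · intro k _ hk
      simp only [a', if_neg hk, zero_smul]
  obtain ⟨h3, h4⟩ := h n a'
  have h5 : M.toFun (∑ k ∈ s, a k • (x ∘ φ) k) =
      fun i => ∑ k ∈ Finset.range n, a' k * M.toFun (x (φ k)) i := by
    rw [h2, toFun_sum]
    rfl
  rw [← h1, ← h5] at h3
  have h6 : ∀ N, NLe S.Phi (M.toFun (∑ k ∈ s, a k • (x ∘ φ) k)) N →
      c * (∑ k ∈ s, |a k| ^ 4) ^ (1 / 4 : ℝ) ≤ N := by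
    intro N hN
    rw [h1]
    apply h4
    rw [← h5]
    exact hN
  have hA : 0 ≤ (∑ k ∈ s, |a k| ^ 4) ^ (1 / 4 : ℝ) :=
    Real.rpow_nonneg (Finset.sum_nonneg fun k _ => by positivity) _
  have h7 := h6 _ ((M.norm_le _ _).1 le_rfl)
  have h8 := (M.norm_le _ _).2 h3
  constructor
  · refine le_trans ?_ h7
    refine mul_le_mul_of_nonneg_right ?_ hA
    rw [inv_le_comm₀ (lt_of_lt_of_le hC (le_max_left _ _)) hc]
    exact le_trans (le_max_left _ _) (le_max_right _ _)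
  · refine h8.trans ?_
    exact mul_le_mul_of_nonneg_right (le_max_left _ _) hA

theorem isDH_of_four {E : Type*} [NormedAddCommGroup E] [Lattice E] [NormedSpace ℝ E]
    (h : IsFourDH E) : IsDH E := by
  intro x y hx hy hx1 hy1
  obtain ⟨φ, hφ, C, hC, h1⟩ := h x hx hx1
  obtain ⟨ψ, hψ, D, hD, h2⟩ := h y hy hy1
  refine ⟨φ, ψ, hφ, hψ, C * D, by nlinarith, ?_⟩
  intro s a
  obtain ⟨h3, h4⟩ := h1 s a
  obtain ⟨h5, h6⟩ := h2 s a
  have hC0 : 0 < C := by linarith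
  have hD0 : 0 < D := by linarith
  have h7 : (∑ n ∈ s, |a n| ^ 4) ^ (1 / 4 : ℝ) ≤ C * ‖∑ n ∈ s, a n • (x ∘ φ) n‖ := by
    rw [inv_mul_le_iff₀ hC0] at h3
    exact h3
  have h8 : (∑ n ∈ s, |a n| ^ 4) ^ (1 / 4 : ℝ) ≤ D * ‖∑ n ∈ s, a n • (y ∘ ψ) n‖ := by
    rw [inv_mul_le_iff₀ hD0] at h5
    exact h5
  constructor
  · rw [inv_mul_le_iff₀ (by positivity)]
    calc _ ≤ D * (∑ n ∈ s, |a n| ^ 4) ^ (1 / 4 : ℝ) := h6
      _ ≤ D * (C * ‖∑ n ∈ s, a n • (x ∘ φ) n‖) := mul_le_mul_of_nonneg_left h7 hD0.le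
      _ = _ := by ring
  · calc _ ≤ C * (∑ n ∈ s, |a n| ^ 4) ^ (1 / 4 : ℝ) := h4
      _ ≤ C * (D * ‖∑ n ∈ s, a n • (y ∘ ψ) n‖) := mul_le_mul_of_nonneg_left h8 hC0.le
      _ = _ := by ring

theorem avg_exists {S : Sys} (M : Model S.X S.Phi) : ∃ x : ℕ → M.E,
    (∀ n y, M.toFun (x n) y = if y.1 = n then 1 / ((S.lvl n).card : ℝ) else 0) := by
  have h : ∀ n, ∃ x : M.E, M.toFun x = fun y => if y.1 = n then 1 / ((S.lvl n).card : ℝ) else 0 := by
    intro n
    apply M.fin_supp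
    refine (S.lvl n).finite_toSet.subset ?_
    intro y hy
    rw [Function.mem_support] at hy
    rw [Finset.mem_coe, mem_lvl]
    by_contra hne
    exact hy (if_neg hne)
  choose x hx using h
  exact ⟨x, fun n y => by rw [hx]⟩

theorem avg_disj {S : Sys} (M : Model S.X S.Phi) (x : ℕ → M.E)
    (hx : ∀ n y, M.toFun (x n) y = if y.1 = n then 1 / ((S.lvl n).card : ℝ) else 0) :
    DisjSeq x := by
  rw [disj_iff]
  intro m n hmn i
  rw [hx, hx]
  by_cases h : i.1 = m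
  · right
    rw [if_neg]
    intro h'
    exact hmn (h.symm.trans h')
  · left
    rw [if_neg h]

theorem avg_norm {S : Sys} (M : Model S.X S.Phi) (x : ℕ → M.E)
    (hx : ∀ n y, M.toFun (x n) y = if y.1 = n then 1 / ((S.lvl n).card : ℝ) else 0) (n : ℕ) :
    ‖x n‖ = 1 := by
  have hpos : (0 : ℝ) < (S.lvl n).card := by exact_mod_cast card_lvl_pos n
  apply le_antisymm
  · rw [M.norm_le]
    intro f hf s
    have h1 : ∀ y ∈ s, f y * |M.toFun (x n) y| ≤ if y ∈ S.lvl n then 1 / ((S.lvl n).card : ℝ) else 0 := by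
      intro y _
      rw [hx]
      by_cases h : y.1 = n
      · rw [if_pos h, if_pos (mem_lvl.2 h), abs_of_nonneg (by positivity)]
        exact mul_le_of_le_one_left (by positivity) (Phi.le_one hf y)
      · rw [if_neg h, if_neg (fun h' => h (mem_lvl.1 h')), abs_zero, mul_zero]
    refine (Finset.sum_le_sum h1).trans ?_
    rw [← Finset.sum_filter, Finset.sum_const, nsmul_eq_mul]
    have h2 : ((s.filter (fun y => y ∈ S.lvl n)).card : ℝ) ≤ (S.lvl n).card := by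
      exact_mod_cast Finset.card_le_card (fun y hy => (Finset.mem_filter.1 hy).2)
    rw [mul_one_div, div_le_one hpos]
    exact h2
  · have h := (M.norm_le (x n) ‖x n‖).1 le_rfl _ (lvl_mem_Phi n) (S.lvl n)
    have h1 : ∑ y ∈ S.lvl n, (if y.1 = n then (1 : ℝ) else 0) * |M.toFun (x n) y| = 1 := by
      have h2 : ∀ y ∈ S.lvl n, (if y.1 = n then (1 : ℝ) else 0) * |M.toFun (x n) y| =
          1 / ((S.lvl n).card : ℝ) := by
        intro y hy
        rw [hx, if_pos (mem_lvl.1 hy), if_pos (mem_lvl.1 hy), one_mul, abs_of_nonneg (by positivity)]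
      rw [Finset.sum_congr rfl h2, Finset.sum_const, nsmul_eq_mul, mul_one_div, div_self hpos.ne']
    linarith

/-- The assembly. -/
theorem fin_assembly (hSYS : S_SYS) (hKL : S_KL) (hFOUR : S_FOUR) (hNC : S_NC) :
    ∃ (E : Type) (_ : NormedAddCommGroup E) (_ : Lattice E) (_ : HasSolidNorm E)
      (_ : IsOrderedAddMonoid E) (_ : NormedSpace ℝ E) (_ : PosSMulMono ℝ E),
      CompleteSpace E ∧ SeparableSpace E ∧ IsDH E ∧ IsFourDH E ∧ ¬ IsDC E ∧
      ∃ x : ℕ → E, DisjSeq x ∧ (∀ n, ‖x n‖ = 1) ∧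
        ∀ φ : ℕ → ℕ, StrictMono φ → ¬ ComplSpan (x ∘ φ) := by
  obtain ⟨S⟩ := hSYS
  obtain ⟨M⟩ := hKL S.X S.Phi ⟨_, zero_mem_Phi⟩ (fun f hf i => ⟨hf.1 i, Phi.le_one hf i⟩)
    (fun i => ⟨_, lvl_mem_Phi i.1, by simp⟩)
  obtain ⟨x, hx⟩ := avg_exists M
  have h4 := fourDH hFOUR M
  have hcomp : ∀ φ : ℕ → ℕ, StrictMono φ → ¬ ComplSpan (x ∘ φ) := hNC S M x hx
  refine ⟨M.E, M.i1, M.i2, M.i3, M.i4, M.i5, M.i6, M.i7, M.i8, isDH_of_four h4, h4, ?_,
    x, avg_disj M x hx, avg_norm M x hx, hcomp⟩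
  intro hDC
  obtain ⟨φ, hφ, h⟩ := hDC x (avg_disj M x hx)
  exact hcomp φ hφ h

end Pool.Agent.T2H72.DC
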