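import Pool.Agent.T2H72.DC.Stm

set_option autoImplicit false

namespace Pool.Agent.T2H72.DC

open Finset

theorem nle_sum {ι : Type} {Φ : Set (ι → ℝ)} (hΦ : ∀ f ∈ Φ, ∀ i, 0 ≤ f i) (w : ℕ → ι → ℝ) (d : ℕ → ℝ)
    (h : ∀ k, NLe Φ (w k) (d k)) (n : ℕ) :
    NLe Φ (fun x => ∑ k ∈ Finset.range n, w k x) (∑ k ∈ Finset.range n, d k) := by
  induction n with
  | zero =>
    intro f hf s
    simp
  | succ n ih =>
    have h1 := NLe.add hΦ ih (h n)
    rw [Finset.sum_range_succ]
    convert h1 using 2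
    rw [Finset.sum_range_succ]

theorem pFOUR (hB : S_BLK) (hU : S_UP) (hL : S_LOW) : S_FOUR := by
  classical
  intro S v hdis htail hle hge
  have hΦ : ∀ f ∈ S.Phi, ∀ i, 0 ≤ f i := fun f hf => hf.1
  obtain ⟨φ₁, hφ₁, T, hT, hT'⟩ := hB S v hdis htail
  let u : ℕ → S.X → ℝ := fun k => (↑(T k) : Set S.X).indicator (v (φ₁ k))
  let w : ℕ → S.X → ℝ := fun k => (↑(T k) : Set S.X)ᶜ.indicator (v (φ₁ k))
  have huw : ∀ k x, v (φ₁ k) x = u k x + w k x := by
    intro k x
    simp only [u, w]
    rw [Set.indicator_self_add_compl_apply]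
  have hu0 : ∀ k, ∀ x, x ∉ T k → u k x = 0 := by
    intro k x hx
    exact Set.indicator_of_notMem (by simpa using hx) _
  have hu1 : ∀ k, NLe S.Phi (u k) 1 := by
    intro k
    refine NLe.mono hΦ (hle (φ₁ k)) fun x => ?_
    by_cases hx : x ∈ T k
    · exact le_of_eq (congrArg abs (Set.indicator_of_mem (by simpa using hx) _))
    · rw [hu0 k x hx, abs_zero]
      exact abs_nonneg _
  have hf : ∀ k, ∃ f ∈ S.Phi, 1 / 2 ≤ ∑ x ∈ T k, f x * |u k x| := by
    intro k
    by_contra hcon
    push Not at hcon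
    have h1 : NLe S.Phi (u k) (1 / 2) := by
      intro f hf s
      have h2 : ∑ x ∈ s, f x * |u k x| ≤ ∑ x ∈ T k, f x * |u k x| := by
        have h3 : ∑ x ∈ s, f x * |u k x| = ∑ x ∈ s.filter (fun x => x ∈ T k), f x * |u k x| := by
          rw [Finset.sum_filter]
          refine Finset.sum_congr rfl fun x _ => ?_
          split_ifs with hx
          · rfl
          · rw [hu0 k x hx, abs_zero, mul_zero]
        rw [h3]
        apply Finset.sum_le_sum_of_subset_of_nonneg
        · intro x hx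
          exact (Finset.mem_filter.1 hx).2
        · intro x _ _
          exact mul_nonneg (hf.1 x) (abs_nonneg _)
      exact h2.trans (hcon f hf).le
    have h2 := NLe.add hΦ h1 (hT' k)
    have h3 : NLe S.Phi (v (φ₁ k)) (3 / 4) := by
      have h4 : (1 : ℝ) / 2 + 1 / 2 ^ (k + 2) ≤ 3 / 4 := by
        have : (1 : ℝ) / 2 ^ (k + 2) ≤ 1 / 2 ^ 2 :=
          one_div_le_one_div_of_le (by norm_num)
            (pow_le_pow_right₀ (by norm_num) (Nat.le_add_left 2 k))
        linarith
      have h5 := NLe.mono_right h2 h4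
      convert h5 using 1
      funext x
      exact huw k x
    exact hge (φ₁ k) (3 / 4) (by norm_num) h3
  choose f hfΦ hf2 using hf
  obtain ⟨φ₂, hφ₂, c, hc, C, hC, hDL⟩ := hL S T hT u f (1 / 2) (by norm_num) hfΦ hf2
  refine ⟨φ₁ ∘ φ₂, hφ₁.comp hφ₂, c * C ^ (-(3 / 4) : ℝ), by positivity, 2, by norm_num,
    fun n a => ⟨?_, fun M hM => ?_⟩⟩
  · -- the upper estimate
    have hA0 : 0 ≤ ∑ k ∈ Finset.range n, |a k| ^ 4 := Finset.sum_nonneg fun k _ => by positivity
    have h1 := hU S (T ∘ φ₂) (fun i j hij => hT _ _ (hφ₂ hij)) (u ∘ φ₂) (fun k x hx => hu0 _ x hx)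
      (fun k => hu1 _) a n
    have h2 := nle_sum hΦ (fun k x => a k * w (φ₂ k) x) (fun k => |a k| * (1 / 2 ^ (k + 2))) (by
      intro k
      apply NLe.smul
      refine NLe.mono_right (hT' (φ₂ k)) ?_
      exact one_div_le_one_div_of_le (by positivity)
        (pow_le_pow_right₀ (by norm_num) (Nat.add_le_add_right (hφ₂.id_le k) 2))) n
    have h3 := NLe.add hΦ h1 h2
    have h4 : ∑ k ∈ Finset.range n, |a k| * (1 / 2 ^ (k + 2)) ≤
        (∑ k ∈ Finset.range n, |a k| ^ 4) ^ (1 / 4 : ℝ) := by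
      have h5 : ∀ k ∈ Finset.range n, |a k| * (1 / 2 ^ (k + 2)) ≤
          (∑ k ∈ Finset.range n, |a k| ^ 4) ^ (1 / 4 : ℝ) * (1 / 2 ^ (k + 2)) := by
        intro k hk
        apply mul_le_mul_of_nonneg_right _ (by positivity)
        have h6 : |a k| ^ 4 ≤ ∑ k ∈ Finset.range n, |a k| ^ 4 :=
          Finset.single_le_sum (f := fun k => |a k| ^ 4) (fun k _ => by positivity) hk
        calc |a k| = (|a k| ^ 4) ^ (1 / 4 : ℝ) := by
              rw [← Real.rpow_natCast, ← Real.rpow_mul (abs_nonneg _)]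
              norm_num
          _ ≤ _ := Real.rpow_le_rpow (by positivity) h6 (by norm_num)
      refine (Finset.sum_le_sum h5).trans ?_
      rw [← Finset.mul_sum]
      apply mul_le_of_le_one_right (Real.rpow_nonneg hA0 _)
      have h6 : ∀ n : ℕ, ∑ k ∈ Finset.range n, (1 : ℝ) / 2 ^ (k + 2) = 1 / 2 - 1 / 2 ^ (n + 1) := by
        intro n
        induction n with
        | zero => norm_num
        | succ n ih =>
          rw [Finset.sum_range_succ, ih]
          field_simp
          ring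
      rw [h6]
      have : (0 : ℝ) < 1 / 2 ^ (n + 1) := by positivity
      linarith
    have h5 := NLe.mono_right h3 (c' := 2 * (∑ k ∈ Finset.range n, |a k| ^ 4) ^ (1 / 4 : ℝ))
      (by linarith)
    convert h5 using 1
    funext x
    rw [← Finset.sum_add_distrib]
    refine Finset.sum_congr rfl fun k _ => ?_
    simp only [Function.comp_apply]
    rw [huw (φ₂ k) x]
    ring
  · -- the lower estimate
    obtain ⟨A, hAdef⟩ : ∃ A, A = ∑ k ∈ Finset.range n, |a k| ^ 4 := ⟨_, rfl⟩
    have hA0 : 0 ≤ A := by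
      rw [hAdef]
      exact Finset.sum_nonneg fun k _ => by positivity
    rw [← hAdef]
    rcases hA0.eq_or_lt with hA | hA
    · rw [← hA, Real.zero_rpow (by norm_num), mul_zero]
      have := hM _ zero_mem_Phi ∅
      simpa using this
    obtain ⟨g, hg0, hg1, hg2, hg3⟩ := hDL (fun k => |a k| ^ 3) (fun k => by positivity) n
    have hb : ∑ k ∈ Finset.range n, (|a k| ^ 3) ^ (4 / 3 : ℝ) = A := by
      rw [hAdef]
      refine Finset.sum_congr rfl fun k _ => ?_
      rw [← Real.rpow_natCast, ← Real.rpow_mul (abs_nonneg _), ← Real.rpow_natCast]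
      norm_num
    rw [hb] at hg3
    have hG0 : ∀ x, 0 ≤ ∑ k ∈ Finset.range n, |a k| ^ 3 * g k x := fun x =>
      Finset.sum_nonneg fun k _ => mul_nonneg (by positivity) (hg0 k x)
    have hPhi := Bd.normalize hG0 hg3 (mul_pos hC hA)
    have h1 := hM _ hPhi ((Finset.range n).biUnion (fun k => T (φ₂ k)))
    have hdisj : Set.PairwiseDisjoint (↑(Finset.range n) : Set ℕ) (fun k => T (φ₂ k)) := by
      intro i _ j _ hij
      rw [Function.onFun, Finset.disjoint_left]
      intro x hx hx'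
      rcases lt_or_gt_of_ne hij with h' | h'
      · exact absurd (hT _ _ (hφ₂ h') x hx x hx') (lt_irrefl _)
      · exact absurd (hT _ _ (hφ₂ h') x hx' x hx) (lt_irrefl _)
    rw [Finset.sum_biUnion hdisj] at h1
    have h2 : ∀ k ∈ Finset.range n, (C * A) ^ (-(3 / 4) : ℝ) * (|a k| ^ 4 * c) ≤
        ∑ x ∈ T (φ₂ k), (C * A) ^ (-(3 / 4) : ℝ) * (∑ k' ∈ Finset.range n, |a k'| ^ 3 * g k' x) *
          |∑ k' ∈ Finset.range n, a k' * v ((φ₁ ∘ φ₂) k') x| := by
      intro k hk
      have h3 := hg2 k (Finset.mem_range.1 hk)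
      have h4 : ∀ x ∈ T (φ₂ k), (C * A) ^ (-(3 / 4) : ℝ) * (|a k| ^ 4 * (g k x * |(u ∘ φ₂) k x|)) ≤
          (C * A) ^ (-(3 / 4) : ℝ) * (∑ k' ∈ Finset.range n, |a k'| ^ 3 * g k' x) *
          |∑ k' ∈ Finset.range n, a k' * v ((φ₁ ∘ φ₂) k') x| := by
        intro x hx
        rw [mul_assoc]
        apply mul_le_mul_of_nonneg_left _ (Real.rpow_nonneg (by positivity) _)
        have e2 : |a k| ^ 3 * g k x ≤ ∑ k' ∈ Finset.range n, |a k'| ^ 3 * g k' x :=
          Finset.single_le_sum (f := fun k' => |a k'| ^ 3 * g k' x)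
            (fun k' _ => mul_nonneg (by positivity) (hg0 k' x)) hk
        have e1 : |a k| * |(u ∘ φ₂) k x| ≤ |∑ k' ∈ Finset.range n, a k' * v ((φ₁ ∘ φ₂) k') x| := by
          have e3 : (u ∘ φ₂) k x = v (φ₁ (φ₂ k)) x :=
            Set.indicator_of_mem (by simpa using hx) _
          rw [e3, ← abs_mul]
          by_cases hv : v (φ₁ (φ₂ k)) x = 0
          · rw [hv, mul_zero, abs_zero]
            exact abs_nonneg _
          · apply le_of_eq
            congr 1
            rw [Finset.sum_eq_single k]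
            · rfl
            · intro j _ hj
              rcases hdis (φ₁ (φ₂ j)) (φ₁ (φ₂ k))
                (fun h' => hj ((hφ₁.comp hφ₂).injective h')) x with h' | h'
              · simp only [Function.comp_apply]
                rw [h', mul_zero]
              · exact absurd h' hv
            · intro h'
              exact absurd hk h'
        calc |a k| ^ 4 * (g k x * |(u ∘ φ₂) k x|) = (|a k| ^ 3 * g k x) * (|a k| * |(u ∘ φ₂) k x|) := by
              ring
          _ ≤ _ := mul_le_mul e2 e1 (by positivity) (hG0 x)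
      refine le_trans ?_ (Finset.sum_le_sum h4)
      rw [← Finset.mul_sum, ← Finset.mul_sum]
      apply mul_le_mul_of_nonneg_left _ (Real.rpow_nonneg (by positivity) _)
      exact mul_le_mul_of_nonneg_left h3 (by positivity)
    have h5 := (Finset.sum_le_sum h2).trans h1
    rw [← Finset.mul_sum, ← Finset.sum_mul, ← hAdef] at h5
    refine le_trans (le_of_eq ?_) h5
    rw [Real.mul_rpow hC.le hA.le]
    have h6 : A ^ (1 / 4 : ℝ) = A * A ^ (-(3 / 4) : ℝ) := by
      nth_rewrite 2 [← Real.rpow_one A]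
      rw [← Real.rpow_add hA]
      norm_num
    rw [h6]
    ring

end Pool.Agent.T2H72.DC
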