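import Pool.Agent.T2H72.DC.Stm

/-! Package INEQ of project DC. -/

set_option autoImplicit false

namespace Pool.Agent.T2H72.DC

open Finset Filter

namespace PkgINEQ

/-- sums of a geometric progression over a finite set of integers bounded above -/
lemma geo (q : ℝ) (hq0 : 0 < q) (hq1 : q < 1) (W : Finset ℤ) (t₀ : ℤ) (h : ∀ t ∈ W, t ≤ t₀) :
    ∑ t ∈ W, q ^ (t₀ - t).toNat ≤ 1 / (1 - q) := by
  have hinj : Set.InjOn (fun t : ℤ => (t₀ - t).toNat) W := by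
    intro a ha b hb hab
    have h1 := h a ha
    have h2 := h b hb
    simp only at hab
    omega
  rw [← Finset.sum_image (f := fun n : ℕ => q ^ n) hinj]
  rw [one_div, ← tsum_geometric_of_lt_one hq0.le hq1]
  exact (summable_geometric_of_lt_one hq0.le hq1).sum_le_tsum _ (fun n _ => by positivity)

lemma q_lt : (2 : ℝ) ^ (-(1 / 9) : ℝ) < 1 :=
  Real.rpow_lt_one_of_one_lt_of_neg (by norm_num) (by norm_num)

/-- the number of elements in the class `t` -/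
lemma m_le (J₀ m s : ℕ) (hms : m ≤ s) (h : m ≤ J₀ ∨ m ^ 3 ≤ s ^ 2) :
    (m : ℝ) ≤ ((J₀ : ℝ) + 1) * (s : ℝ) ^ (2 / 3 : ℝ) := by
  rcases Nat.eq_zero_or_pos m with h0 | h0
  · subst h0
    push_cast
    positivity
  · have hs1 : (1:ℝ) ≤ s := by exact_mod_cast (by omega : 1 ≤ s)
    have hs2 : (1:ℝ) ≤ (s : ℝ) ^ (2 / 3 : ℝ) := Real.one_le_rpow hs1 (by norm_num)
    rcases h with h | h
    · have h1 : (m : ℝ) ≤ J₀ := by exact_mod_cast h
      nlinarith [(Nat.cast_nonneg J₀ : (0:ℝ) ≤ J₀)]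
    · have h1 : (m : ℝ) ^ 3 ≤ (s : ℝ) ^ 2 := by exact_mod_cast h
      have h2 : (m : ℝ) ≤ (s : ℝ) ^ (2 / 3 : ℝ) := by
        have e1 : (m : ℝ) = ((m : ℝ) ^ 3) ^ (1 / 3 : ℝ) := by
          rw [← Real.rpow_natCast, ← Real.rpow_mul (by positivity)]
          norm_num
        have e2 : (s : ℝ) ^ (2 / 3 : ℝ) = ((s : ℝ) ^ 2) ^ (1 / 3 : ℝ) := by
          rw [← Real.rpow_natCast, ← Real.rpow_mul (by positivity)]
          norm_num
        rw [e1, e2]
        exact Real.rpow_le_rpow (by positivity) h1 (by norm_num)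
      nlinarith [(Nat.cast_nonneg J₀ : (0:ℝ) ≤ J₀)]

end PkgINEQ

open PkgINEQ

theorem pINEQ : S_INEQ := by
  intro J₀
  have hq1 := q_lt
  have hq0 : (0:ℝ) < (2 : ℝ) ^ (-(1 / 9) : ℝ) := by positivity
  obtain ⟨q, hq⟩ : ∃ q : ℝ, q = (2 : ℝ) ^ (-(1 / 9) : ℝ) := ⟨_, rfl⟩
  rw [← hq] at hq0 hq1
  have hq2 : 0 < 1 - q := by linarith
  refine ⟨(2 * ((J₀ : ℝ) + 1) * (1 / (1 - q))) ^ (4 / 3 : ℝ), by positivity, ?_⟩
  intro b τ D K hb hKD hK
  have hb0 : ∀ k ∈ D, 0 < b k := fun k hk => lt_trans (by positivity) (hb k hk).1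
  rcases K.eq_empty_or_nonempty with hKe | hKne
  · subst hKe
    rw [Finset.sum_empty, Real.zero_rpow (by norm_num)]
    exact mul_nonneg (by positivity) (Finset.sum_nonneg fun k hk => by
      have := hb0 k hk
      positivity)
  obtain ⟨U, hU⟩ : ∃ U : ℝ, U = ∑ k ∈ D, (b k) ^ (4 / 3 : ℝ) := ⟨_, rfl⟩
  rw [← hU]
  have hU0 : 0 < U := by
    rw [hU]
    obtain ⟨k, hk⟩ := hKne
    exact Finset.sum_pos (fun k hk => Real.rpow_pos_of_pos (hb0 k hk) _) ⟨k, hKD hk⟩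
  -- the numbers `y t = 2^(t-1)`
  obtain ⟨y, hy⟩ : ∃ y : ℤ → ℝ, y = fun t : ℤ => (2:ℝ) ^ ((t : ℝ) - 1) := ⟨_, rfl⟩
  have hy0 : ∀ t, 0 < y t := fun t => by rw [hy]; positivity
  have hyz : ∀ t, (2:ℝ) ^ (t - 1 : ℤ) = y t := fun t => by
    rw [hy]
    beta_reduce
    rw [← Real.rpow_intCast]
    push_cast
    rfl
  have hyz2 : ∀ t, (2:ℝ) ^ (t : ℤ) = 2 * y t := fun t => by
    rw [← hyz, ← zpow_one_add₀ (by norm_num)]
    congr 1
    ring
  have hs : ∀ t, ((D.filter (fun k => τ k = t)).card : ℝ) * (y t) ^ (4 / 3 : ℝ) ≤ U := by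
    intro t
    rw [hU, ← nsmul_eq_mul, ← Finset.sum_const]
    refine le_trans (Finset.sum_le_sum (g := fun k => (b k) ^ (4 / 3 : ℝ)) fun k hk => ?_)
      (Finset.sum_le_sum_of_subset_of_nonneg (Finset.filter_subset _ _) fun k hk _ =>
        (Real.rpow_pos_of_pos (hb0 k hk) _).le)
    rw [Finset.mem_filter] at hk
    refine Real.rpow_le_rpow (hy0 t).le ?_ (by norm_num)
    rw [← hyz, ← hk.2]
    exact (hb k hk.1).1.le
  have hms : ∀ t, (K.filter (fun k => τ k = t)).card ≤ (D.filter (fun k => τ k = t)).card :=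
    fun t => Finset.card_le_card (Finset.filter_subset_filter _ hKD)
  have hm : ∀ t, ((K.filter (fun k => τ k = t)).card : ℝ) * (2 * y t) ≤
      2 * ((J₀ : ℝ) + 1) * U ^ (2 / 3 : ℝ) * (y t) ^ (1 / 9 : ℝ) := by
    intro t
    have h1 := m_le J₀ _ _ (hms t) (hK t)
    have h2 : ((D.filter (fun k => τ k = t)).card : ℝ) ^ (2 / 3 : ℝ) * (y t) ^ (8 / 9 : ℝ) ≤
        U ^ (2 / 3 : ℝ) := by
      have h3 := Real.rpow_le_rpow (by have := hy0 t; positivity) (hs t)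
        (by norm_num : (0:ℝ) ≤ 2 / 3)
      rw [Real.mul_rpow (by positivity) (Real.rpow_nonneg (hy0 t).le _),
        ← Real.rpow_mul (hy0 t).le] at h3
      norm_num at h3
      exact h3
    have h4 : y t = (y t) ^ (8 / 9 : ℝ) * (y t) ^ (1 / 9 : ℝ) := by
      rw [← Real.rpow_add (hy0 t)]
      norm_num
    have h5 : 0 < (y t) ^ (1 / 9 : ℝ) := Real.rpow_pos_of_pos (hy0 t) _
    have h6 : 0 < (y t) ^ (8 / 9 : ℝ) := Real.rpow_pos_of_pos (hy0 t) _
    calc ((K.filter (fun k => τ k = t)).card : ℝ) * (2 * y t)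
        ≤ (((J₀ : ℝ) + 1) * ((D.filter (fun k => τ k = t)).card : ℝ) ^ (2 / 3 : ℝ)) *
          (2 * y t) := mul_le_mul_of_nonneg_right h1 (by have := hy0 t; positivity)
      _ = 2 * ((J₀ : ℝ) + 1) * (((D.filter (fun k => τ k = t)).card : ℝ) ^ (2 / 3 : ℝ) *
          (y t) ^ (8 / 9 : ℝ)) * (y t) ^ (1 / 9 : ℝ) := by
          conv_lhs => rw [h4]
          ring
      _ ≤ _ := by gcongr
  -- the largest class
  obtain ⟨W, hW⟩ : ∃ W : Finset ℤ, W = K.image τ := ⟨_, rfl⟩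
  have hWne : W.Nonempty := by rw [hW]; exact hKne.image τ
  obtain ⟨t₀, ht₀⟩ : ∃ t₀, t₀ = W.max' hWne := ⟨_, rfl⟩
  have ht₀W : t₀ ∈ W := by rw [ht₀]; exact Finset.max'_mem _ _
  have hmax : ∀ t ∈ W, t ≤ t₀ := fun t ht => by rw [ht₀]; exact Finset.le_max' _ _ ht
  have hy1 : (y t₀) ^ (1 / 9 : ℝ) ≤ U ^ (1 / 12 : ℝ) := by
    have h1 : (1:ℝ) ≤ ((D.filter (fun k => τ k = t₀)).card : ℝ) := by
      rw [hW, Finset.mem_image] at ht₀W
      obtain ⟨k, hk, hkt⟩ := ht₀W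
      have : 0 < (D.filter (fun k => τ k = t₀)).card :=
        Finset.card_pos.2 ⟨k, Finset.mem_filter.2 ⟨hKD hk, hkt⟩⟩
      exact_mod_cast this
    have h2 : (y t₀) ^ (4 / 3 : ℝ) ≤ U := by
      refine le_trans ?_ (hs t₀)
      exact le_mul_of_one_le_left (Real.rpow_nonneg (hy0 _).le _) h1
    have h3 := Real.rpow_le_rpow (Real.rpow_nonneg (hy0 _).le _) h2
      (by norm_num : (0:ℝ) ≤ 1 / 12)
    rw [← Real.rpow_mul (hy0 _).le] at h3
    norm_num at h3 ⊢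
    exact h3
  have hyq : ∀ t ∈ W, (y t) ^ (1 / 9 : ℝ) = (y t₀) ^ (1 / 9 : ℝ) * q ^ (t₀ - t).toNat := by
    intro t ht
    have h1 := hmax t ht
    have h2 : (((t₀ - t).toNat : ℕ) : ℝ) = (t₀ : ℝ) - t := by
      have : (((t₀ - t).toNat : ℕ) : ℤ) = t₀ - t := Int.toNat_of_nonneg (by omega)
      have h3 : ((((t₀ - t).toNat : ℕ) : ℤ) : ℝ) = ((t₀ - t : ℤ) : ℝ) := by rw [this]
      push_cast at h3
      rw [← h3]
    rw [hq, hy]
    beta_reduce
    rw [← Real.rpow_natCast ((2:ℝ) ^ (-(1 / 9) : ℝ)), h2, ← Real.rpow_mul (by norm_num),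
      ← Real.rpow_mul (by norm_num), ← Real.rpow_mul (by norm_num), ← Real.rpow_add (by norm_num)]
    congr 1
    ring
  have hsum : ∑ k ∈ K, b k ≤ 2 * ((J₀ : ℝ) + 1) * (1 / (1 - q)) * U ^ (3 / 4 : ℝ) := by
    calc ∑ k ∈ K, b k = ∑ t ∈ W, ∑ k ∈ K.filter (fun k => τ k = t), b k := by
          rw [hW]
          exact (Finset.sum_fiberwise_of_maps_to (fun k hk => Finset.mem_image_of_mem τ hk) _).symm
      _ ≤ ∑ t ∈ W, ((K.filter (fun k => τ k = t)).card : ℝ) * (2 * y t) := by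
          refine Finset.sum_le_sum fun t _ => ?_
          rw [← nsmul_eq_mul, ← Finset.sum_const]
          refine Finset.sum_le_sum fun k hk => ?_
          rw [Finset.mem_filter] at hk
          rw [← hyz2, ← hk.2]
          exact (hb k (hKD hk.1)).2
      _ ≤ ∑ t ∈ W, 2 * ((J₀ : ℝ) + 1) * U ^ (2 / 3 : ℝ) * ((y t₀) ^ (1 / 9 : ℝ) *
            q ^ (t₀ - t).toNat) := by
          refine Finset.sum_le_sum fun t ht => ?_
          rw [← hyq t ht]
          exact hm t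
      _ = 2 * ((J₀ : ℝ) + 1) * U ^ (2 / 3 : ℝ) * (y t₀) ^ (1 / 9 : ℝ) *
            ∑ t ∈ W, q ^ (t₀ - t).toNat := by
          rw [Finset.mul_sum]
          refine Finset.sum_congr rfl fun t _ => ?_
          ring
      _ ≤ 2 * ((J₀ : ℝ) + 1) * U ^ (2 / 3 : ℝ) * U ^ (1 / 12 : ℝ) * (1 / (1 - q)) := by
          have h1 := geo q hq0 hq1 W t₀ hmax
          have h2 : 0 ≤ ∑ t ∈ W, q ^ (t₀ - t).toNat :=
            Finset.sum_nonneg fun _ _ => by positivity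
          have hA : 0 ≤ 2 * ((J₀ : ℝ) + 1) * U ^ (2 / 3 : ℝ) := by positivity
          have hV : 0 ≤ U ^ (1 / 12 : ℝ) := Real.rpow_nonneg hU0.le _
          exact mul_le_mul (mul_le_mul_of_nonneg_left hy1 hA) h1 h2 (mul_nonneg hA hV)
      _ = _ := by
          have e : U ^ (3 / 4 : ℝ) = U ^ (2 / 3 : ℝ) * U ^ (1 / 12 : ℝ) := by
            rw [← Real.rpow_add hU0]
            norm_num
          rw [e]
          ring
  have hfin := Real.rpow_le_rpow (Finset.sum_nonneg fun k hk => (hb0 k (hKD hk)).le) hsum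
    (by norm_num : (0:ℝ) ≤ 4 / 3)
  refine hfin.trans (le_of_eq ?_)
  rw [Real.mul_rpow (by positivity) (by positivity), ← Real.rpow_mul hU0.le]
  norm_num

end Pool.Agent.T2H72.DC
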