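import Pool.Agent.T2H72.DC.Stm

set_option autoImplicit false

namespace Pool.Agent.T2H72.DC

open Finset Filter Topology

namespace PkgKL

/-- the hypotheses on the norming set -/
structure Hyp (ι : Type) (Φ : Set (ι → ℝ)) : Prop where
  ne : Φ.Nonempty
  bd : ∀ f ∈ Φ, ∀ i, 0 ≤ f i ∧ f i ≤ 1
  one : ∀ i, ∃ f ∈ Φ, f i = 1

variable {ι : Type} {Φ : Set (ι → ℝ)}

lemma nle_zero (c : ℝ) (hc : 0 ≤ c) : NLe Φ 0 c := by
  intro f _ s
  simpa using hc

lemma nle_add (h : Hyp ι Φ) {u v : ι → ℝ} {a b : ℝ} (hu : NLe Φ u a) (hv : NLe Φ v b) : NLe Φ (u + v) (a + b) := by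
  intro f hf s
  have h1 := hu f hf s
  have h2 := hv f hf s
  refine le_trans ?_ (add_le_add h1 h2)
  rw [← Finset.sum_add_distrib]
  apply Finset.sum_le_sum
  intro i _
  rw [← mul_add]
  exact mul_le_mul_of_nonneg_left (abs_add_le _ _) (h.bd f hf i).1

lemma nle_mono (h : Hyp ι Φ) {u v : ι → ℝ} {c : ℝ} (hv : NLe Φ v c) (huv : ∀ i, |u i| ≤ |v i|) : NLe Φ u c := by
  intro f hf s
  refine le_trans ?_ (hv f hf s)
  apply Finset.sum_le_sum
  intro i _
  exact mul_le_mul_of_nonneg_left (huv i) (h.bd f hf i).1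

lemma nle_le {u : ι → ℝ} {a b : ℝ} (hu : NLe Φ u a) (hab : a ≤ b) : NLe Φ u b :=
  fun f hf s => (hu f hf s).trans hab

lemma nle_smul {u : ι → ℝ} {a : ℝ} (r : ℝ) (hu : NLe Φ u a) : NLe Φ (r • u) (|r| * a) := by
  intro f hf s
  have h1 := mul_le_mul_of_nonneg_left (hu f hf s) (abs_nonneg r)
  refine le_trans (le_of_eq ?_) h1
  rw [Finset.mul_sum]
  apply Finset.sum_congr rfl
  intro i _
  simp only [Pi.smul_apply, smul_eq_mul, abs_mul]
  ring

lemma nle_nonneg (h : Hyp ι Φ) {u : ι → ℝ} {a : ℝ} (hu : NLe Φ u a) : 0 ≤ a := by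
  obtain ⟨f, hf⟩ := h.ne
  simpa using hu f hf ∅

lemma nle_coord (h : Hyp ι Φ) {u : ι → ℝ} {a : ℝ} (hu : NLe Φ u a) (i : ι) : |u i| ≤ a := by
  obtain ⟨f, hf, h1⟩ := h.one i
  simpa [h1] using hu f hf {i}

lemma nle_fin [DecidableEq ι] (h : Hyp ι Φ) (u : ι → ℝ) (s : Finset ι) (hs : ∀ i, i ∉ s → u i = 0) : NLe Φ u (∑ i ∈ s, |u i|) := by
  intro f hf t
  calc ∑ x ∈ t, f x * |u x| ≤ ∑ x ∈ t, |u x| := by
        apply Finset.sum_le_sum
        intro i _
        have := (h.bd f hf i).2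
        nlinarith [abs_nonneg (u i)]
    _ = ∑ x ∈ t with x ∈ s, |u x| := by
        rw [Finset.sum_filter]
        apply Finset.sum_congr rfl
        intro i _
        by_cases hi : i ∈ s
        · simp [hi]
        · simp [hi, hs i hi]
    _ ≤ ∑ i ∈ s, |u i| := by
        apply Finset.sum_le_sum_of_subset_of_nonneg
        · intro i hi
          exact (Finset.mem_filter.mp hi).2
        · intro i _ _
          exact abs_nonneg _

/-- small tails -/
def Tl (Φ : Set (ι → ℝ)) (u : ι → ℝ) : Prop :=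
  ∀ ε > (0 : ℝ), ∃ s : Finset ι, NLe Φ ((↑s : Set ι)ᶜ.indicator u) ε

lemma abs_ind (A : Set ι) (u : ι → ℝ) (i : ι) : |A.indicator u i| = A.indicator (fun i => |u i|) i := by
  by_cases hi : i ∈ A <;> simp [hi]

lemma abs_ind_mono {A B : Set ι} (hAB : A ⊆ B) {u v : ι → ℝ} (huv : ∀ i, |u i| ≤ |v i|) (i : ι) :
    |A.indicator u i| ≤ |B.indicator v i| := by
  rw [abs_ind, abs_ind]
  by_cases hi : i ∈ A
  · simp [hi, hAB hi, huv i]
  · simp only [hi, not_false_eq_true, Set.indicator_of_notMem]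
    exact Set.indicator_nonneg (fun _ _ => abs_nonneg _) i

lemma tl_mono (h : Hyp ι Φ) {u v : ι → ℝ} (hv : Tl Φ v) (huv : ∀ i, |u i| ≤ |v i|) : Tl Φ u := by
  intro ε hε
  obtain ⟨s, hs⟩ := hv ε hε
  exact ⟨s, nle_mono h hs (abs_ind_mono (le_refl _) huv)⟩

lemma tl_add (h : Hyp ι Φ) {u v : ι → ℝ} (hu : Tl Φ u) (hv : Tl Φ v) : Tl Φ (u + v) := by
  classical
  intro ε hε
  obtain ⟨s, hs⟩ := hu (ε / 2) (by linarith)
  obtain ⟨t, ht⟩ := hv (ε / 2) (by linarith)
  refine ⟨s ∪ t, ?_⟩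
  have h1 : NLe Φ ((↑(s ∪ t) : Set ι)ᶜ.indicator u) (ε / 2) :=
    nle_mono h hs (abs_ind_mono (by intro i hi; simp at hi ⊢; exact hi.1) fun _ => le_refl _)
  have h2 : NLe Φ ((↑(s ∪ t) : Set ι)ᶜ.indicator v) (ε / 2) :=
    nle_mono h ht (abs_ind_mono (by intro i hi; simp at hi ⊢; exact hi.2) fun _ => le_refl _)
  have h3 := nle_add h h1 h2
  rw [← Set.indicator_add', add_halves] at h3
  exact h3

lemma tl_smul (h : Hyp ι Φ) {u : ι → ℝ} (r : ℝ) (hu : Tl Φ u) : Tl Φ (r • u) := by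
  intro ε hε
  obtain ⟨s, hs⟩ := hu (ε / (|r| + 1)) (by positivity)
  refine ⟨s, ?_⟩
  have h1 := nle_smul r hs
  have h2 : (↑s : Set ι)ᶜ.indicator (r • u) = r • (↑s : Set ι)ᶜ.indicator u := by
    funext i
    by_cases hi : i ∈ s <;> simp [hi]
  rw [h2]
  refine nle_le h1 ?_
  rw [mul_div_assoc', div_le_iff₀ (by positivity)]
  nlinarith [abs_nonneg r]

lemma tl_fin (u : ι → ℝ) (s : Finset ι) (hs : ∀ i, i ∉ s → u i = 0) : Tl Φ u := by
  intro ε hε
  refine ⟨s, ?_⟩
  have : (↑s : Set ι)ᶜ.indicator u = 0 := by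
    funext i
    by_cases hi : i ∈ s
    · simp [hi]
    · simp [hi, hs i hi]
  rw [this]
  exact nle_zero ε hε.le

lemma tl_bdd (h : Hyp ι Φ) {u : ι → ℝ} (hu : Tl Φ u) : ∃ c, NLe Φ u c := by
  classical
  obtain ⟨s, hs⟩ := hu 1 one_pos
  have h1 : NLe Φ ((↑s : Set ι).indicator u) (∑ i ∈ s, |(↑s : Set ι).indicator u i|) := by
    apply nle_fin h
    intro i hi
    simp [hi]
  have h2 := nle_add h h1 hs
  rw [Set.indicator_self_add_compl] at h2
  exact ⟨_, h2⟩

/-- the submodule -/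
def Esub (h : Hyp ι Φ) : Submodule ℝ (ι → ℝ) where
  carrier := {u | Tl Φ u}
  add_mem' := fun hu hv => tl_add h hu hv
  zero_mem' := tl_fin 0 ∅ fun _ _ => rfl
  smul_mem' := fun r _ hu => tl_smul h r hu

/-- the space -/
def EE (h : Hyp ι Φ) : Type := ↥(Esub h)

variable (h : Hyp ι Φ)

instance : AddCommGroup (EE h) := inferInstanceAs (AddCommGroup ↥(Esub h))

instance : Module ℝ (EE h) := inferInstanceAs (Module ℝ ↥(Esub h))

/-- coordinates -/
def co : EE h →ₗ[ℝ] (ι → ℝ) := (Esub h).subtype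

lemma co_inj : Function.Injective (co h) := Subtype.val_injective

lemma tl_co (x : EE h) : Tl Φ (co h x) := x.2

lemma abs_max_le (a b : ℝ) : |max a b| ≤ |(|a| + |b|)| := by
  rw [abs_of_nonneg (a := |a| + |b|) (by positivity)]
  rcases max_cases a b with ⟨h1, _⟩ | ⟨h1, _⟩ <;> rw [h1]
  · linarith [abs_nonneg b]
  · linarith [abs_nonneg a]

lemma abs_min_le (a b : ℝ) : |min a b| ≤ |(|a| + |b|)| := by
  rw [abs_of_nonneg (a := |a| + |b|) (by positivity)]
  rcases min_cases a b with ⟨h1, _⟩ | ⟨h1, _⟩ <;> rw [h1]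
  · linarith [abs_nonneg b]
  · linarith [abs_nonneg a]

lemma tl_abs (h : Hyp ι Φ) {u : ι → ℝ} (hu : Tl Φ u) : Tl Φ (fun i => |u i|) := tl_mono h hu fun i => by rw [abs_abs]

lemma tl_sup (h : Hyp ι Φ) {u v : ι → ℝ} (hu : Tl Φ u) (hv : Tl Φ v) : Tl Φ (fun i => max (u i) (v i)) :=
  tl_mono h (tl_add h (tl_abs h hu) (tl_abs h hv)) fun i => abs_max_le _ _

lemma tl_inf (h : Hyp ι Φ) {u v : ι → ℝ} (hu : Tl Φ u) (hv : Tl Φ v) : Tl Φ (fun i => min (u i) (v i)) :=
  tl_mono h (tl_add h (tl_abs h hu) (tl_abs h hv)) fun i => abs_min_le _ _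

instance : Lattice (EE h) where
  le x y := ∀ i, co h x i ≤ co h y i
  le_refl x i := le_refl _
  le_trans x y z h1 h2 i := (h1 i).trans (h2 i)
  le_antisymm x y h1 h2 := co_inj h (funext fun i => le_antisymm (h1 i) (h2 i))
  sup x y := (⟨fun i => max (co h x i) (co h y i), tl_sup h (tl_co h x) (tl_co h y)⟩ : ↥(Esub h))
  inf x y := (⟨fun i => min (co h x i) (co h y i), tl_inf h (tl_co h x) (tl_co h y)⟩ : ↥(Esub h))
  le_sup_left x y i := le_max_left _ _
  le_sup_right x y i := le_max_right _ _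
  sup_le x y z h1 h2 i := max_le (h1 i) (h2 i)
  inf_le_left x y i := min_le_left _ _
  inf_le_right x y i := min_le_right _ _
  le_inf x y z h1 h2 i := le_min (h1 i) (h2 i)

lemma le_def (x y : EE h) : x ≤ y ↔ ∀ i, co h x i ≤ co h y i := Iff.rfl

lemma co_sup (x y : EE h) (i : ι) : co h (x ⊔ y) i = max (co h x i) (co h y i) := rfl

lemma co_inf (x y : EE h) (i : ι) : co h (x ⊓ y) i = min (co h x i) (co h y i) := rfl

/-- the norm -/
noncomputable def nm (x : EE h) : ℝ := sInf {c | NLe Φ (co h x) c}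

lemma nm_spec (x : EE h) : NLe Φ (co h x) (nm h x) := by
  intro f hf s
  apply le_csInf (tl_bdd h (tl_co h x))
  intro c hc
  exact hc f hf s

lemma nm_le (x : EE h) (c : ℝ) : nm h x ≤ c ↔ NLe Φ (co h x) c := by
  constructor
  · intro h1
    exact nle_le (nm_spec h x) h1
  · intro h1
    exact csInf_le ⟨0, fun c hc => nle_nonneg h hc⟩ h1

lemma nm_nonneg (x : EE h) : 0 ≤ nm h x := nle_nonneg h (nm_spec h x)

/-- the group norm -/
noncomputable def gn : AddGroupNorm (EE h) where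
  toFun := nm h
  map_zero' := by
    apply le_antisymm _ (nm_nonneg h 0)
    rw [nm_le, map_zero]
    exact nle_zero 0 le_rfl
  add_le' x y := by
    rw [nm_le, map_add]
    exact nle_add h (nm_spec h x) (nm_spec h y)
  neg' x := by
    have key : ∀ y : EE h, nm h (-y) ≤ nm h y := by
      intro y
      rw [nm_le, map_neg]
      exact nle_mono h (nm_spec h y) fun i => by simp
    apply le_antisymm (key x)
    have := key (-x)
    rwa [neg_neg] at this
  eq_zero_of_map_eq_zero' x hx := by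
    apply co_inj h
    rw [map_zero]
    funext i
    have h1 := nle_coord h (nm_spec h x) i
    have h2 : nm h x = 0 := hx
    rw [h2] at h1
    exact abs_nonpos_iff.mp h1

noncomputable instance : NormedAddCommGroup (EE h) := (gn h).toNormedAddCommGroup

lemma norm_le' (x : EE h) (c : ℝ) : ‖x‖ ≤ c ↔ NLe Φ (co h x) c := nm_le h x c

lemma norm_spec (x : EE h) : NLe Φ (co h x) ‖x‖ := nm_spec h x

noncomputable instance : NormedSpace ℝ (EE h) where
  norm_smul_le r x := by
    rw [norm_le', map_smul]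
    exact nle_smul r (norm_spec h x)

instance : IsOrderedAddMonoid (EE h) where
  add_le_add_left x y hxy z := by
    intro i
    simp only [map_add, Pi.add_apply]
    exact add_le_add_left (hxy i) _

instance : PosSMulMono ℝ (EE h) where
  smul_le_smul_of_nonneg_left r hr x y hxy := by
    intro i
    simp only [map_smul, Pi.smul_apply, smul_eq_mul]
    exact mul_le_mul_of_nonneg_left (hxy i) hr

lemma co_abs (x : EE h) (i : ι) : co h |x| i = |co h x i| := by
  show co h (x ⊔ -x) i = _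
  rw [co_sup, map_neg, Pi.neg_apply, abs_eq_max_neg]

instance : HasSolidNorm (EE h) where
  solid x y hxy := by
    rw [norm_le']
    refine nle_mono h (norm_spec h y) fun i => ?_
    have := hxy i
    rwa [co_abs, co_abs] at this

instance : CompleteSpace (EE h) := by
  apply Metric.complete_of_cauchySeq_tendsto
  intro u hu
  rw [Metric.cauchySeq_iff] at hu
  have hco : ∀ i, ∃ a, Tendsto (fun n => co h (u n) i) atTop (𝓝 a) := by
    intro i
    apply cauchySeq_tendsto_of_complete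
    rw [Metric.cauchySeq_iff]
    intro ε hε
    obtain ⟨N, hN⟩ := hu ε hε
    refine ⟨N, fun m hm n hn => lt_of_le_of_lt ?_ (hN m hm n hn)⟩
    rw [dist_eq_norm, dist_eq_norm, Real.norm_eq_abs]
    have := nle_coord h (norm_spec h (u m - u n)) i
    rwa [map_sub, Pi.sub_apply] at this
  choose v hv using hco
  have hlim : ∀ ε > (0 : ℝ), ∃ N, ∀ n ≥ N, NLe Φ (co h (u n) - v) ε := by
    intro ε hε
    obtain ⟨N, hN⟩ := hu ε hε
    refine ⟨N, fun n hn f hf s => ?_⟩
    have h1 : Tendsto (fun m => ∑ i ∈ s, f i * |co h (u n) i - co h (u m) i|) atTop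
        (𝓝 (∑ i ∈ s, f i * |co h (u n) i - v i|)) := by
      apply tendsto_finsetSum
      intro i _
      exact (((tendsto_const_nhds).sub (hv i)).abs).const_mul _
    apply le_of_tendsto h1
    filter_upwards [eventually_ge_atTop N] with m hm
    have h2 := norm_spec h (u n - u m) f hf s
    rw [map_sub] at h2
    refine h2.trans ?_
    have := hN n hn m hm
    rw [dist_eq_norm] at this
    exact this.le
  have hvt : Tl Φ v := by
    intro ε hε
    obtain ⟨N, hN⟩ := hlim (ε / 2) (by linarith)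
    obtain ⟨s, hs⟩ := tl_co h (u N) (ε / 2) (by linarith)
    refine ⟨s, ?_⟩
    have h1 : NLe Φ ((↑s : Set ι)ᶜ.indicator (-(co h (u N) - v))) (ε / 2) := by
      refine nle_mono h (hN N le_rfl) fun i => ?_
      rw [abs_ind]
      refine (Set.indicator_le_self' (fun _ _ => abs_nonneg _) i).trans ?_
      rw [Pi.neg_apply, abs_neg]
    have h2 := nle_add h hs h1
    rw [← Set.indicator_add', add_halves] at h2
    have h3 : co h (u N) + -(co h (u N) - v) = v := by
      funext i; simp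
    rwa [h3] at h2
  let w : EE h := (⟨v, hvt⟩ : ↥(Esub h))
  have hw : co h w = v := rfl
  refine ⟨w, ?_⟩
  rw [Metric.tendsto_atTop]
  intro ε hε
  obtain ⟨N, hN⟩ := hlim (ε / 2) (by linarith)
  refine ⟨N, fun n hn => ?_⟩
  rw [dist_eq_norm]
  refine lt_of_le_of_lt ?_ (by linarith : ε / 2 < ε)
  rw [norm_le', map_sub, hw]
  exact hN n hn

/-- finitely supported functions with rational values -/
noncomputable def ratf (q : ι →₀ ℚ) : EE h :=
  (⟨fun i => (q i : ℝ), tl_fin _ q.support fun i hi => by simp [Finsupp.notMem_support_iff.mp hi]⟩ : ↥(Esub h))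

lemma co_ratf (q : ι →₀ ℚ) (i : ι) : co h (ratf h q) i = (q i : ℝ) := rfl

instance [Countable ι] : TopologicalSpace.SeparableSpace (EE h) := by
  classical
  refine ⟨⟨Set.range (ratf h), Set.countable_range _, ?_⟩⟩
  rw [Metric.dense_iff]
  intro x ε hε
  obtain ⟨s, hs⟩ := tl_co h x (ε / 3) (by linarith)
  have hδ : 0 < ε / (3 * (s.card + 1)) := by positivity
  choose q hq using fun i => exists_rat_near (co h x i) hδ
  let Q : ι →₀ ℚ := Finsupp.onFinset s (fun i => if i ∈ s then q i else 0) (by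
    intro i hi
    by_contra h1
    simp [h1] at hi)
  have hQ : ∀ i, Q i = if i ∈ s then q i else 0 := fun i => rfl
  refine ⟨ratf h Q, ?_, ⟨Q, rfl⟩⟩
  rw [Metric.mem_ball, dist_comm, dist_eq_norm]
  have h1 : NLe Φ (co h (x - ratf h Q)) (ε / 3 + ε / 3) := by
    have h2 : co h (x - ratf h Q) = (↑s : Set ι)ᶜ.indicator (co h x) + (↑s : Set ι).indicator (fun i => co h x i - q i) := by
      funext i
      rw [map_sub, Pi.sub_apply, co_ratf, hQ, Pi.add_apply]
      by_cases hi : i ∈ s <;> simp [hi]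
    rw [h2]
    apply nle_add h hs
    refine nle_le (nle_fin h _ s ?_) ?_
    · intro i hi
      simp [hi]
    · calc ∑ i ∈ s, |(↑s : Set ι).indicator (fun i => co h x i - q i) i| ≤ ∑ i ∈ s, ε / (3 * (s.card + 1)) := by
            apply Finset.sum_le_sum
            intro i hi
            simp only [Finset.mem_coe, hi, Set.indicator_of_mem]
            exact (hq i).le
        _ = s.card * (ε / (3 * (s.card + 1))) := by rw [Finset.sum_const, nsmul_eq_mul]
        _ ≤ ε / 3 := by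
            rw [mul_div_assoc', div_le_div_iff₀ (by positivity) (by norm_num)]
            nlinarith
  have h3 := (norm_le' h _ _).mpr h1
  linarith

end PkgKL

open PkgKL in
theorem pKL : S_KL := by
  intro ι _ Φ h1 h2 h3
  have h : Hyp ι Φ := ⟨h1, h2, h3⟩
  exact ⟨{
    E := EE h
    toFun := co h
    inj := co_inj h
    map_sup := fun x y i => co_sup h x y i
    map_inf := fun x y i => co_inf h x y i
    norm_le := fun x c => norm_le' h x c
    fin_supp := fun u hu => by
      refine ⟨(⟨u, tl_fin u hu.toFinset fun i hi => ?_⟩ : ↥(Esub h)), rfl⟩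
      simpa using hi
    tail := fun x => tl_co h x }⟩

end Pool.Agent.T2H72.DC
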