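import Pool.Agent.T2H72.DC.Stm

set_option autoImplicit false

namespace Pool.Agent.T2H72.DC

open Finset

theorem pLOW (hA : S_CA) (hB : S_CB) (hG : S_PG) : S_LOW := by
  intro S T hT u f c hc hf h
  by_cases hcase : ∀ ε : ℝ, 0 < ε → ∀ N : ℕ, ∃ k, N ≤ k ∧
      c / 2 ≤ ∑ x ∈ (T k).filter (fun x => f k x ≤ ε), f k x * |u k x|
  · exact hA S T hT u f (c / 2) (by positivity) hf hcase
  · push Not at hcase
    obtain ⟨ε, hε, N, hN⟩ := hcase
    have h1 : ∀ k, N ≤ k → c / 2 ≤ ∑ x ∈ (T k).filter (fun x => ε < f k x), f k x * |u k x| := by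
      intro k hk
      have h2 := hN k hk
      have h3 := h k
      have h4 : ∑ x ∈ T k, f k x * |u k x| =
          ∑ x ∈ (T k).filter (fun x => f k x ≤ ε), f k x * |u k x| +
          ∑ x ∈ (T k).filter (fun x => ε < f k x), f k x * |u k x| := by
        rw [← Finset.sum_filter_add_sum_filter_not (T k) (fun x => f k x ≤ ε)]
        congr 1
        apply Finset.sum_congr _ fun _ _ => rfl
        ext x
        simp only [Finset.mem_filter, not_le]
      linarith
    have h5 : ∀ k, ∃ n : ℕ, c / 2 * ε ^ (4 / 3 : ℝ) ≤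
        ∑ x ∈ (T (k + N)).filter (fun x => x.1 = n), |u (k + N) x| := fun k =>
      hG S (f (k + N)) (hf _) (T (k + N)) (u (k + N)) ε (c / 2) hε (by positivity)
        (h1 _ (Nat.le_add_left _ _))
    choose n hn using h5
    obtain ⟨φ, hφ, hDL⟩ := hB S (fun k => T (k + N)) (fun i j hij => hT _ _ (by omega))
      (fun k => u (k + N)) n (c / 2 * ε ^ (4 / 3 : ℝ)) (by positivity) hn
    exact ⟨fun k => φ k + N, fun i j hij => Nat.add_lt_add_right (hφ hij) N, hDL⟩

end Pool.Agent.T2H72.DC
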