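import Pool.Agent.T2H72.DC.Stm

set_option autoImplicit false

namespace Pool.Agent.T2H72.DC

open Finset Filter

theorem abs_coord_le {S : Sys} (M : Model S.X S.Phi) (z : M.E) (y : S.X) :
    |M.toFun z y| ≤ ‖z‖ := by
  have h := (M.norm_le z ‖z‖).1 le_rfl _ (lvl_mem_Phi y.1) {y}
  simpa using h

/-- The coordinate functionals. -/
noncomputable def coordL {S : Sys} (M : Model S.X S.Phi) (y : S.X) : M.E →L[ℝ] ℝ :=
  LinearMap.mkContinuous ((LinearMap.proj y).comp M.toFun) 1 (fun z => by
    rw [one_mul]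
    exact abs_coord_le M z y)

theorem coordL_apply {S : Sys} (M : Model S.X S.Phi) (y : S.X) (z : M.E) :
    coordL M y z = M.toFun z y := rfl

theorem pNC (hF : S_FC) (h1 : S_NC1) (h2 : S_NC2) : S_NC := by
  intro S M x hx φ hφ hcompl
  obtain ⟨p, hp⟩ := hcompl
  let K : Submodule ℝ M.E := (Submodule.span ℝ (Set.range (x ∘ φ))).topologicalClosure
  have hconst : ∀ z ∈ K, ∀ y y' : S.X, y.1 = y'.1 → M.toFun z y = M.toFun z y' := by
    intro z hz y y' hyy
    have hker : K ≤ LinearMap.ker ((coordL M y - coordL M y' : M.E →L[ℝ] ℝ) : M.E →ₗ[ℝ] ℝ) := by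
      apply Submodule.topologicalClosure_minimal
      · rw [Submodule.span_le]
        rintro _ ⟨k, rfl⟩
        simp only [SetLike.mem_coe, LinearMap.mem_ker, ContinuousLinearMap.coe_coe,
          ContinuousLinearMap.coe_sub', Pi.sub_apply, coordL_apply, Function.comp_apply]
        rw [hx, hx, hyy, sub_self]
      · exact (coordL M y - coordL M y').isClosed_ker
    have := hker hz
    simp only [LinearMap.mem_ker, ContinuousLinearMap.coe_coe,
      ContinuousLinearMap.coe_sub', Pi.sub_apply, coordL_apply] at this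
    linarith
  have hmem : ∀ k, x (φ k) ∈ K := fun k =>
    Submodule.le_topologicalClosure _ (Submodule.subset_span ⟨k, rfl⟩)
  obtain ⟨C, hC, B, hBs, hBd, hB⟩ := h1 S M x hx (K.subtypeL.comp p) (Set.range φ)
    (by
      rintro _ ⟨k, rfl⟩
      have := hp ⟨x (φ k), hmem k⟩
      simp only [ContinuousLinearMap.comp_apply, Submodule.subtypeL_apply]
      exact congrArg Subtype.val this)
    (by
      intro z y y' hyy
      simp only [ContinuousLinearMap.comp_apply, Submodule.subtypeL_apply]
      exact hconst _ (p z).2 y y' hyy)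
  obtain ⟨ψ, hψ, c, hc, hgrow⟩ := h2 S φ hφ
  have key : ∀ J : ℕ, c * (J : ℝ) ^ (1 / 4 : ℝ) ≤ C := by
    intro J
    obtain ⟨F, hFc, hFJ, hFm⟩ := hF S J (1 / C) (by positivity) (Set.range (φ ∘ ψ))
      (Set.infinite_range_of_injective (hφ.comp hψ).injective) B hBs (by
        rintro _ ⟨k, rfl⟩
        have := hBd (φ (ψ k)) ⟨ψ k, rfl⟩
        rw [one_div, inv_mul_le_iff₀ hC]
        exact this)
    have hcard : (F.image (fun w => w.1)).card = J := by
      rw [Finset.card_image_of_injOn, hFJ]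
      intro a ha b hb hab
      exact hFc.1 a ha b hb hab
    have hL : ∀ n, n ∈ F.image (fun w => w.1) ↔ ∃ w ∈ F, w.1 = n := fun n => by
      rw [Finset.mem_image]
    have := hgrow (F.image (fun w => w.1)) C (by
        intro n hn
        obtain ⟨w, hw, rfl⟩ := (hL n).1 hn
        obtain ⟨k, hk⟩ := (hFm w hw).1
        exact ⟨k, hk⟩)
      (hB F hFc (fun w hw => (hFm w hw).2) _ hL)
    rwa [hcard] at this
  have ht : Tendsto (fun J : ℕ => c * (J : ℝ) ^ (1 / 4 : ℝ)) atTop atTop :=
    Tendsto.const_mul_atTop hc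
      ((tendsto_rpow_atTop (by norm_num)).comp tendsto_natCast_atTop_atTop)
  obtain ⟨J, hJ⟩ := (ht.eventually (eventually_gt_atTop C)).exists
  exact absurd (key J) (not_le.mpr hJ)

end Pool.Agent.T2H72.DC
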