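import Pool.Agent.T2H72.DC.Stm

set_option autoImplicit false

namespace Pool.Agent.T2H72.DC

open Finset

/-- Averaging over signs: if all quadratic sums with signs are `≤ C`, then the trace is `≤ C`. -/
theorem nc1_trace {ι : Type} [DecidableEq ι] (A : ι → ι → ℝ) (F : Finset ι) : ∀ C : ℝ,
    (∀ ε : ι → ℝ, (∀ i, ε i = 1 ∨ ε i = -1) → ∑ i ∈ F, ∑ j ∈ F, ε i * ε j * A i j ≤ C) →
    ∑ i ∈ F, A i i ≤ C := by
  induction F using Finset.induction_on with
  | empty =>
    intro C h
    have := h (fun _ => 1) (fun _ => Or.inl rfl)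
    simpa using this
  | insert a F ha ih =>
    intro C h
    rw [Finset.sum_insert ha]
    have h1 : ∑ i ∈ F, A i i ≤ C - A a a := by
      apply ih
      intro ε hε
      have key : ∀ t : ℝ, (t = 1 ∨ t = -1) →
          t * t * A a a + ∑ j ∈ F, t * ε j * A a j +
            (∑ i ∈ F, ε i * t * A i a + ∑ i ∈ F, ∑ j ∈ F, ε i * ε j * A i j) ≤ C := by
        intro t ht
        have h2 := h (Function.update ε a t) (fun i => by
          by_cases hi : i = a
          · subst hi
            rw [Function.update_self]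
            exact ht
          · rw [Function.update_of_ne hi]
            exact hε i)
        have hne : ∀ i ∈ F, Function.update ε a t i = ε i := fun i hi =>
          Function.update_of_ne (fun h' : i = a => ha (h' ▸ hi)) _ _
        rw [Finset.sum_insert ha, Finset.sum_insert ha, Function.update_self] at h2
        refine le_trans (le_of_eq ?_) h2
        congr 1
        · congr 1
          refine Finset.sum_congr rfl fun j hj => ?_
          rw [hne j hj]
        · rw [← Finset.sum_add_distrib]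
          refine Finset.sum_congr rfl fun i hi => ?_
          rw [Finset.sum_insert ha, Function.update_self, hne i hi]
          congr 1
          refine Finset.sum_congr rfl fun j hj => ?_
          rw [hne j hj]
      have k1 := key 1 (Or.inl rfl)
      have k2 := key (-1) (Or.inr rfl)
      have e1 : ∑ j ∈ F, (-1 : ℝ) * ε j * A a j = -∑ j ∈ F, 1 * ε j * A a j := by
        rw [← Finset.sum_neg_distrib]
        exact Finset.sum_congr rfl fun j _ => by ring
      have e2 : ∑ i ∈ F, ε i * (-1 : ℝ) * A i a = -∑ i ∈ F, ε i * 1 * A i a := by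
        rw [← Finset.sum_neg_distrib]
        exact Finset.sum_congr rfl fun j _ => by ring
      rw [e1, e2] at k2
      linarith
    linarith

/-- swapping the sums over a coherent set and over the nodes of the same level -/
theorem nc1_swap {S : Sys} (F s : Finset S.X) (h : S.X → ℝ) :
    ∑ w ∈ F, ∑ x ∈ s.filter (fun x => x.1 = w.1), h x =
      ∑ x ∈ s, ((F.filter (fun w => x.1 = w.1)).card : ℝ) * h x := by
  simp_rw [Finset.sum_filter]
  rw [Finset.sum_comm]
  refine Finset.sum_congr rfl fun x _ => ?_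
  rw [← Finset.sum_filter, Finset.sum_const, nsmul_eq_mul]

theorem pNC1 : S_NC1 := by
  classical
  intro S M x hx P σ hPσ hconst
  obtain ⟨C₀, hC₀⟩ : ∃ C₀ : ℝ, C₀ = max 1 ‖P‖ := ⟨_, rfl⟩
  have hC1 : 1 ≤ C₀ := hC₀ ▸ le_max_left _ _
  have hCP : ‖P‖ ≤ C₀ := hC₀ ▸ le_max_right _ _
  have hPb : ∀ z : M.E, ‖z‖ ≤ 1 → ‖P z‖ ≤ C₀ := by
    intro z hz
    calc ‖P z‖ ≤ ‖P‖ * ‖z‖ := P.le_opNorm z
      _ ≤ ‖P‖ * 1 := mul_le_mul_of_nonneg_left hz (norm_nonneg _)
      _ ≤ C₀ := by rw [mul_one]; exact hCP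
  have he : ∀ w : S.X, ∃ e : M.E, M.toFun e = fun y => if y = w then (1 : ℝ) else 0 := by
    intro w
    apply M.fin_supp
    refine (Set.finite_singleton w).subset ?_
    intro y hy
    rw [Function.mem_support] at hy
    by_contra hne
    exact hy (if_neg hne)
  choose e he using he
  have hcp : ∀ n, (0 : ℝ) < ((S.lvl n).card : ℝ) := fun n => by exact_mod_cast card_lvl_pos n
  -- signed sums
  have hy : ∀ F, S.Coh F → ∀ ε : S.X → ℝ, (∀ i, ε i = 1 ∨ ε i = -1) → ‖∑ w ∈ F, ε w • e w‖ ≤ 1 := by
    intro F hF ε hε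
    rw [M.norm_le]
    intro f hf s
    have h1 : ∀ y, |M.toFun (∑ w ∈ F, ε w • e w) y| = if y ∈ F then 1 else 0 := by
      intro y
      rw [map_sum, Finset.sum_apply]
      have h2 : ∀ w ∈ F, M.toFun (ε w • e w) y = if y = w then ε w else 0 := by
        intro w _
        rw [map_smul, he]
        simp
      rw [Finset.sum_congr rfl h2, Finset.sum_ite_eq]
      split_ifs
      · rcases hε y with h | h <;> rw [h] <;> norm_num
      · exact abs_zero
    calc ∑ y ∈ s, f y * |M.toFun (∑ w ∈ F, ε w • e w) y| = ∑ y ∈ s, if y ∈ F then f y else 0 := by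
          refine Finset.sum_congr rfl fun y _ => ?_
          rw [h1]
          split_ifs <;> simp
      _ = ∑ y ∈ s.filter (fun y => y ∈ F), f y := by rw [Finset.sum_filter]
      _ ≤ ∑ y ∈ F, f y := by
          apply Finset.sum_le_sum_of_subset_of_nonneg
          · intro y hy
            exact (Finset.mem_filter.1 hy).2
          · intro y _ _
            exact hf.1 y
      _ ≤ 1 := Phi.sum_le_one hf hF
  have he1 : ∀ w, ‖e w‖ ≤ 1 := by
    intro w
    have := hy {w} (coh_single w) (fun _ => 1) (fun _ => Or.inl rfl)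
    simpa using this
  have hlev : ∀ z : M.E, ∀ y : S.X, ((S.lvl y.1).card : ℝ) * |M.toFun (P z) y| ≤ ‖P z‖ := by
    intro z y
    have h := (M.norm_le (P z) ‖P z‖).1 le_rfl _ (lvl_mem_Phi y.1) (S.lvl y.1)
    refine le_trans (le_of_eq ?_) h
    rw [← nsmul_eq_mul, ← Finset.sum_const]
    refine Finset.sum_congr rfl fun y' hy' => ?_
    rw [if_pos (mem_lvl.1 hy'), one_mul, hconst z y' y (mem_lvl.1 hy')]
  let q : S.X → ℝ := fun w => ((S.lvl w.1).card : ℝ) * M.toFun (P (e w)) w
  have hq : ∀ w, q w ≤ C₀ := by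
    intro w
    refine le_trans ?_ (hPb (e w) (he1 w))
    refine le_trans ?_ (hlev (e w) w)
    exact mul_le_mul_of_nonneg_left (le_abs_self _) (hcp _).le
  have hqs : ∀ n ∈ σ, ∑ w ∈ S.lvl n, q w = ((S.lvl n).card : ℝ) := by
    intro n hn
    have hxe : x n = ((S.lvl n).card : ℝ)⁻¹ • ∑ w ∈ S.lvl n, e w := by
      apply M.inj
      funext y
      rw [hx, map_smul, map_sum, Pi.smul_apply, Finset.sum_apply, smul_eq_mul]
      have h2 : ∀ w ∈ S.lvl n, M.toFun (e w) y = if y = w then (1 : ℝ) else 0 := by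
        intro w _
        rw [he]
      rw [Finset.sum_congr rfl h2, Finset.sum_ite_eq]
      by_cases hyn : y.1 = n
      · rw [if_pos hyn, if_pos (mem_lvl.2 hyn), mul_one, one_div]
      · rw [if_neg hyn, if_neg (fun h' => hyn (mem_lvl.1 h')), mul_zero]
    obtain ⟨w₀, hw₀⟩ : (S.lvl n).Nonempty := Finset.card_pos.1 (card_lvl_pos n)
    have h1 : M.toFun (P (x n)) w₀ = 1 / ((S.lvl n).card : ℝ) := by
      rw [hPσ n hn, hx, if_pos (mem_lvl.1 hw₀)]
    rw [hxe, map_smul, map_sum, map_smul, map_sum, Pi.smul_apply, Finset.sum_apply, smul_eq_mul,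
      one_div] at h1
    have h2 : ∑ w ∈ S.lvl n, M.toFun (P (e w)) w₀ = 1 := by
      have h3 := (hcp n).ne'
      field_simp at h1
      exact h1
    calc ∑ w ∈ S.lvl n, q w = ∑ w ∈ S.lvl n, ((S.lvl n).card : ℝ) * M.toFun (P (e w)) w₀ := by
          refine Finset.sum_congr rfl fun w hw => ?_
          simp only [q]
          rw [mem_lvl.1 hw, hconst (e w) w w₀ ((mem_lvl.1 hw).trans (mem_lvl.1 hw₀).symm)]
      _ = _ := by rw [← Finset.mul_sum, h2, mul_one]
  refine ⟨2 * C₀, by linarith, fun n => (S.lvl n).filter (fun w => 1 / 2 ≤ q w),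
    fun n => Finset.filter_subset _ _, ?_, ?_⟩
  · intro n hn
    have h1 := hqs n hn
    rw [← Finset.sum_filter_add_sum_filter_not (S.lvl n) (fun w => 1 / 2 ≤ q w)] at h1
    have h2 : ∑ w ∈ (S.lvl n).filter (fun w => 1 / 2 ≤ q w), q w ≤
        (((S.lvl n).filter (fun w => 1 / 2 ≤ q w)).card : ℝ) * C₀ := by
      rw [← nsmul_eq_mul, ← Finset.sum_const]
      exact Finset.sum_le_sum fun w _ => hq w
    have h3 : ∑ w ∈ (S.lvl n).filter (fun w => ¬ 1 / 2 ≤ q w), q w ≤ ((S.lvl n).card : ℝ) * (1 / 2) := by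
      calc _ ≤ ∑ w ∈ (S.lvl n).filter (fun w => ¬ 1 / 2 ≤ q w), (1 / 2 : ℝ) :=
            Finset.sum_le_sum fun w hw => (not_le.1 (Finset.mem_filter.1 hw).2).le
        _ = (((S.lvl n).filter (fun w => ¬ 1 / 2 ≤ q w)).card : ℝ) * (1 / 2) := by
            rw [Finset.sum_const, nsmul_eq_mul]
        _ ≤ _ := by
            apply mul_le_mul_of_nonneg_right _ (by norm_num)
            exact_mod_cast Finset.card_le_card (Finset.filter_subset _ _)
    linarith
  · intro F hF hFB L hL f hf s
    let A : S.X → S.X → ℝ := fun w w' => ∑ y ∈ s.filter (fun y => y.1 = w.1), f y * M.toFun (P (e w')) y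
    have hcard1 : ∀ y : S.X, (F.filter (fun w => y.1 = w.1)).card ≤ 1 := by
      intro y
      rw [Finset.card_le_one]
      intro w hw w' hw'
      rw [Finset.mem_filter] at hw hw'
      exact hF.1 w hw.1 w' hw'.1 (hw.2.symm.trans hw'.2)
    have htr : ∑ w ∈ F, A w w ≤ C₀ := by
      apply nc1_trace A F C₀
      intro ε hε
      have h1 : ∀ w ∈ F, ∑ w' ∈ F, ε w * ε w' * A w w' =
          ∑ y ∈ s.filter (fun y => y.1 = w.1), f y * (ε w * M.toFun (P (∑ w' ∈ F, ε w' • e w')) y) := by
        intro w _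
        simp only [A]
        have h2 : ∀ y, M.toFun (P (∑ w' ∈ F, ε w' • e w')) y = ∑ w' ∈ F, ε w' * M.toFun (P (e w')) y := by
          intro y
          rw [map_sum, map_sum, Finset.sum_apply]
          refine Finset.sum_congr rfl fun w' _ => ?_
          rw [map_smul, map_smul, Pi.smul_apply, smul_eq_mul]
        simp_rw [h2, Finset.mul_sum]
        rw [Finset.sum_comm]
        refine Finset.sum_congr rfl fun y _ => Finset.sum_congr rfl fun w' _ => ?_
        ring
      rw [Finset.sum_congr rfl h1]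
      have h3 : ∀ w ∈ F, ∑ y ∈ s.filter (fun y => y.1 = w.1),
          f y * (ε w * M.toFun (P (∑ w' ∈ F, ε w' • e w')) y) ≤
          ∑ y ∈ s.filter (fun y => y.1 = w.1), f y * |M.toFun (P (∑ w' ∈ F, ε w' • e w')) y| := by
        intro w _
        refine Finset.sum_le_sum fun y _ => mul_le_mul_of_nonneg_left ?_ (hf.1 y)
        rcases hε w with h | h
        · rw [h, one_mul]
          exact le_abs_self _
        · rw [h, neg_one_mul]
          exact neg_le_abs _
      refine (Finset.sum_le_sum h3).trans ?_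
      rw [nc1_swap F s]
      refine le_trans ?_ (hPb _ (hy F hF ε hε))
      refine le_trans ?_ ((M.norm_le _ _).1 le_rfl f hf s)
      refine Finset.sum_le_sum fun y _ => ?_
      apply mul_le_of_le_one_left (mul_nonneg (hf.1 y) (abs_nonneg _))
      exact_mod_cast hcard1 y
    have hlow : ∀ w ∈ F, ∑ y ∈ s.filter (fun y => y.1 = w.1), f y * (1 / (2 * ((S.lvl y.1).card : ℝ))) ≤
        A w w := by
      intro w hw
      refine Finset.sum_le_sum fun y hy => mul_le_mul_of_nonneg_left ?_ (hf.1 y)
      rw [Finset.mem_filter] at hy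
      have h1 : 1 / 2 ≤ q w := (Finset.mem_filter.1 (hFB w hw)).2
      rw [hconst (e w) y w hy.2, hy.2]
      simp only [q] at h1
      rw [div_le_iff₀ (by have := hcp w.1; positivity)]
      linarith
    have h2 := (Finset.sum_le_sum hlow).trans htr
    rw [nc1_swap F s] at h2
    have h3 : ∀ y ∈ s, f y * |if y.1 ∈ L then 1 / ((S.lvl y.1).card : ℝ) else 0| ≤
        2 * (((F.filter (fun w => y.1 = w.1)).card : ℝ) * (f y * (1 / (2 * ((S.lvl y.1).card : ℝ))))) := by
      intro y _
      have hc := hcp y.1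
      by_cases hy : y.1 ∈ L
      · rw [if_pos hy, abs_of_nonneg (by positivity)]
        obtain ⟨w, hw, hwy⟩ := (hL y.1).1 hy
        have h4 : (1 : ℝ) ≤ ((F.filter (fun w => y.1 = w.1)).card : ℝ) := by
          exact_mod_cast Finset.card_pos.2 ⟨w, Finset.mem_filter.2 ⟨hw, hwy.symm⟩⟩
        have h5 : 0 ≤ f y * (1 / (2 * ((S.lvl y.1).card : ℝ))) :=
          mul_nonneg (hf.1 y) (by positivity)
        calc f y * (1 / ((S.lvl y.1).card : ℝ)) = 2 * (1 * (f y * (1 / (2 * ((S.lvl y.1).card : ℝ))))) := by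
              field_simp
          _ ≤ _ := by
              apply mul_le_mul_of_nonneg_left _ (by norm_num)
              exact mul_le_mul_of_nonneg_right h4 h5
      · rw [if_neg hy, abs_zero, mul_zero]
        have h5 : 0 ≤ f y * (1 / (2 * ((S.lvl y.1).card : ℝ))) :=
          mul_nonneg (hf.1 y) (by positivity)
        positivity
    refine (Finset.sum_le_sum h3).trans ?_
    rw [← Finset.mul_sum]
    linarith

end Pool.Agent.T2H72.DC
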