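import Pool.Agent.T2H72.DC.Stm

set_option autoImplicit false

namespace Pool.Agent.T2H72.DC

open Finset

theorem pNC2 (hL : S_LOW) : S_NC2 := by
  classical
  intro S m hm
  let T : ℕ → Finset S.X := fun k => S.lvl (m k)
  let u : ℕ → S.X → ℝ := fun k y => if y.1 = m k then 1 / ((S.lvl (m k)).card : ℝ) else 0
  have hcp : ∀ n, (0 : ℝ) < ((S.lvl n).card : ℝ) := fun n => by exact_mod_cast card_lvl_pos n
  have hT : S.Blk T := by
    intro i j hij x hx y hy
    rw [mem_lvl.1 hx, mem_lvl.1 hy]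
    exact hm hij
  obtain ⟨ψ, hψ, c, hc, C, hC, hDL⟩ := hL S T hT u
    (fun k y => if y.1 = m k then (1 : ℝ) else 0) 1 one_pos (fun k => lvl_mem_Phi (m k)) (by
      intro k
      have h1 : ∀ x ∈ T k, (if x.1 = m k then (1 : ℝ) else 0) * |u k x| =
          1 / ((S.lvl (m k)).card : ℝ) := by
        intro x hx
        simp only [u]
        rw [if_pos (mem_lvl.1 hx), if_pos (mem_lvl.1 hx), one_mul,
          abs_of_nonneg (by have := hcp (m k); positivity)]
      rw [Finset.sum_congr rfl h1, Finset.sum_const, nsmul_eq_mul, mul_one_div]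
      exact le_of_eq (div_self (hcp (m k)).ne').symm)
  refine ⟨ψ, hψ, c * C ^ (-(3 / 4) : ℝ), by positivity, fun L M hLm hNLe => ?_⟩
  by_cases hL0 : L = ∅
  · subst hL0
    rw [Finset.card_empty, Nat.cast_zero, Real.zero_rpow (by norm_num), mul_zero]
    have := hNLe _ zero_mem_Phi ∅
    simpa using this
  -- indices
  have hinj : StrictMono (m ∘ ψ) := hm.comp hψ
  let b : ℕ → ℝ := fun k => if m (ψ k) ∈ L then 1 else 0
  have hb : ∀ k, 0 ≤ b k := fun k => by simp only [b]; split_ifs <;> norm_num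
  choose! κ hκ using hLm
  let N : ℕ := L.sup κ + 1
  have hN : ∀ n ∈ L, κ n < N := fun n hn => Nat.lt_succ_of_le (Finset.le_sup hn)
  let K : Finset ℕ := (Finset.range N).filter (fun k => m (ψ k) ∈ L)
  have hKL : K.image (fun k => m (ψ k)) = L := by
    ext n
    rw [Finset.mem_image]
    constructor
    · rintro ⟨k, hk, rfl⟩
      exact (Finset.mem_filter.1 hk).2
    · intro hn
      exact ⟨κ n, Finset.mem_filter.2 ⟨Finset.mem_range.2 (hN n hn), by rw [hκ n hn]; exact hn⟩, hκ n hn⟩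
  have hKc : K.card = L.card := by
    rw [← Finset.card_image_of_injective K hinj.injective]
    exact congrArg Finset.card hKL
  obtain ⟨g, hg0, hg1, hg2, hg3⟩ := hDL b hb N
  have hsumb : ∑ k ∈ Finset.range N, (b k) ^ (4 / 3 : ℝ) = (L.card : ℝ) := by
    have h1 : ∀ k ∈ Finset.range N, (b k) ^ (4 / 3 : ℝ) = if m (ψ k) ∈ L then 1 else 0 := by
      intro k _
      simp only [b]
      split_ifs
      · exact Real.one_rpow _
      · exact Real.zero_rpow (by norm_num)
    rw [Finset.sum_congr rfl h1, Finset.sum_boole, ← hKc]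
  rw [hsumb] at hg3
  have hLpos : (0 : ℝ) < (L.card : ℝ) := by
    exact_mod_cast Finset.card_pos.2 (Finset.nonempty_iff_ne_empty.2 hL0)
  have hG0 : ∀ x, 0 ≤ ∑ k ∈ Finset.range N, b k * g k x := fun x =>
    Finset.sum_nonneg fun k _ => mul_nonneg (hb k) (hg0 k x)
  have hPhi := Bd.normalize hG0 hg3 (mul_pos hC hLpos)
  let s : Finset S.X := K.biUnion (fun k => T (ψ k))
  have h1 := hNLe _ hPhi s
  have hdisj : Set.PairwiseDisjoint (↑K : Set ℕ) (fun k => T (ψ k)) := by
    intro i _ j _ hij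
    rw [Function.onFun, Finset.disjoint_left]
    intro x hx hx'
    have e1 := mem_lvl.1 hx
    have e2 := mem_lvl.1 hx'
    exact hij (hinj.injective (e1.symm.trans e2))
  rw [Finset.sum_biUnion hdisj] at h1
  have h2 : ∀ k ∈ K, (C * (L.card : ℝ)) ^ (-(3 / 4) : ℝ) * c ≤
      ∑ x ∈ T (ψ k), (C * (L.card : ℝ)) ^ (-(3 / 4) : ℝ) * (∑ k' ∈ Finset.range N, b k' * g k' x) *
        |if x.1 ∈ L then 1 / ((S.lvl x.1).card : ℝ) else 0| := by
    intro k hk
    have hk' := Finset.mem_filter.1 hk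
    have h3 := hg2 k (Finset.mem_range.1 hk'.1)
    have h4 : ∀ x ∈ T (ψ k), (C * (L.card : ℝ)) ^ (-(3 / 4) : ℝ) * (g k x * |(u ∘ ψ) k x|) ≤
        (C * (L.card : ℝ)) ^ (-(3 / 4) : ℝ) * (∑ k' ∈ Finset.range N, b k' * g k' x) *
        |if x.1 ∈ L then 1 / ((S.lvl x.1).card : ℝ) else 0| := by
      intro x hx
      have hx1 : x.1 = m (ψ k) := mem_lvl.1 hx
      rw [mul_assoc]
      apply mul_le_mul_of_nonneg_left _ (Real.rpow_nonneg (by positivity) _)
      have e1 : (u ∘ ψ) k x = if x.1 ∈ L then 1 / ((S.lvl x.1).card : ℝ) else 0 := by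
        simp only [Function.comp_apply, u]
        rw [if_pos hx1, hx1, if_pos hk'.2]
      rw [e1]
      apply mul_le_mul_of_nonneg_right _ (abs_nonneg _)
      have e2 : g k x = b k * g k x := by
        simp only [b]
        rw [if_pos hk'.2, one_mul]
      rw [e2]
      exact Finset.single_le_sum (f := fun k' => b k' * g k' x)
        (fun k' _ => mul_nonneg (hb k') (hg0 k' x)) hk'.1
    refine le_trans ?_ (Finset.sum_le_sum h4)
    rw [← Finset.mul_sum]
    exact mul_le_mul_of_nonneg_left h3 (Real.rpow_nonneg (by positivity) _)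
  have h5 : (K.card : ℝ) * ((C * (L.card : ℝ)) ^ (-(3 / 4) : ℝ) * c) ≤ M := by
    refine le_trans ?_ h1
    rw [← nsmul_eq_mul, ← Finset.sum_const]
    exact Finset.sum_le_sum h2
  refine le_trans (le_of_eq ?_) h5
  rw [hKc, Real.mul_rpow hC.le hLpos.le]
  have h6 : (L.card : ℝ) ^ (1 / 4 : ℝ) = (L.card : ℝ) * (L.card : ℝ) ^ (-(3 / 4) : ℝ) := by
    nth_rewrite 2 [← Real.rpow_one (L.card : ℝ)]
    rw [← Real.rpow_add hLpos]
    norm_num
  rw [h6]
  ring

end Pool.Agent.T2H72.DC
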