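import Pool.Agent.T2H72.DC.Stm

/-! # Package NUM : a numerical series -/

set_option autoImplicit false

namespace Pool.Agent.T2H72.DC

open Finset Filter

namespace PkgNUM

/-- the bound of one term -/
lemma term (J : ℕ) (hJ2 : 2 ≤ J) (hJ : 2 * Real.exp 3 ≤ Real.sqrt J) :
    ((Nat.sqrt (J ^ 3)).choose (J - 1) : ℝ) * (2 / ((J - 2).factorial : ℝ)) ≤
      8 * Real.exp 3 * Real.exp (-1) ^ J := by
  obtain ⟨m, rfl⟩ : ∃ m, J = m + 2 := ⟨J - 2, by omega⟩
  have e1 : m + 2 - 1 = m + 1 := rfl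
  have e2 : m + 2 - 2 = m := rfl
  rw [e1, e2]
  set x : ℝ := ((m + 2 : ℕ) : ℝ) with hx
  have hx2 : (2 : ℝ) ≤ x := by
    rw [hx]
    exact_mod_cast hJ2
  have hx0 : 0 ≤ x := by linarith
  have hs : ((Nat.sqrt ((m + 2) ^ 3) : ℕ) : ℝ) ≤ x * Real.sqrt x := by
    have h1 : ((Nat.sqrt ((m + 2) ^ 3) : ℕ) : ℝ) ^ 2 ≤ x ^ 3 := by
      rw [hx]
      exact_mod_cast Nat.sqrt_le' ((m + 2) ^ 3)
    have h2 : (x * Real.sqrt x) ^ 2 = x ^ 3 := by
      rw [mul_pow, Real.sq_sqrt hx0]
      ring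
    rw [← h2] at h1
    exact (pow_le_pow_iff_left₀ (Nat.cast_nonneg _) (by positivity) (by norm_num)).1 h1
  have hf : (0 : ℝ) < ((m + 1).factorial : ℝ) := by exact_mod_cast Nat.factorial_pos _
  have h3 : (((Nat.sqrt ((m + 2) ^ 3)).choose (m + 1) : ℕ) : ℝ) ≤
      (x * Real.sqrt x) ^ (m + 1) / ((m + 1).factorial : ℝ) := by
    refine (Nat.choose_le_pow_div (m + 1) (Nat.sqrt ((m + 2) ^ 3))).trans ?_
    gcongr
  have h4 : 2 / (m.factorial : ℝ) ≤ 2 * x / ((m + 1).factorial : ℝ) := by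
    have h5 : ((m + 1).factorial : ℝ) = (m + 1) * m.factorial := by
      rw [Nat.factorial_succ]
      push_cast
      ring
    have hm : (0 : ℝ) < (m.factorial : ℝ) := by exact_mod_cast Nat.factorial_pos _
    rw [h5, div_le_div_iff₀ hm (by positivity)]
    have h6 : (m : ℝ) + 1 ≤ x := by
      rw [hx]
      push_cast
      linarith
    nlinarith
  have h7 : x ^ (m + 1) / ((m + 1).factorial : ℝ) ≤ Real.exp x :=
    Real.pow_div_factorial_le_exp x hx0 (m + 1)
  have h8 : Real.sqrt x ^ (m + 1) / ((m + 1).factorial : ℝ) ≤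
      Real.exp (x / 2) / Real.exp 3 ^ (m + 1) := by
    have h9 := Real.pow_div_factorial_le_exp (Real.exp 3 * Real.sqrt x) (by positivity) (m + 1)
    have h10 : Real.exp 3 * Real.sqrt x ≤ x / 2 := by
      have h11 : Real.sqrt x * Real.sqrt x = x := Real.mul_self_sqrt hx0
      have h12 := Real.sqrt_nonneg x
      nlinarith
    have h13 := h9.trans (Real.exp_le_exp.2 h10)
    rw [mul_pow, mul_div_assoc] at h13
    rw [le_div_iff₀ (by positivity), mul_comm]
    exact h13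
  have h14 : x ≤ 4 * Real.exp (x / 4) := by
    have := Real.add_one_le_exp (x / 4)
    linarith
  have h15 : Real.exp (-1) ^ (m + 2) = Real.exp (-x) := by
    rw [← Real.exp_nat_mul]
    congr 1
    rw [hx]
    ring
  have h16 : Real.exp 3 ^ (m + 1) = Real.exp (3 * x - 3) := by
    rw [← Real.exp_nat_mul]
    congr 1
    rw [hx]
    push_cast
    ring
  rw [h15]
  rw [h16] at h8
  calc (((Nat.sqrt ((m + 2) ^ 3)).choose (m + 1) : ℕ) : ℝ) * (2 / (m.factorial : ℝ))
      ≤ ((x * Real.sqrt x) ^ (m + 1) / ((m + 1).factorial : ℝ)) *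
          (2 * x / ((m + 1).factorial : ℝ)) := by gcongr
    _ = 2 * x * (x ^ (m + 1) / ((m + 1).factorial : ℝ)) *
          (Real.sqrt x ^ (m + 1) / ((m + 1).factorial : ℝ)) := by
        rw [mul_pow]
        ring
    _ ≤ 2 * (4 * Real.exp (x / 4)) * Real.exp x * (Real.exp (x / 2) / Real.exp (3 * x - 3)) := by
        gcongr
    _ = 8 * Real.exp (3 - 5 / 4 * x) := by
        rw [← Real.exp_sub]
        have : 2 * (4 * Real.exp (x / 4)) * Real.exp x * Real.exp (x / 2 - (3 * x - 3)) =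
            8 * (Real.exp (x / 4) * Real.exp x * Real.exp (x / 2 - (3 * x - 3))) := by ring
        rw [this, ← Real.exp_add, ← Real.exp_add]
        congr 2
        ring
    _ ≤ 8 * Real.exp (3 - x) := by
        have : Real.exp (3 - 5 / 4 * x) ≤ Real.exp (3 - x) := Real.exp_le_exp.2 (by linarith)
        linarith
    _ = 8 * Real.exp 3 * Real.exp (-x) := by
        rw [mul_assoc, ← Real.exp_add]
        congr 2

end PkgNUM

theorem pNUM : S_NUM := by
  have hg : Summable fun J : ℕ => 8 * Real.exp 3 * Real.exp (-1) ^ J :=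
    (summable_geometric_of_lt_one (Real.exp_pos _).le (by rw [← Real.exp_zero]; exact Real.exp_lt_exp.2 (by norm_num))).mul_left _
  obtain ⟨s, hs⟩ := summable_iff_vanishing_norm.1 hg (1 / 2) (by norm_num)
  obtain ⟨J₁, hJ₁⟩ := exists_nat_ge ((2 * Real.exp 3) ^ 2)
  refine ⟨max J₁ (s.sup id + 1) + 2, by omega, fun N => ?_⟩
  have h1 : ∑ J ∈ Finset.Icc (max J₁ (s.sup id + 1) + 2) N,
      ((Nat.sqrt (J ^ 3)).choose (J - 1) : ℝ) * (2 / ((J - 2).factorial : ℝ)) ≤
      ∑ J ∈ Finset.Icc (max J₁ (s.sup id + 1) + 2) N, 8 * Real.exp 3 * Real.exp (-1) ^ J := by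
    refine Finset.sum_le_sum fun J hJ => ?_
    have h2 := (Finset.mem_Icc.1 hJ).1
    have h3 : J₁ ≤ J := by
      have := le_max_left J₁ (s.sup id + 1)
      omega
    refine PkgNUM.term J (by omega) ?_
    apply Real.le_sqrt_of_sq_le
    exact hJ₁.trans (by exact_mod_cast h3)
  refine h1.trans ?_
  have h4 := hs (Finset.Icc (max J₁ (s.sup id + 1) + 2) N) (by
    rw [Finset.disjoint_left]
    intro J hJ hJs
    have h5 : J ≤ s.sup id := Finset.le_sup (f := id) hJs
    have h6 := (Finset.mem_Icc.1 hJ).1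
    have h7 := le_max_right J₁ (s.sup id + 1)
    omega)
  exact (le_abs_self _).trans h4.le

end Pool.Agent.T2H72.DC
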