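import Pool.Agent.T2H72.DC.Stm

set_option autoImplicit false

namespace Pool.Agent.T2H72.DC

open Finset

theorem pPG : S_PG := by
  classical
  intro S f hf T u ε c hε hc h
  let W : Finset S.X := T.filter (fun x => ε < f x)
  let L : Finset ℕ := W.image (fun x => x.1)
  have hch : ∀ n ∈ L, ∃ x : S.X, x ∈ W ∧ x.1 = n := by
    intro n hn
    obtain ⟨x, hx, hxn⟩ := Finset.mem_image.1 hn
    exact ⟨x, hx, hxn⟩
  have hne : W.Nonempty := by
    by_contra hcon
    rw [Finset.not_nonempty_iff_eq_empty] at hcon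
    have : ∑ x ∈ T.filter (fun x => ε < f x), f x * |u x| = 0 := by
      change ∑ x ∈ W, f x * |u x| = 0
      rw [hcon, Finset.sum_empty]
    linarith
  obtain ⟨x0, hx0⟩ := hne
  have : Nonempty S.X := ⟨x0⟩
  choose! p hp1 hp2 using hch
  have hLne : L.Nonempty := ⟨x0.1, Finset.mem_image.2 ⟨x0, hx0, rfl⟩⟩
  -- the singletons
  let o : Fin L.card ↪o ℕ := L.orderEmbOfFin rfl
  have hcount : (L.card : ℝ) * ε ^ (4 / 3 : ℝ) ≤ 1 := by
    let F : ℕ → Finset S.X := fun i => if h : i < L.card then {p (o ⟨i, h⟩)} else ∅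
    have hF : S.Suc L.card F := by
      constructor
      · intro i hi
        simp only [F, dif_pos hi]
        exact coh_single _
      · intro i j hij hj x hx y hy
        simp only [F, dif_pos hj, dif_pos (hij.trans hj), Finset.mem_singleton] at hx hy
        rw [hx, hy, hp2 _ (Finset.orderEmbOfFin_mem L rfl _), hp2 _ (Finset.orderEmbOfFin_mem L rfl _)]
        exact o.strictMono hij
    have h1 := hf.2 L.card F hF
    refine le_trans ?_ h1
    rw [← nsmul_eq_mul, ← Finset.card_range L.card, ← Finset.sum_const]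
    rw [Finset.card_range]
    refine Finset.sum_le_sum fun i hi => ?_
    rw [Finset.mem_range] at hi
    simp only [F, dif_pos hi, Finset.sum_singleton]
    refine Real.rpow_le_rpow hε.le ?_ (by norm_num)
    exact (Finset.mem_filter.1 (hp1 _ (Finset.orderEmbOfFin_mem L rfl _))).2.le
  have hsum : c ≤ ∑ n ∈ L, ∑ x ∈ T.filter (fun x => x.1 = n), |u x| := by
    refine h.trans ?_
    have h1 : ∑ x ∈ W, f x * |u x| = ∑ n ∈ L, ∑ x ∈ W.filter (fun x => x.1 = n), f x * |u x| := by
      rw [Finset.sum_fiberwise_of_maps_to]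
      intro x hx
      exact Finset.mem_image.2 ⟨x, hx, rfl⟩
    change ∑ x ∈ W, f x * |u x| ≤ _
    rw [h1]
    refine Finset.sum_le_sum fun n _ => ?_
    refine le_trans (Finset.sum_le_sum (g := fun x => |u x|) fun x _ => ?_) ?_
    · exact mul_le_of_le_one_left (abs_nonneg _) (Phi.le_one hf x)
    · apply Finset.sum_le_sum_of_subset_of_nonneg
      · intro x hx
        rw [Finset.mem_filter] at hx ⊢
        exact ⟨(Finset.mem_filter.1 hx.1).1, hx.2⟩
      · intro x _ _
        exact abs_nonneg _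
  by_contra hcon
  push Not at hcon
  have h2 : ∑ n ∈ L, ∑ x ∈ T.filter (fun x => x.1 = n), |u x| < ∑ n ∈ L, c * ε ^ (4 / 3 : ℝ) :=
    Finset.sum_lt_sum_of_nonempty hLne fun n _ => hcon n
  rw [Finset.sum_const, nsmul_eq_mul] at h2
  nlinarith

end Pool.Agent.T2H72.DC
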