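import Pool.Agent.T2H72.DC.Stm

set_option autoImplicit false

/-!
# Package PRS: small probability of coherence
-/

namespace Pool.Agent.T2H72.DC

open Finset Filter Topology

namespace PkgPRS

theorem It_mono {U : Filter ℕ} : ∀ (r : ℕ) (G G' : List ℕ → Prop),
    (∀ l, l.length = r → G l → G' l) → It U r G → It U r G'
  | 0, _, _, h, hG => h [] rfl hG
  | r + 1, _, _, h, hG => Filter.Eventually.mono hG fun k hk =>
      It_mono r _ _ (fun l hl => h (k :: l) (by simp [hl])) hk

theorem It_snoc {U : Filter ℕ} : ∀ (r : ℕ) (G : List ℕ → Prop),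
    It U r (fun l' => ∀ᶠ m in U, G (l' ++ [m])) → It U (r + 1) G
  | 0, _, h => h
  | r + 1, G, h => Filter.Eventually.mono h fun k hk => It_snoc r (fun l => G (k :: l)) hk

theorem dpr_eq_zero {Ω : Type} [Fintype Ω] (ν : Ω → ℝ) (X : ℕ → Ω → ℕ) (l : List ℕ) (h : ℕ)
    (hX : ∀ k ω, X k ω < h) (hl : h < l.length) : dpr ν X l = 0 := by
  classical
  unfold dpr
  refine Finset.sum_eq_zero fun ω _ => ?_
  rw [if_neg]
  intro hp
  have h1 : (l.map (fun k => X k ω)).Nodup := by
    unfold List.Nodup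
    rw [List.pairwise_map]
    exact hp.imp fun h => (ne_of_lt h).symm
  have h2 : (l.map (fun k => X k ω)).toFinset.card = l.length := by
    rw [List.toFinset_card_of_nodup h1, List.length_map]
  have h3 : (l.map (fun k => X k ω)).toFinset ⊆ Finset.range h := by
    intro a ha
    rw [List.mem_toFinset, List.mem_map] at ha
    obtain ⟨k, _, rfl⟩ := ha
    exact Finset.mem_range.2 (hX k ω)
  have h4 := Finset.card_le_card h3
  rw [h2, Finset.card_range] at h4
  omega

end PkgPRS

open PkgPRS in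
theorem pPRS (hS : S_SEL) (hD : S_DESC) : S_PRS := by
  intro S n hn ν hν hν1
  classical
  let νΩ : ∀ m, S.A (n m) → ℝ := fun m ω => ν m ⟨n m, ω⟩
  have hνΩ : ∀ m ω, 0 ≤ νΩ m ω := fun m ω => hν _ _
  have hνΩ1 : ∀ m, ∑ ω, νΩ m ω = 1 := by
    intro m
    rw [← hν1 m]
    unfold Sys.lvl
    rw [Finset.sum_map]
    rfl
  let X : ℕ → ℕ → ∀ m, S.A (n m) → ℕ := fun i k m ω => S.bud (n i) (S.pt (n k) ⟨n m, ω⟩)
  have hX : ∀ i k m ω, X i k m ω < n i + 1 := fun i k m ω => bud_lt _ _
  let G : ℕ → List ℕ → Prop := fun i l => ∀ l' m, l = l' ++ [m] →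
    dpr (νΩ m) (fun k => X i k m) l' ≤ 2 / (l'.length.factorial : ℝ)
  have hG1 : ∀ i l, n i + 2 < l.length → G i l := by
    intro i l hl l' m he
    rw [he, List.length_append, List.length_singleton] at hl
    rw [dpr_eq_zero (νΩ m) (fun k => X i k m) l' (n i + 1) (fun k ω => hX i k m ω) (by omega)]
    positivity
  have hG2 : ∀ i r, It ((hyperfilter ℕ : Ultrafilter ℕ) : Filter ℕ) r (G i) := by
    intro i r
    cases r with
    | zero =>
      intro l' m he
      simp at he
    | succ r =>
      apply It_snoc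
      refine It_mono r _ _ (fun l hl h => ?_) (hD (hyperfilter ℕ) (fun m => S.A (n m)) νΩ hνΩ hνΩ1
        (n i + 1) (X i) (hX i) r)
      refine h.mono fun m hm => ?_
      intro l' m' he
      obtain ⟨rfl, h2⟩ := List.append_inj' he rfl
      simp only [List.cons.injEq, and_true] at h2
      subst h2
      rw [hl]
      exact hm
  obtain ⟨φ, hφ, hφ2⟩ := hS ((hyperfilter ℕ : Ultrafilter ℕ) : Filter ℕ) hyperfilter_le_cofinite G
    (fun i => n i + 2) hG1 hG2
  refine ⟨φ, hφ, fun k x => hν _ _, fun k => hν1 _, ?_⟩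
  intro K k hK hKne B hB hTop
  have hsort : (K.sort (· ≤ ·)).Pairwise (· < ·) := (Finset.sortedLT_sort K).pairwise
  have hmem : ∀ j, j ∈ K.sort (· ≤ ·) ↔ j ∈ K := fun j => Finset.mem_sort _
  have hlen : (K.sort (· ≤ ·)).length = K.card := Finset.length_sort _
  obtain ⟨L, hL⟩ : ∃ L, L = K.sort (· ≤ ·) := ⟨_, rfl⟩
  rw [← hL] at hsort hlen
  simp only [← hL] at hmem
  cases L with
  | nil =>
    rw [List.length_nil] at hlen
    exact absurd hlen (Finset.card_pos.2 hKne).ne
  | cons i l =>
    have hpw : (i :: (l ++ [k])).Pairwise (· < ·) := by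
      rw [← List.cons_append, List.pairwise_append]
      refine ⟨hsort, List.pairwise_singleton _ _, fun a ha b hb => ?_⟩
      rw [List.mem_singleton] at hb
      rw [hb]
      exact hK a ((hmem a).1 ha)
    have h1 := hφ2 i (l ++ [k]) hpw (l.map φ) (φ k) (by simp)
    have h2 : (l.map φ).length = K.card - 1 := by
      rw [List.length_map, ← hlen, List.length_cons]
      omega
    rw [h2] at h1
    refine le_trans ?_ h1
    have hpoint : ∀ x ∈ B, (l.map φ).Pairwise (fun k' k'' =>
        S.bud (n (φ i)) (S.pt (n k'') x) < S.bud (n (φ i)) (S.pt (n k') x)) := by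
      intro x hx
      obtain ⟨F, hF, hxF, hyF⟩ := hTop x hx
      have hx1 : x.1 = n (φ k) := mem_lvl.1 (hB hx)
      have hpt : ∀ j ∈ K, S.pt (n (φ j)) x ∈ F ∧ (S.pt (n (φ j)) x).1 = n (φ j) := by
        intro j hj
        obtain ⟨y, hy, hy1⟩ := hyF j hj
        have hy1' : y.1 = n (φ j) := hy1
        have hlt : y.1 < x.1 := by
          rw [hy1', hx1]
          exact hn (hφ (hK j hj))
        have h3 := hF.2.1 y hy x hxF hlt
        rw [hy1'] at h3
        rw [h3]
        exact ⟨hy, hy1'⟩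
      rw [List.pairwise_map]
      have hl : l.Pairwise (· < ·) := (List.pairwise_cons.1 hsort).2
      have hil : ∀ j ∈ l, i < j := (List.pairwise_cons.1 hsort).1
      have hiK : i ∈ K := (hmem i).1 List.mem_cons_self
      refine hl.imp_of_mem fun {j j'} hj hj' hjj' => ?_
      have hjK : j ∈ K := (hmem j).1 (List.mem_cons_of_mem _ hj)
      have hjK' : j' ∈ K := (hmem j').1 (List.mem_cons_of_mem _ hj')
      have ai := hpt i hiK
      have aj := hpt j hjK
      have aj' := hpt j' hjK'
      have h4 := hF.2.2 _ ai.1 _ aj.1 _ aj'.1 (by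
        rw [ai.2, aj.2]
        exact hn (hφ (hil j hj))) (by
        rw [aj.2, aj'.2]
        exact hn (hφ hjj'))
      rw [ai.2] at h4
      exact h4
    have h5 : dpr (νΩ (φ k)) (fun k' => X (φ i) k' (φ k)) (l.map φ) =
        ∑ x ∈ S.lvl (n (φ k)), (if (l.map φ).Pairwise (fun k' k'' =>
        S.bud (n (φ i)) (S.pt (n k'') x) < S.bud (n (φ i)) (S.pt (n k') x)) then ν (φ k) x
          else 0) := by
      unfold dpr Sys.lvl
      rw [Finset.sum_map]
      refine Finset.sum_congr rfl fun ω _ => ?_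
      congr
    rw [h5]
    calc ∑ x ∈ B, (ν ∘ φ) k x = ∑ x ∈ B, (if (l.map φ).Pairwise (fun k' k'' =>
        S.bud (n (φ i)) (S.pt (n k'') x) < S.bud (n (φ i)) (S.pt (n k') x)) then ν (φ k) x
          else 0) := by
          refine Finset.sum_congr rfl fun x hx => ?_
          rw [if_pos (hpoint x hx)]
          rfl
      _ ≤ _ := by
          refine Finset.sum_le_sum_of_subset_of_nonneg hB fun x _ _ => ?_
          split_ifs
          · exact hν _ _
          · exact le_rfl

end Pool.Agent.T2H72.DC
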