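import Pool.Agent.T2H72.DC.Stm

/-!
# REM: removal of the bad nodes (union bound)
-/

set_option autoImplicit false

namespace Pool.Agent.T2H72.DC

open Finset Filter

namespace PkgREM

/-- the last `sqrt (J^3)` predecessors of `k` with the same type -/
def pred (A : Finset ℕ) (τ : ℕ → ℤ) (J k : ℕ) : Finset ℕ :=
  A.filter (fun k' => τ k' = τ k ∧ k' < k ∧
    (A.filter (fun k'' => τ k'' = τ k ∧ k' ≤ k'' ∧ k'' < k)).card ≤ Nat.sqrt (J ^ 3))

theorem card_pred (A : Finset ℕ) (τ : ℕ → ℤ) (J k : ℕ) : (pred A τ J k).card ≤ Nat.sqrt (J ^ 3) := by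
  rcases (pred A τ J k).eq_empty_or_nonempty with h | h
  · rw [h]; simp
  · have h1 := Finset.min'_mem _ h
    have h2 := h1
    unfold pred at h2
    rw [Finset.mem_filter] at h2
    refine (Finset.card_le_card ?_).trans h2.2.2.2
    intro k' hk'
    have h3 := Finset.min'_le _ _ hk'
    unfold pred at hk'
    rw [Finset.mem_filter] at hk' ⊢
    exact ⟨hk'.1, hk'.2.1, h3, hk'.2.2.1⟩

open Classical in
/-- the bad nodes -/
noncomputable def bad (S : Sys) (n : ℕ → ℕ) (A : Finset ℕ) (τ : ℕ → ℤ) (J₀ k : ℕ) : Finset S.X :=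
  (Finset.Icc J₀ (A.card + 1)).biUnion fun J =>
    ((pred A τ J k).powersetCard (J - 1)).biUnion fun K' =>
      (S.lvl (n k)).filter (fun x => Top S n K' x)

theorem mass_bad (S : Sys) (n : ℕ → ℕ) (ν : ℕ → S.X → ℝ) (hS : Small S n ν) (A : Finset ℕ)
    (τ : ℕ → ℤ) (J₀ : ℕ) (h2 : 2 ≤ J₀) (hJ₀ : ∀ N : ℕ, ∑ J ∈ Finset.Icc J₀ N,
      ((Nat.sqrt (J ^ 3)).choose (J - 1) : ℝ) * (2 / ((J - 2).factorial : ℝ)) ≤ 1 / 2) (k : ℕ) :
    ∑ x ∈ bad S n A τ J₀ k, ν k x ≤ 1 / 2 := by
  classical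
  obtain ⟨h0, -, hT⟩ := hS
  have bU : ∀ {α : Type} (s : Finset α) (t : α → Finset S.X),
      ∑ x ∈ s.biUnion t, ν k x ≤ ∑ i ∈ s, ∑ x ∈ t i, ν k x := by
    intro α s t
    induction s using Finset.induction_on with
    | empty => simp
    | insert a s ha ih =>
      rw [Finset.biUnion_insert, Finset.sum_insert ha]
      have h5 := Finset.sum_union_inter (s₁ := t a) (s₂ := s.biUnion t) (f := ν k)
      have h6 : 0 ≤ ∑ x ∈ t a ∩ s.biUnion t, ν k x := Finset.sum_nonneg fun x _ => h0 k x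
      linarith
  refine le_trans ?_ (hJ₀ (A.card + 1))
  unfold bad
  refine (bU _ _).trans (Finset.sum_le_sum fun J hJ => (bU _ _).trans ?_)
  have hJ2 : 2 ≤ J := h2.trans (Finset.mem_Icc.1 hJ).1
  have h3 : ∀ K' ∈ (pred A τ J k).powersetCard (J - 1),
      ∑ x ∈ (S.lvl (n k)).filter (fun x => Top S n K' x), ν k x ≤ 2 / ((J - 2).factorial : ℝ) := by
    intro K' hK'
    rw [Finset.mem_powersetCard] at hK'
    have h4 := hT K' k (fun j hj => by
        have := hK'.1 hj
        unfold pred at this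
        exact (Finset.mem_filter.1 this).2.2.1)
      (by rw [← Finset.card_pos, hK'.2]; omega)
      ((S.lvl (n k)).filter (fun x => Top S n K' x)) (Finset.filter_subset _ _)
      (fun x hx => (Finset.mem_filter.1 hx).2)
    rw [hK'.2, show J - 1 - 1 = J - 2 by omega] at h4
    exact h4
  refine (Finset.sum_le_sum h3).trans ?_
  rw [Finset.sum_const, Finset.card_powersetCard, nsmul_eq_mul]
  refine mul_le_mul_of_nonneg_right ?_ (by positivity)
  exact_mod_cast Nat.choose_le_choose (J - 1) (card_pred A τ J k)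

end PkgREM

open PkgREM in
theorem pREM (hN : S_NUM) : S_REM := by
  classical
  obtain ⟨J₀, h2, hJ₀⟩ := hN
  refine ⟨J₀, fun S n hn ν hS A τ => ?_⟩
  refine ⟨fun k => S.lvl (n k) \ bad S n A τ J₀ k, fun k => Finset.sdiff_subset, fun k => ?_, ?_⟩
  · have h3 := mass_bad S n ν hS A τ J₀ h2 hJ₀ k
    obtain ⟨h0, h1, -⟩ := hS
    have hsub : bad S n A τ J₀ k ⊆ S.lvl (n k) := by
      intro x hx
      unfold bad at hx
      simp only [Finset.mem_biUnion, Finset.mem_filter] at hx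
      obtain ⟨J, -, K', -, h, -⟩ := hx
      exact h
    have h4 := Finset.sum_sdiff hsub (f := ν k)
    rw [h1 k] at h4
    linarith
  · intro F hF K hK t hKF
    by_contra hcon
    push Not at hcon
    obtain ⟨hc1, hc2⟩ := hcon
    have hne : K.Nonempty := by
      rw [← Finset.card_pos]; omega
    set k := K.max' hne with hk
    have hkK : k ∈ K := Finset.max'_mem _ _
    obtain ⟨hkt, x, hxF, hxB⟩ := hKF k hkK
    rw [Finset.mem_sdiff] at hxB
    apply hxB.2
    unfold bad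
    rw [Finset.mem_biUnion]
    refine ⟨K.card, Finset.mem_Icc.2 ⟨hc1.le, (Finset.card_le_card hK).trans (Nat.le_succ _)⟩, ?_⟩
    rw [Finset.mem_biUnion]
    refine ⟨K.erase k, ?_, ?_⟩
    · rw [Finset.mem_powersetCard]
      refine ⟨fun k' hk' => ?_, Finset.card_erase_of_mem hkK⟩
      rw [Finset.mem_erase] at hk'
      have hlt : k' < k := lt_of_le_of_ne (Finset.le_max' _ _ hk'.2) hk'.1
      unfold pred
      rw [Finset.mem_filter]
      refine ⟨hK hk'.2, ?_, hlt, ?_⟩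
      · rw [(hKF k' hk'.2).1, hkt]
      · rw [Nat.le_sqrt]
        refine le_trans ?_ hc2.le
        rw [← sq]
        refine Nat.pow_le_pow_left (Finset.card_le_card ?_) 2
        intro k'' hk''
        rw [Finset.mem_filter] at hk'' ⊢
        refine ⟨hk''.1, ?_, ⟨k', hk'.2, hk''.2.2.1⟩, ⟨k, hkK, hk''.2.2.2.le⟩⟩
        rw [hk''.2.1, hkt]
    · rw [Finset.mem_filter]
      refine ⟨hxB.1, F, hF, hxF, fun j hj => ?_⟩
      rw [Finset.mem_erase] at hj
      obtain ⟨-, y, hyF, hyB⟩ := hKF j hj.2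
      exact ⟨y, hyF, mem_lvl.1 (Finset.mem_sdiff.1 hyB).1⟩

end Pool.Agent.T2H72.DC
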