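import Pool.Agent.T2H72.DC.Stm

set_option autoImplicit false

/-!
# Package SEL: selection of a subsequence from iterated quantifiers
-/

namespace Pool.Agent.T2H72.DC

open Finset Filter Topology

namespace PkgSEL

/-- if `G` holds for all lists of length `r` then `It U r G` -/
theorem It_of_all {U : Filter ℕ} : ∀ (r : ℕ) (G : List ℕ → Prop),
    (∀ l, l.length = r → G l) → It U r G
  | 0, _, h => h [] rfl
  | r + 1, _, h => Filter.Eventually.of_forall fun k =>
      It_of_all r _ fun l hl => h (k :: l) (by simp [hl])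

/-- good finite selections -/
def Good (U : Filter ℕ) (G : ℕ → List ℕ → Prop) (s : List ℕ) : Prop :=
  ∀ i l, (i :: l).Sublist s → ∀ r, It U r (fun l' => G i (l ++ l'))

theorem good_step (U : Filter ℕ) [U.NeBot] (hU : U ≤ cofinite) (G : ℕ → List ℕ → Prop) (N : ℕ → ℕ)
    (hN : ∀ i l, N i < l.length → G i l) (hG : ∀ i r, It U r (G i)) (s : List ℕ)
    (hs : Good U G s) (b : ℕ) : ∃ k, b < k ∧ Good U G (s ++ [k]) := by
  classical
  let Q : List ℕ → ℕ → ℕ → Prop := fun t r k => ∀ i l, t = i :: l →
    It U r (fun l' => G i (l ++ k :: l'))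
  have h1 : ∀ t ∈ s.sublists.toFinset, ∀ᶠ k in U, ∀ r, Q t r k := by
    intro t ht
    rw [List.mem_toFinset, List.mem_sublists] at ht
    cases t with
    | nil =>
      refine Filter.Eventually.of_forall fun k r i l hil => ?_
      simp at hil
    | cons i l =>
      have h2 : ∀ᶠ k in U, ∀ r ∈ Finset.range (N i + 1), It U r (fun l' => G i (l ++ k :: l')) := by
        rw [Filter.eventually_all_finset]
        intro r _
        exact hs i l ht (r + 1)
      refine h2.mono fun k hk r i' l' hil => ?_
      obtain ⟨rfl, rfl⟩ := List.cons_eq_cons.1 hil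
      by_cases hr : r < N i + 1
      · exact hk r (Finset.mem_range.2 hr)
      · refine It_of_all r _ fun l'' hl'' => hN _ _ ?_
        rw [List.length_append, List.length_cons, hl'']
        omega
  have h3 : ∀ᶠ k in U, ∀ t ∈ s.sublists.toFinset, ∀ r, Q t r k := by
    rw [Filter.eventually_all_finset]
    exact h1
  have h4 : ∀ᶠ k in U, b < k := by
    apply hU
    rw [Nat.cofinite_eq_atTop]
    exact eventually_gt_atTop b
  obtain ⟨k, hk1, hk2⟩ := (h3.and h4).exists
  refine ⟨k, hk2, ?_⟩
  intro i l hil r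
  rw [List.sublist_append_iff] at hil
  obtain ⟨l1, l2, he, hl1, hl2⟩ := hil
  rw [List.sublist_singleton] at hl2
  rcases hl2 with rfl | rfl
  · rw [List.append_nil] at he
    rw [← he] at hl1
    exact hs i l hl1 r
  · cases l1 with
    | nil =>
      rw [List.nil_append] at he
      obtain ⟨rfl, rfl⟩ := List.cons_eq_cons.1 he
      simpa using hG i r
    | cons i' l1 =>
      rw [List.cons_append] at he
      obtain ⟨rfl, rfl⟩ := List.cons_eq_cons.1 he
      have := hk1 (i :: l1) (by rw [List.mem_toFinset, List.mem_sublists]; exact hl1) r i l1 rfl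
      simpa using this

end PkgSEL

open PkgSEL in
theorem pSEL : S_SEL := by
  intro U _ hU G N hN hG
  classical
  have hstep : ∀ p : {p : List ℕ × ℕ // Good U G p.1}, ∃ k, p.1.2 < k ∧ Good U G (p.1.1 ++ [k]) :=
    fun p => good_step U hU G N hN hG p.1.1 p.2 p.1.2
  choose nk hnk1 hnk2 using hstep
  let st : ℕ → {p : List ℕ × ℕ // Good U G p.1} := fun n => Nat.rec
    ⟨([], 0), fun i l hil => by
      simp at hil⟩
    (fun _ p => ⟨(p.1.1 ++ [nk p], nk p), hnk2 p⟩) n
  have hst : ∀ n, st (n + 1) = ⟨((st n).1.1 ++ [nk (st n)], nk (st n)), hnk2 (st n)⟩ := fun n => rfl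
  obtain ⟨φ, hφ⟩ : ∃ φ : ℕ → ℕ, ∀ n, φ n = nk (st n) := ⟨_, fun _ => rfl⟩
  have hlist : ∀ n, (st n).1.1 = (List.range n).map φ := by
    intro n
    induction n with
    | zero => rfl
    | succ n ih =>
      rw [hst, List.range_succ, List.map_append, ← ih]
      simp [hφ]
  have hmono : StrictMono φ := by
    apply strictMono_nat_of_lt_succ
    intro n
    have h1 := hnk1 (st (n + 1))
    rw [hφ, hφ]
    rw [hst] at h1
    exact h1
  refine ⟨φ, hmono, ?_⟩
  intro i l hil
  obtain ⟨n, hn⟩ : ∃ n, ∀ j ∈ i :: l, j < n := by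
    refine ⟨((i :: l).toFinset.sup id) + 1, fun j hj => ?_⟩
    have : id j ≤ (i :: l).toFinset.sup id := Finset.le_sup (List.mem_toFinset.2 hj)
    exact Nat.lt_succ_of_le this
  have hsub : (i :: l).Sublist (List.range n) := by
    apply List.sublist_of_subperm_of_pairwise (r := (· < ·))
    · apply List.subperm_of_subset
      · exact hil.imp fun h => ne_of_lt h
      · intro j hj
        exact List.mem_range.2 (hn j hj)
    · exact hil
    · exact List.pairwise_lt_range
  have hsub2 : (φ i :: l.map φ).Sublist (st n).1.1 := by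
    rw [hlist]
    have := hsub.map φ
    simpa using this
  have := (st n).2 (φ i) (l.map φ) hsub2 0
  simpa [It] using this

end Pool.Agent.T2H72.DC
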