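import Pool.Agent.T2H72.DC.Stm

/-!
# Package STEP (project DC, helper26)
-/

set_option autoImplicit false

namespace Pool.Agent.T2H72.DC

open Finset Filter

namespace PkgSTEP

/-- The Bessel inequality transported to a level. -/
theorem var' (hV : S_VAR) (S : Sys) (n : ℕ) (B : Finset S.X) (hB : B ⊆ S.lvl n) :
    ∑ j : Fin n, (1 / (Fintype.card (S.A j × Fin ((j : ℕ) + 1)) : ℝ)) *
      ∑ p : S.A j × Fin ((j : ℕ) + 1),
        (((B.filter (fun w => S.pt j w = ⟨j, p.1⟩ ∧ S.bud j w = (p.2 : ℕ))).card : ℝ) *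
          Fintype.card (S.A j × Fin ((j : ℕ) + 1)) / (S.lvl n).card
          - (B.card : ℝ) / (S.lvl n).card) ^ 2 ≤ 1 := by
  classical
  let emb : ((j : Fin n) → S.A j × Fin ((j : ℕ) + 1)) ↪ S.X :=
    ⟨fun w => ⟨n, (S.e n).symm w⟩, fun w w' h => by
      have := sigma_mk_injective h
      exact (S.e n).symm.injective this⟩
  let B' : Finset ((j : Fin n) → S.A j × Fin ((j : ℕ) + 1)) :=
    Finset.univ.filter (fun w => emb w ∈ B)
  have hmap : B'.map emb = B := by
    ext y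
    rw [Finset.mem_map]
    constructor
    · rintro ⟨w, hw, rfl⟩
      exact (Finset.mem_filter.mp hw).2
    · intro hy
      have hn : y.1 = n := mem_lvl.mp (hB hy)
      obtain ⟨k, a⟩ := y
      dsimp only at hn
      subst hn
      have he : emb (S.e k a) = ⟨k, a⟩ := by
        show (⟨k, (S.e k).symm (S.e k a)⟩ : S.X) = ⟨k, a⟩
        rw [Equiv.symm_apply_apply]
      exact ⟨S.e k a, Finset.mem_filter.mpr ⟨Finset.mem_univ _, by rw [he]; exact hy⟩, he⟩
  have hcard : B'.card = B.card := by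
    rw [← hmap, Finset.card_map]
  have hfil : ∀ (j : Fin n) (p : S.A j × Fin ((j : ℕ) + 1)),
      (B'.filter (fun w => w j = p)).card =
        (B.filter (fun w => S.pt j w = ⟨j, p.1⟩ ∧ S.bud j w = (p.2 : ℕ))).card := by
    intro j p
    rw [← hmap, Finset.filter_map, Finset.card_map]
    congr 1
    refine Finset.filter_congr fun w _ => ?_
    have h1 : S.pt j (emb w) = ⟨j, (w j).1⟩ := by
      show S.pt j ⟨n, (S.e n).symm w⟩ = _
      unfold Sys.pt
      rw [dif_pos j.2, Equiv.apply_symm_apply]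
    have h2 : S.bud j (emb w) = ((w j).2 : ℕ) := by
      show S.bud j ⟨n, (S.e n).symm w⟩ = _
      unfold Sys.bud
      rw [dif_pos j.2, Equiv.apply_symm_apply]
    simp only [Function.comp_apply]
    rw [h1, h2]
    constructor
    · intro h
      rw [h]
      exact ⟨rfl, rfl⟩
    · rintro ⟨h3, h4⟩
      exact Prod.ext (sigma_mk_injective h3) (Fin.ext h4)
  have hL : Fintype.card ((j : Fin n) → S.A j × Fin ((j : ℕ) + 1)) = (S.lvl n).card := by
    rw [card_lvl, Fintype.card_congr (S.e n)]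
  have h := hV n (fun j => S.A j × Fin ((j : ℕ) + 1)) B'
  simp only [hfil, hcard, hL] at h
  exact h

/-- The core: for a given `n` large there is a good `(m, x, r)`. -/
theorem core (hV : S_VAR) (S : Sys) (J : ℕ) (δ : ℝ) (hδ : 0 < δ)
    (B₀ : ℕ → Finset S.X) (B : Fin J → ℕ → Finset S.X) (hB₀ : ∀ n, B₀ n ⊆ S.lvl n)
    (hB : ∀ s n, B s n ⊆ S.lvl n) (R : Finset ℕ) (hR : ∀ m ∈ R, 2 * J ≤ m)
    (hd₀ : ∀ m ∈ R, δ * (S.lvl m).card ≤ (B₀ m).card)
    (hRc : (8 * J : ℝ) / δ ^ 3 < R.card) (n : ℕ) (hn : ∀ m ∈ R, m < n)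
    (hd : ∀ s, δ * (S.lvl n).card ≤ (B s n).card) :
    ∃ m ∈ R, ∃ x ∈ B₀ m, ∃ r : Fin J → ℕ, StrictAnti r ∧ (∀ s, r s < m + 1) ∧
      ∀ s, δ / (2 * (Fintype.card (S.A m × Fin (m + 1)) : ℝ)) * (S.lvl n).card ≤
        (((B s n).filter (fun w => S.pt m w = x ∧ S.bud m w = r s)).card : ℝ) := by
  classical
  have hLpos : (0 : ℝ) < (S.lvl n).card := by exact_mod_cast card_lvl_pos n
  -- notation
  set C : ℕ → ℝ := fun m => (Fintype.card (S.A m × Fin (m + 1)) : ℝ) with hC
  have hCpos : ∀ m, 0 < C m := fun m => by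
    have h0 : 0 < Fintype.card (S.A m × Fin (m + 1)) := Fintype.card_pos
    show (0 : ℝ) < (Fintype.card (S.A m × Fin (m + 1)) : ℝ)
    exact_mod_cast h0
  set q : Fin J → (m : ℕ) → S.A m × Fin (m + 1) → ℝ := fun s m p =>
    (((B s n).filter (fun w => S.pt m w = ⟨m, p.1⟩ ∧ S.bud m w = (p.2 : ℕ))).card : ℝ) * C m /
      (S.lvl n).card with hq
  set β : Fin J → ℝ := fun s => ((B s n).card : ℝ) / (S.lvl n).card with hβ
  have hβδ : ∀ s, δ ≤ β s := fun s => by
    rw [hβ]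
    exact (le_div_iff₀ hLpos).mpr (hd s)
  set V : Fin J → ℕ → ℝ := fun s m => (1 / C m) * ∑ p, (q s m p - β s) ^ 2 with hVdef
  have hVnn : ∀ s m, 0 ≤ V s m := fun s m =>
    mul_nonneg (one_div_nonneg.mpr (hCpos m).le) (Finset.sum_nonneg fun p _ => sq_nonneg _)
  -- sum over R
  have h1 : ∀ s, ∑ m ∈ R, V s m ≤ 1 := by
    intro s
    have h2 := var' hV S n (B s n) (hB s n)
    have h3 : ∑ m ∈ R, V s m ≤ ∑ m ∈ Finset.range n, V s m :=
      Finset.sum_le_sum_of_subset_of_nonneg (fun m hm => Finset.mem_range.mpr (hn m hm))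
        fun m _ _ => hVnn s m
    have h4 : ∑ m ∈ Finset.range n, V s m = ∑ j : Fin n, V s j := Finset.sum_range _
    rw [h4] at h3
    exact h3.trans h2
  have h2 : ∑ m ∈ R, ∑ s, V s m ≤ J := by
    rw [Finset.sum_comm]
    calc _ ≤ ∑ s : Fin J, (1 : ℝ) := Finset.sum_le_sum fun s _ => h1 s
      _ = J := by simp
  have hRpos : (0 : ℝ) < R.card := lt_of_le_of_lt (by positivity) hRc
  have hRne : R.Nonempty := by
    rw [← Finset.card_pos]
    exact_mod_cast hRpos
  obtain ⟨m, hmR, hm⟩ : ∃ m ∈ R, ∑ s, V s m ≤ J / R.card := by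
    apply Finset.exists_le_of_sum_le hRne
    rw [Finset.sum_const, nsmul_eq_mul, mul_div_cancel₀ _ hRpos.ne']
    exact h2
  -- bad pairs
  set bad : Finset (S.A m × Fin (m + 1)) := Finset.univ.filter (fun p => ∃ s, q s m p < δ / 2)
    with hbad
  have h3 : (bad.card : ℝ) * (δ / 2) ^ 2 ≤ C m * (J / R.card) := by
    have h4 : (bad.card : ℝ) * (δ / 2) ^ 2 ≤ ∑ p ∈ bad, ∑ s, (q s m p - β s) ^ 2 := by
      rw [← nsmul_eq_mul, ← Finset.sum_const]
      refine Finset.sum_le_sum fun p hp => ?_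
      obtain ⟨s, hs⟩ := (Finset.mem_filter.mp hp).2
      refine le_trans ?_ (Finset.single_le_sum (f := fun s => (q s m p - β s) ^ 2)
        (fun s _ => sq_nonneg _) (Finset.mem_univ s))
      have h5 := hβδ s
      have h6 : δ / 2 ≤ β s - q s m p := by linarith
      calc (δ / 2) ^ 2 ≤ (β s - q s m p) ^ 2 := by
            apply pow_le_pow_left₀ (by positivity) h6
        _ = (q s m p - β s) ^ 2 := by ring
    have h5 : ∑ p ∈ bad, ∑ s, (q s m p - β s) ^ 2 ≤ ∑ p, ∑ s, (q s m p - β s) ^ 2 :=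
      Finset.sum_le_sum_of_subset_of_nonneg (Finset.subset_univ _)
        fun p _ _ => Finset.sum_nonneg fun s _ => sq_nonneg _
    have h6 : ∑ p, ∑ s, (q s m p - β s) ^ 2 = C m * ∑ s, V s m := by
      rw [Finset.sum_comm, Finset.mul_sum]
      refine Finset.sum_congr rfl fun s _ => ?_
      rw [hVdef]
      dsimp only
      rw [← mul_assoc, mul_one_div_cancel (hCpos m).ne', one_mul]
    calc _ ≤ _ := h4
      _ ≤ _ := h5
      _ = _ := h6
      _ ≤ _ := mul_le_mul_of_nonneg_left hm (hCpos m).le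
  have h4 : (bad.card : ℝ) < δ / 2 * C m := by
    have h5 : (J : ℝ) / R.card < δ ^ 3 / 8 := by
      rw [div_lt_iff₀ (by positivity)] at hRc
      rw [div_lt_iff₀ hRpos]
      linarith
    have h6 : C m * (J / R.card) < C m * (δ ^ 3 / 8) := mul_lt_mul_of_pos_left h5 (hCpos m)
    have h7 : (bad.card : ℝ) * (δ / 2) ^ 2 < (δ / 2 * C m) * (δ / 2) ^ 2 := by
      calc _ ≤ _ := h3
        _ < _ := h6
        _ = _ := by ring
    exact lt_of_mul_lt_mul_right h7 (by positivity)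
  -- a good node
  have hJm := hR m hmR
  obtain ⟨l, hl, hlJ⟩ : ∃ l : S.A m, (⟨m, l⟩ : S.X) ∈ B₀ m ∧
      J ≤ ((Finset.univ : Finset (Fin (m + 1))).filter (fun ρ => (l, ρ) ∉ bad)).card := by
    by_contra hcon
    push Not at hcon
    -- the set of labels
    set A₀ : Finset (S.A m) := Finset.univ.filter (fun l => (⟨m, l⟩ : S.X) ∈ B₀ m) with hA₀
    have hA₀c : A₀.card = (B₀ m).card := by
      have h5 : A₀.map ⟨Sigma.mk m, sigma_mk_injective⟩ = B₀ m := by
        ext y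
        rw [Finset.mem_map]
        constructor
        · rintro ⟨a, ha, rfl⟩
          exact (Finset.mem_filter.mp ha).2
        · intro hy
          have hym : y.1 = m := mem_lvl.mp (hB₀ m hy)
          obtain ⟨k, a⟩ := y
          dsimp only at hym
          subst hym
          exact ⟨a, Finset.mem_filter.mpr ⟨Finset.mem_univ _, hy⟩, rfl⟩
      rw [← h5, Finset.card_map]
    have h5 : ∀ l ∈ A₀, ((m : ℝ) + 1) / 2 ≤
        (((Finset.univ : Finset (Fin (m + 1))).filter (fun ρ => (l, ρ) ∈ bad)).card : ℝ) := by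
      intro l hl
      have h6 := hcon l (Finset.mem_filter.mp hl).2
      have h7 : ((Finset.univ : Finset (Fin (m + 1))).filter (fun ρ => (l, ρ) ∈ bad)).card +
          ((Finset.univ : Finset (Fin (m + 1))).filter (fun ρ => (l, ρ) ∉ bad)).card = m + 1 := by
        rw [Finset.card_filter_add_card_filter_not, Finset.card_univ, Fintype.card_fin]
      have h8 : m + 1 ≤ 2 * ((Finset.univ : Finset (Fin (m + 1))).filter
          (fun ρ => (l, ρ) ∈ bad)).card := by omega
      have h9 : ((m : ℝ) + 1) ≤ 2 * (((Finset.univ : Finset (Fin (m + 1))).filter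
          (fun ρ => (l, ρ) ∈ bad)).card : ℝ) := by exact_mod_cast h8
      linarith
    have h6 : (A₀.card : ℝ) * (((m : ℝ) + 1) / 2) ≤ bad.card := by
      have h7 : (∑ l ∈ A₀, ((Finset.univ : Finset (Fin (m + 1))).filter
          (fun ρ => (l, ρ) ∈ bad)).card) ≤ bad.card := by
        have h8 : bad.card = ∑ l : S.A m, (bad.filter (fun p => p.1 = l)).card :=
          Finset.card_eq_sum_card_fiberwise fun p _ => Finset.mem_univ _
        have h9 : ∀ l : S.A m, ((Finset.univ : Finset (Fin (m + 1))).filter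
            (fun ρ => (l, ρ) ∈ bad)).card = (bad.filter (fun p => p.1 = l)).card := by
          intro l
          apply Finset.card_bij (fun ρ _ => (l, ρ))
          · intro ρ hρ
            exact Finset.mem_filter.mpr ⟨(Finset.mem_filter.mp hρ).2, rfl⟩
          · intro ρ _ ρ' _ h
            exact (Prod.mk.inj h).2
          · rintro ⟨l', ρ⟩ hp
            obtain ⟨hp1, hp2⟩ := Finset.mem_filter.mp hp
            dsimp only at hp2
            subst hp2
            exact ⟨ρ, Finset.mem_filter.mpr ⟨Finset.mem_univ _, hp1⟩, rfl⟩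
        rw [h8]
        calc _ = ∑ l ∈ A₀, (bad.filter (fun p => p.1 = l)).card :=
              Finset.sum_congr rfl fun l _ => h9 l
          _ ≤ _ := Finset.sum_le_sum_of_subset (Finset.subset_univ _)
      calc (A₀.card : ℝ) * (((m : ℝ) + 1) / 2) = ∑ l ∈ A₀, (((m : ℝ) + 1) / 2) := by
            rw [Finset.sum_const, nsmul_eq_mul]
        _ ≤ ∑ l ∈ A₀, (((Finset.univ : Finset (Fin (m + 1))).filter
            (fun ρ => (l, ρ) ∈ bad)).card : ℝ) := Finset.sum_le_sum h5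
        _ ≤ bad.card := by exact_mod_cast h7
    have h7 : C m = (S.lvl m).card * ((m : ℝ) + 1) := by
      rw [hC]
      dsimp only
      rw [Fintype.card_prod, Fintype.card_fin, card_lvl]
      push_cast
      ring
    have h8 := hd₀ m hmR
    rw [← hA₀c] at h8
    have h9 : δ / 2 * C m ≤ (A₀.card : ℝ) * (((m : ℝ) + 1) / 2) := by
      rw [h7]
      have : δ * ((S.lvl m).card : ℝ) * (((m : ℝ) + 1) / 2) ≤ (A₀.card : ℝ) * (((m : ℝ) + 1) / 2) :=
        mul_le_mul_of_nonneg_right h8 (by positivity)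
      linarith
    linarith
  -- choose the budgets
  obtain ⟨G, hGsub, hGcard⟩ := Finset.exists_subset_card_eq hlJ
  refine ⟨m, hmR, ⟨m, l⟩, hl, fun s => (((G.orderEmbOfFin hGcard) (Fin.rev s) : Fin (m + 1)) : ℕ),
    ?_, fun s => Fin.isLt _, fun s => ?_⟩
  · intro s t hst
    have : Fin.rev t < Fin.rev s := Fin.rev_lt_rev.mpr hst
    exact (G.orderEmbOfFin hGcard).strictMono this
  · have hmem := hGsub (Finset.orderEmbOfFin_mem G hGcard (Fin.rev s))
    have hnb := (Finset.mem_filter.mp hmem).2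
    have hge : δ / 2 ≤ q s m (l, (G.orderEmbOfFin hGcard) (Fin.rev s)) := by
      by_contra hlt
      push Not at hlt
      exact hnb (Finset.mem_filter.mpr ⟨Finset.mem_univ _, s, hlt⟩)
    rw [hq] at hge
    dsimp only at hge
    rw [le_div_iff₀ hLpos] at hge
    have hCm := hCpos m
    have : δ / (2 * C m) * (S.lvl n).card = (δ / 2 * (S.lvl n).card) / C m := by
      field_simp
    show δ / (2 * C m) * (S.lvl n).card ≤ _
    rw [this, div_le_iff₀ hCm]
    exact hge

end PkgSTEP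

theorem pSTEP (hV : S_VAR) : S_STEP := by
  classical
  intro S J δ hδ σ hσ B₀ B hB₀ hB hd₀ hd
  -- the finite set R
  have hσ1 : (σ \ Set.Iio (2 * J)).Infinite := hσ.sdiff (Set.finite_Iio _)
  obtain ⟨K, hK⟩ := exists_nat_gt ((8 * J : ℝ) / δ ^ 3)
  obtain ⟨R, hRsub, hRcard⟩ := hσ1.exists_subset_card_eq K
  have hR1 : ∀ m ∈ R, m ∈ σ := fun m hm => (hRsub hm).1
  have hR2 : ∀ m ∈ R, 2 * J ≤ m := fun m hm => by
    have := (hRsub hm).2
    simpa using this
  set N := R.sup id with hN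
  have hR3 : ∀ m ∈ R, m ≤ N := fun m hm => Finset.le_sup (f := id) hm
  have hσ2 : (σ \ Set.Iic N).Infinite := hσ.sdiff (Set.finite_Iic _)
  set T : Finset (ℕ × S.X × (Fin J → ℕ)) :=
    R ×ˢ ((R.biUnion B₀) ×ˢ Fintype.piFinset (fun _ : Fin J => Finset.range (N + 1))) with hT
  set P : ℕ → (ℕ × S.X × (Fin J → ℕ)) → Prop := fun n t =>
    t.1 ∈ R ∧ t.2.1 ∈ B₀ t.1 ∧ StrictAnti t.2.2 ∧
      ∀ s, δ / (2 * (Fintype.card (S.A t.1 × Fin (t.1 + 1)) : ℝ)) * (S.lvl n).card ≤
        (((B s n).filter (fun w => S.pt t.1 w = t.2.1 ∧ S.bud t.1 w = t.2.2 s)).card : ℝ) with hP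
  have hex : ∀ n ∈ σ \ Set.Iic N, ∃ t ∈ T, P n t := by
    intro n hn
    have hnN : N < n := by simpa using hn.2
    obtain ⟨m, hm, x, hx, r, hr1, hr2, hr3⟩ := PkgSTEP.core hV S J δ hδ B₀ B hB₀ hB R hR2
      (fun m hm => hd₀ m (hR1 m hm)) (by rw [hRcard]; exact hK) n
      (fun m hm => lt_of_le_of_lt (hR3 m hm) hnN) (fun s => hd s n hn.1)
    refine ⟨(m, x, r), ?_, hm, hx, hr1, hr3⟩
    rw [hT, Finset.mem_product, Finset.mem_product]
    refine ⟨hm, Finset.mem_biUnion.mpr ⟨m, hm, hx⟩, ?_⟩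
    rw [Fintype.mem_piFinset]
    intro s
    have := hr2 s
    have := hR3 m hm
    exact Finset.mem_range.mpr (by dsimp only; omega)
  obtain ⟨t, -, ht⟩ : ∃ t ∈ T, {n ∈ σ \ Set.Iic N | P n t}.Infinite := by
    by_contra hcon
    push Not at hcon
    refine hσ2 (((T.finite_toSet).biUnion (fun t ht => hcon t ht)).subset ?_)
    intro n hn
    obtain ⟨t, ht, hPt⟩ := hex n hn
    exact Set.mem_biUnion (Finset.mem_coe.mpr ht) ⟨hn, hPt⟩
  obtain ⟨n₀, hn₀⟩ := ht.nonempty
  obtain ⟨hm, hx, hr, -⟩ := hn₀.2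
  refine ⟨t.1, hR1 _ hm, t.2.1, hx, t.2.2, hr,
    δ / (2 * (Fintype.card (S.A t.1 × Fin (t.1 + 1)) : ℝ)), ?_,
    {n ∈ σ \ Set.Iic N | P n t}, fun n hn => hn.1.1, ht, fun n hn => ⟨?_, hn.2.2.2.2⟩⟩
  · have : (0 : ℝ) < (Fintype.card (S.A t.1 × Fin (t.1 + 1)) : ℝ) := by
      exact_mod_cast Fintype.card_pos
    positivity
  · have h1 : N < n := by simpa using hn.1.2
    exact lt_of_le_of_lt (hR3 _ hm) h1

end Pool.Agent.T2H72.DC
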