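import Pool.Agent.T2H72.DC.Stm

/-! # Package VAR: Bessel inequality for the uniform probability on a finite product -/

set_option autoImplicit false

namespace Pool.Agent.T2H72.DC

open Finset

namespace VARp

variable {n : ℕ} {Y : Fin n → Type} [∀ j, Fintype (Y j)]

/-- exchange of a coordinate with an independent copy -/
theorem swap_sum (j : Fin n) (G : (∀ j, Y j) → ℝ) (h : Y j → ℝ)
    (hG : ∀ w x, G (Function.update w j x) = G w) :
    (Fintype.card (Y j) : ℝ) * ∑ w, G w * h (w j) = (∑ w, G w) * ∑ p, h p := by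
  classical
  let e : ((∀ j, Y j) × Y j) ≃ ((∀ j, Y j) × Y j) :=
    { toFun := fun q => (Function.update q.1 j q.2, q.1 j)
      invFun := fun q => (Function.update q.1 j q.2, q.1 j)
      left_inv := by
        rintro ⟨w, x⟩
        simp
      right_inv := by
        rintro ⟨w, x⟩
        simp }
  have h1 : ∑ q : (∀ j, Y j) × Y j, G q.1 * h q.2 = ∑ q : (∀ j, Y j) × Y j, G q.1 * h (q.1 j) := by
    refine Fintype.sum_equiv e _ _ ?_
    rintro ⟨w, x⟩
    simp [e, hG]
  rw [Fintype.sum_prod_type, Fintype.sum_prod_type] at h1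
  simp only [sum_const, card_univ, nsmul_eq_mul] at h1
  rw [Finset.mul_sum, ← h1, Finset.sum_mul_sum]

end VARp

open VARp

theorem pVAR : S_VAR := by
  classical
  intro n Y _ _ _ B
  set N : ℝ := (Fintype.card (∀ j, Y j) : ℝ) with hN
  have hN0 : 0 < N := by
    rw [hN]
    exact_mod_cast Fintype.card_pos
  have hc : ∀ j, 0 < (Fintype.card (Y j) : ℝ) := fun j => by exact_mod_cast Fintype.card_pos
  -- the deviations
  let d : ∀ j, Y j → ℝ := fun j p =>
    ((B.filter (fun w => w j = p)).card : ℝ) * Fintype.card (Y j) / N - (B.card : ℝ) / N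
  have hfib : ∀ j, ∑ p : Y j, ((B.filter (fun w => w j = p)).card : ℝ) = B.card := by
    intro j
    have := Finset.card_eq_sum_card_fiberwise (s := B) (t := Finset.univ) (f := fun w => w j)
      (fun _ _ => Finset.mem_coe.2 (Finset.mem_univ _))
    rw [this]
    push_cast
    rfl
  have hd0 : ∀ j, ∑ p, d j p = 0 := by
    intro j
    simp only [d]
    rw [Finset.sum_sub_distrib, ← Finset.sum_div, ← Finset.sum_mul, hfib j, Finset.sum_const,
      Finset.card_univ, nsmul_eq_mul]
    ring
  -- expectations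

  have hE1 : ∀ j, ∀ h : Y j → ℝ, ∑ w : (∀ j, Y j), h (w j) = N / Fintype.card (Y j) * ∑ p, h p := by
    intro j h
    have h1 := swap_sum j (fun _ => (1 : ℝ)) h (fun _ _ => rfl)
    simp only [one_mul, sum_const, card_univ, nsmul_eq_mul, mul_one] at h1
    rw [← hN] at h1
    field_simp [(hc j).ne']
    linarith
  have hcross : ∀ i j, i ≠ j → ∑ w : (∀ j, Y j), d i (w i) * d j (w j) = 0 := by
    intro i j hij
    have h1 := swap_sum j (fun w => d i (w i)) (d j) (fun w x => by
      rw [Function.update_of_ne hij])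
    rw [hd0 j, mul_zero] at h1
    rcases mul_eq_zero.1 h1 with h2 | h2
    · exact absurd h2 (hc j).ne'
    · exact h2
  set S : ℝ := ∑ j, (1 / (Fintype.card (Y j) : ℝ)) * ∑ p : Y j, (d j p) ^ 2 with hS
  have hB : ∀ j, ∑ w ∈ B, d j (w j) = N * ((1 / (Fintype.card (Y j) : ℝ)) * ∑ p, (d j p) ^ 2) := by
    intro j
    have h1 : ∑ w ∈ B, d j (w j) = ∑ p, ((B.filter (fun w => w j = p)).card : ℝ) * d j p := by
      rw [← Finset.sum_fiberwise B (fun w => w j) (fun w => d j (w j))]
      refine Finset.sum_congr rfl fun p _ => ?_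
      rw [Finset.sum_congr rfl (g := fun _ => d j p) (fun w hw => by
        rw [(Finset.mem_filter.1 hw).2]), Finset.sum_const, nsmul_eq_mul]
    have h2 : ∀ p, ((B.filter (fun w => w j = p)).card : ℝ) * d j p =
        N / Fintype.card (Y j) * ((d j p) ^ 2 + (B.card : ℝ) / N * d j p) := by
      intro p
      have h3 : ((B.filter (fun w => w j = p)).card : ℝ) =
          N / Fintype.card (Y j) * (d j p + (B.card : ℝ) / N) := by
        simp only [d]
        have := (hc j).ne'
        field_simp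
        ring
      rw [h3]
      ring
    rw [h1, Finset.sum_congr rfl fun p _ => h2 p, ← Finset.mul_sum, Finset.sum_add_distrib,
      ← Finset.mul_sum, hd0 j]
    ring
  have hB' : ∑ w ∈ B, ∑ j, d j (w j) = N * S := by
    rw [Finset.sum_comm, Finset.sum_congr rfl fun j _ => hB j, ← Finset.mul_sum]
  have hsq : ∑ w : (∀ j, Y j), (∑ j, d j (w j)) ^ 2 = N * S := by
    have h1 : ∀ w : (∀ j, Y j), (∑ j, d j (w j)) ^ 2 = ∑ i, ∑ j, d i (w i) * d j (w j) := by
      intro w
      rw [sq, Finset.sum_mul_sum]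
    rw [Finset.sum_congr rfl fun w _ => h1 w, Finset.sum_comm, hS, Finset.mul_sum]
    refine Finset.sum_congr rfl fun i _ => ?_
    rw [Finset.sum_comm, Finset.sum_eq_single i]
    · rw [hE1 i (fun p => d i p * d i p)]
      rw [Finset.sum_congr rfl (g := fun p => (d i p) ^ 2) (fun p _ => by ring)]
      ring
    · intro j _ hji
      exact hcross i j (Ne.symm hji)
    · intro h
      exact absurd (Finset.mem_univ i) h
  have hpos : 0 ≤ ∑ w : (∀ j, Y j), ((if w ∈ B then (1 : ℝ) else 0) - ∑ j, d j (w j)) ^ 2 :=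
    Finset.sum_nonneg fun _ _ => sq_nonneg _
  have hexp : ∑ w : (∀ j, Y j), ((if w ∈ B then (1 : ℝ) else 0) - ∑ j, d j (w j)) ^ 2 =
      B.card - 2 * (N * S) + N * S := by
    have h1 : ∀ w : (∀ j, Y j), ((if w ∈ B then (1 : ℝ) else 0) - ∑ j, d j (w j)) ^ 2 =
        (if w ∈ B then (1 : ℝ) else 0) - 2 * (if w ∈ B then ∑ j, d j (w j) else 0) +
          (∑ j, d j (w j)) ^ 2 := by
      intro w
      split_ifs <;> ring
    rw [Finset.sum_congr rfl fun w _ => h1 w, Finset.sum_add_distrib, Finset.sum_sub_distrib, hsq,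
      ← Finset.mul_sum]
    congr 1
    congr 1
    · simp
    · rw [← hB']
      simp
  rw [hexp] at hpos
  have hBN : (B.card : ℝ) ≤ N := by
    rw [hN]
    exact_mod_cast Finset.card_le_univ B
  have h5 : N * S ≤ N * 1 := by linarith
  exact le_of_mul_le_mul_left h5 hN0

end Pool.Agent.T2H72.DC
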