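import Pool.Agent.T2H72.DC.SYS
import Pool.Agent.T2H72.DC.KL
import Pool.Agent.T2H72.DC.SEL
import Pool.Agent.T2H72.DC.AVG
import Pool.Agent.T2H72.DC.ESYM
import Pool.Agent.T2H72.DC.DESC
import Pool.Agent.T2H72.DC.PRS
import Pool.Agent.T2H72.DC.NUM
import Pool.Agent.T2H72.DC.REM
import Pool.Agent.T2H72.DC.INEQ
import Pool.Agent.T2H72.DC.CB
import Pool.Agent.T2H72.DC.PG
import Pool.Agent.T2H72.DC.CA
import Pool.Agent.T2H72.DC.LOW
import Pool.Agent.T2H72.DC.UP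
import Pool.Agent.T2H72.DC.BLK
import Pool.Agent.T2H72.DC.FOUR
import Pool.Agent.T2H72.DC.VAR
import Pool.Agent.T2H72.DC.STEP
import Pool.Agent.T2H72.DC.FC
import Pool.Agent.T2H72.DC.NC1
import Pool.Agent.T2H72.DC.NC2
import Pool.Agent.T2H72.DC.NC
import Pool.Agent.T2H72.DC.FIN

set_option autoImplicit false

namespace Pool.Agent.T2H72.DC

open TopologicalSpace

theorem low_all : S_LOW :=
  pLOW pCA (pCB (pPRS pSEL (pDESC pAVG pESYM)) (pREM pNUM) pINEQ) pPG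

theorem fin_all :
    ∃ (E : Type) (_ : NormedAddCommGroup E) (_ : Lattice E) (_ : HasSolidNorm E)
      (_ : IsOrderedAddMonoid E) (_ : NormedSpace ℝ E) (_ : PosSMulMono ℝ E),
      CompleteSpace E ∧ SeparableSpace E ∧ IsDH E ∧ IsFourDH E ∧ ¬ IsDC E ∧
      ∃ x : ℕ → E, DisjSeq x ∧ (∀ n, ‖x n‖ = 1) ∧
        ∀ φ : ℕ → ℕ, StrictMono φ → ¬ ComplSpan (x ∘ φ) :=
  fin_assembly pSYS pKL (pFOUR pBLK pUP low_all) (pNC (pFC (pSTEP pVAR)) pNC1 (pNC2 low_all))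

end Pool.Agent.T2H72.DC
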