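import Mathlib

/-!
# A separable `4`-DH Banach lattice which is not disjointly complemented (MP_eafca2_an)

Definitions and first lemmas.
-/

set_option autoImplicit false

namespace Pool.Agent.T2H72.DC

open Finset Filter

/-- A system of labels: level `n` carries a finite nonempty set `A n`; a label of level `n` is the same
thing as a family, indexed by `j < n`, of a label of level `j` and a budget in `{0, …, j}`. -/
structure Sys where
  A : ℕ → Type
  fin : ∀ n, Fintype (A n)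
  dec : ∀ n, DecidableEq (A n)
  ne : ∀ n, Nonempty (A n)
  e : ∀ n, A n ≃ ((j : Fin n) → A j × Fin ((j : ℕ) + 1))

instance (S : Sys) (n : ℕ) : Fintype (S.A n) := S.fin n
instance (S : Sys) (n : ℕ) : DecidableEq (S.A n) := S.dec n
instance (S : Sys) (n : ℕ) : Nonempty (S.A n) := S.ne n

/-- The nodes: pairs (level, label). The level of `x` is `x.1`. -/
abbrev Sys.X (S : Sys) : Type := Σ n, S.A n

/-- The node of level `n` to which `y` points (`y` itself if the level of `y` is `≤ n`). -/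
def Sys.pt (S : Sys) (n : ℕ) (y : S.X) : S.X :=
  if h : n < y.1 then ⟨n, (S.e y.1 y.2 ⟨n, h⟩).1⟩ else y

/-- The budget of `y` at level `n` (`0` if the level of `y` is `≤ n`). -/
def Sys.bud (S : Sys) (n : ℕ) (y : S.X) : ℕ :=
  if h : n < y.1 then ((S.e y.1 y.2 ⟨n, h⟩).2 : ℕ) else 0

/-- The nodes of level `n`. -/
def Sys.lvl (S : Sys) (n : ℕ) : Finset S.X :=
  (Finset.univ : Finset (S.A n)).map ⟨Sigma.mk n, sigma_mk_injective⟩

/-- Coherent finite sets of nodes: at most one node of each level, each node points to all the previous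
ones, and for every node `x` the budgets at `x` of the later nodes are strictly decreasing. -/
def Sys.Coh (S : Sys) (F : Finset S.X) : Prop :=
  (∀ x ∈ F, ∀ y ∈ F, x.1 = y.1 → x = y) ∧
  (∀ x ∈ F, ∀ y ∈ F, x.1 < y.1 → S.pt x.1 y = x) ∧
  (∀ x ∈ F, ∀ y ∈ F, ∀ z ∈ F, x.1 < y.1 → y.1 < z.1 → S.bud x.1 z < S.bud x.1 y)

/-- `F 0 < F 1 < … < F (r-1)`: coherent sets, successive with respect to the levels. -/
def Sys.Suc (S : Sys) (r : ℕ) (F : ℕ → Finset S.X) : Prop :=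
  (∀ i < r, S.Coh (F i)) ∧ ∀ i j, i < j → j < r → ∀ x ∈ F i, ∀ y ∈ F j, x.1 < y.1

/-- `‖f‖_*^{4/3} ≤ M` (used for `f ≥ 0`). -/
def Sys.Bd (S : Sys) (f : S.X → ℝ) (M : ℝ) : Prop :=
  ∀ (r : ℕ) (F : ℕ → Finset S.X), S.Suc r F →
    ∑ i ∈ Finset.range r, (∑ x ∈ F i, f x) ^ (4 / 3 : ℝ) ≤ M

/-- The norming set: the nonnegative functions of dual norm `≤ 1`. -/
def Sys.Phi (S : Sys) : Set (S.X → ℝ) := {f | (∀ x, 0 ≤ f x) ∧ S.Bd f 1}

/-- `‖u‖ ≤ c` for the norm given by the norming set `Φ`: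
`∑_{s} f |u| ≤ c` for all `f ∈ Φ` and all finite sets `s`. -/
def NLe {ι : Type} (Φ : Set (ι → ℝ)) (u : ι → ℝ) (c : ℝ) : Prop :=
  ∀ f ∈ Φ, ∀ s : Finset ι, ∑ x ∈ s, f x * |u x| ≤ c

/-- Finite sets of nodes, successive with respect to the levels. -/
def Sys.Blk (S : Sys) (T : ℕ → Finset S.X) : Prop :=
  ∀ i j, i < j → ∀ x ∈ T i, ∀ y ∈ T j, x.1 < y.1

/-- The lower `4`-estimate in dual form: there are `c, C > 0` such that for all coefficients `b ≥ 0` there are
functions `g k ≥ 0` carried by `T k`, with `⟨g k, |u k|⟩ ≥ c`, and `‖∑ b k g k‖_*^{4/3} ≤ C ∑ (b k)^{4/3}`. -/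
def Sys.DL (S : Sys) (T : ℕ → Finset S.X) (u : ℕ → S.X → ℝ) : Prop :=
  ∃ c > 0, ∃ C > 0, ∀ b : ℕ → ℝ, (∀ k, 0 ≤ b k) → ∀ n : ℕ, ∃ g : ℕ → S.X → ℝ,
    (∀ k x, 0 ≤ g k x) ∧ (∀ k, ∀ x, x ∉ T k → g k x = 0) ∧
    (∀ k < n, c ≤ ∑ x ∈ T k, g k x * |u k x|) ∧
    S.Bd (fun x => ∑ k ∈ Finset.range n, b k * g k x) (C * ∑ k ∈ Finset.range n, (b k) ^ (4 / 3 : ℝ))

/-- A separable Banach lattice of functions on `ι`, with the norm given by `Φ`, in which the finitely
supported functions are dense. `toFun` is the coordinate map. -/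
structure Model (ι : Type) (Φ : Set (ι → ℝ)) where
  E : Type
  [i1 : NormedAddCommGroup E]
  [i2 : Lattice E]
  [i3 : HasSolidNorm E]
  [i4 : IsOrderedAddMonoid E]
  [i5 : NormedSpace ℝ E]
  [i6 : PosSMulMono ℝ E]
  [i7 : CompleteSpace E]
  [i8 : TopologicalSpace.SeparableSpace E]
  toFun : E →ₗ[ℝ] (ι → ℝ)
  inj : Function.Injective toFun
  map_sup : ∀ x y i, toFun (x ⊔ y) i = max (toFun x i) (toFun y i)
  map_inf : ∀ x y i, toFun (x ⊓ y) i = min (toFun x i) (toFun y i)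
  norm_le : ∀ x c, ‖x‖ ≤ c ↔ NLe Φ (toFun x) c
  fin_supp : ∀ u : ι → ℝ, (Function.support u).Finite → ∃ x, toFun x = u
  tail : ∀ x, ∀ ε > (0 : ℝ), ∃ s : Finset ι, NLe Φ ((↑s : Set ι)ᶜ.indicator (toFun x)) ε

attribute [instance] Model.i1 Model.i2 Model.i3 Model.i4 Model.i5 Model.i6 Model.i7 Model.i8

/-! ### Iterated quantifiers along a filter -/

/-- `It U r G`: `∀ᶠ k₁ in U, ∀ᶠ k₂ in U, …, ∀ᶠ k_r in U, G [k₁, …, k_r]`. -/
def It (U : Filter ℕ) : ℕ → (List ℕ → Prop) → Prop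
  | 0, G => G []
  | r + 1, G => ∀ᶠ k in U, It U r (fun l => G (k :: l))

open Classical in
/-- The mass (for the weights `ν`) of the set where `X k₁ > X k₂ > … > X k_r`, `l = [k₁, …, k_r]`. -/
noncomputable def dpr {Ω : Type} [Fintype Ω] (ν : Ω → ℝ) (X : ℕ → Ω → ℕ) (l : List ℕ) : ℝ :=
  ∑ ω, if l.Pairwise (fun k k' => X k' ω < X k ω) then ν ω else 0

/-! ### First lemmas -/

section basic
variable {S : Sys}

theorem mem_lvl {n : ℕ} {x : S.X} : x ∈ S.lvl n ↔ x.1 = n := by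
  unfold Sys.lvl
  simp only [Finset.mem_map, Finset.mem_univ, Function.Embedding.coeFn_mk, true_and]
  constructor
  · rintro ⟨a, rfl⟩
    rfl
  · rintro rfl
    exact ⟨x.2, rfl⟩

theorem card_lvl (n : ℕ) : (S.lvl n).card = Fintype.card (S.A n) := by
  unfold Sys.lvl
  rw [Finset.card_map, Finset.card_univ]

theorem card_lvl_pos (n : ℕ) : 0 < (S.lvl n).card := by
  rw [card_lvl]
  exact Fintype.card_pos

/-- `card (A n) = ∏_{j<n} card (A j) * (j+1)` -/
theorem card_A (n : ℕ) :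
    Fintype.card (S.A n) = ∏ j : Fin n, Fintype.card (S.A j) * ((j : ℕ) + 1) := by
  rw [Fintype.card_congr (S.e n), Fintype.card_pi]
  refine Finset.prod_congr rfl fun j _ => ?_
  rw [Fintype.card_prod, Fintype.card_fin]

theorem pt_fst {n : ℕ} {y : S.X} (h : n < y.1) : (S.pt n y).1 = n := by
  unfold Sys.pt
  rw [dif_pos h]

theorem bud_lt (n : ℕ) (y : S.X) : S.bud n y < n + 1 := by
  unfold Sys.bud
  split_ifs with h
  · exact (S.e y.1 y.2 ⟨n, h⟩).2.2
  · exact Nat.succ_pos n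

theorem Coh.subset {F G : Finset S.X} (h : S.Coh F) (hG : G ⊆ F) : S.Coh G :=
  ⟨fun x hx y hy => h.1 x (hG hx) y (hG hy), fun x hx y hy => h.2.1 x (hG hx) y (hG hy),
    fun x hx y hy z hz => h.2.2 x (hG hx) y (hG hy) z (hG hz)⟩

theorem coh_empty : S.Coh ∅ := by
  refine ⟨?_, ?_, ?_⟩ <;> simp

theorem coh_single (x : S.X) : S.Coh {x} := by
  refine ⟨?_, ?_, ?_⟩
  · intro a ha b hb _
    rw [Finset.mem_singleton] at ha hb
    rw [ha, hb]
  · intro a ha b hb h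
    rw [Finset.mem_singleton] at ha hb
    rw [ha, hb] at h
    exact absurd h (lt_irrefl _)
  · intro a ha b hb c _ h _
    rw [Finset.mem_singleton] at ha hb
    rw [ha, hb] at h
    exact absurd h (lt_irrefl _)

/-- A coherent set has at most `n + 1` nodes above a node of level `n`. -/
theorem Coh.card_above {F : Finset S.X} (h : S.Coh F) {x : S.X} (hx : x ∈ F) :
    (F.filter (fun y => x.1 < y.1)).card ≤ x.1 + 1 := by
  have h1 : ((F.filter (fun y => x.1 < y.1)).image (S.bud x.1)).card =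
      (F.filter (fun y => x.1 < y.1)).card := by
    apply Finset.card_image_of_injOn
    intro y hy z hz hyz
    simp only [Finset.coe_filter, Set.mem_ofPred_eq] at hy hz
    rcases lt_trichotomy y.1 z.1 with h2 | h2 | h2
    · have := h.2.2 x hx y hy.1 z hz.1 hy.2 h2
      omega
    · exact h.1 y hy.1 z hz.1 h2
    · have := h.2.2 x hx z hz.1 y hy.1 hz.2 h2
      omega
  rw [← h1]
  calc _ ≤ (Finset.range (x.1 + 1)).card := by
        apply Finset.card_le_card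
        intro b hb
        rw [Finset.mem_image] at hb
        obtain ⟨y, _, rfl⟩ := hb
        rw [Finset.mem_range]
        exact bud_lt _ _
    _ = x.1 + 1 := Finset.card_range _

/-- One coherent set: `∑_F f ≤ M^{3/4}`, in the form `(∑_F f)^{4/3} ≤ M`. -/
theorem Bd.one {f : S.X → ℝ} {M : ℝ} (h : S.Bd f M) {F : Finset S.X} (hF : S.Coh F) :
    (∑ x ∈ F, f x) ^ (4 / 3 : ℝ) ≤ M := by
  have := h 1 (fun _ => F) ⟨fun _ _ => hF, fun i j hij hj => by omega⟩
  simpa using this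

theorem Bd.nonneg {f : S.X → ℝ} {M : ℝ} (h : S.Bd f M) : 0 ≤ M := by
  have := h 0 (fun _ => ∅) ⟨fun i hi => by omega, fun i j hij hj => by omega⟩
  simpa using this

theorem Phi.sum_le_one {f : S.X → ℝ} (h : f ∈ S.Phi) {F : Finset S.X} (hF : S.Coh F) :
    ∑ x ∈ F, f x ≤ 1 := by
  by_contra hc
  push Not at hc
  have h1 := Bd.one h.2 hF
  have h2 : (1 : ℝ) < (∑ x ∈ F, f x) ^ (4 / 3 : ℝ) := Real.one_lt_rpow hc (by norm_num)
  linarith

theorem Phi.le_one {f : S.X → ℝ} (h : f ∈ S.Phi) (x : S.X) : f x ≤ 1 := by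
  have := Phi.sum_le_one h (coh_single x)
  simpa using this

theorem Bd.mono {f g : S.X → ℝ} {M : ℝ} (hf : ∀ x, 0 ≤ f x) (hfg : ∀ x, f x ≤ g x) (h : S.Bd g M) :
    S.Bd f M := by
  intro r F hF
  refine le_trans (Finset.sum_le_sum fun i _ => ?_) (h r F hF)
  exact Real.rpow_le_rpow (Finset.sum_nonneg fun x _ => hf x)
    (Finset.sum_le_sum fun x _ => hfg x) (by norm_num)

theorem Bd.mono_right {f : S.X → ℝ} {M M' : ℝ} (h : S.Bd f M) (hM : M ≤ M') : S.Bd f M' :=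
  fun r F hF => (h r F hF).trans hM

theorem Bd.smul {f : S.X → ℝ} {M : ℝ} (hf : ∀ x, 0 ≤ f x) (h : S.Bd f M) {t : ℝ} (ht : 0 ≤ t) :
    S.Bd (fun x => t * f x) (t ^ (4 / 3 : ℝ) * M) := by
  intro r F hF
  have h1 : ∀ i ∈ Finset.range r, (∑ x ∈ F i, t * f x) ^ (4 / 3 : ℝ) =
      t ^ (4 / 3 : ℝ) * (∑ x ∈ F i, f x) ^ (4 / 3 : ℝ) := fun i _ => by
    rw [← Finset.mul_sum, Real.mul_rpow ht (Finset.sum_nonneg fun x _ => hf x)]
  rw [Finset.sum_congr rfl h1, ← Finset.mul_sum]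
  exact mul_le_mul_of_nonneg_left (h r F hF) (Real.rpow_nonneg ht _)

/-- Normalisation: if `‖f‖_*^{4/3} ≤ M` then `M^{-3/4} f` is in `Phi`. -/
theorem Bd.normalize {f : S.X → ℝ} {M : ℝ} (hf : ∀ x, 0 ≤ f x) (h : S.Bd f M) (hM : 0 < M) :
    (fun x => M ^ (-(3 / 4) : ℝ) * f x) ∈ S.Phi := by
  refine ⟨fun x => mul_nonneg (Real.rpow_nonneg hM.le _) (hf x), ?_⟩
  have h1 := Bd.smul hf h (Real.rpow_nonneg hM.le (-(3 / 4)))
  rw [← Real.rpow_mul hM.le] at h1
  norm_num at h1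
  rw [Real.rpow_neg_one, inv_mul_cancel₀ hM.ne'] at h1
  convert h1 using 4

theorem zero_mem_Phi : (fun _ => (0 : ℝ)) ∈ S.Phi := by
  refine ⟨fun _ => le_rfl, fun r F _ => ?_⟩
  simp

/-- The indicator function of a level is in `Phi`. -/
theorem lvl_mem_Phi (n : ℕ) : (fun y : S.X => if y.1 = n then (1 : ℝ) else 0) ∈ S.Phi := by
  refine ⟨fun y => by dsimp only; split_ifs <;> norm_num, fun r F hF => ?_⟩
  have hle : ∀ i < r, (∑ x ∈ F i, if x.1 = n then (1 : ℝ) else 0) ≤ 1 := by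
    intro i hi
    rw [Finset.sum_boole]
    have h1 : ((F i).filter (fun x => x.1 = n)).card ≤ 1 := by
      rw [Finset.card_le_one]
      intro a ha b hb
      rw [Finset.mem_filter] at ha hb
      exact (hF.1 i hi).1 a ha.1 b hb.1 (ha.2.trans hb.2.symm)
    exact_mod_cast h1
  have hnn : ∀ i, 0 ≤ (∑ x ∈ F i, if x.1 = n then (1 : ℝ) else 0) := fun i =>
    Finset.sum_nonneg fun x _ => by split_ifs <;> norm_num
  by_cases h : ∃ i < r, ∃ x ∈ F i, x.1 = n
  · obtain ⟨i, hi, x, hx, hxn⟩ := h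
    rw [Finset.sum_eq_single i]
    · exact Real.rpow_le_one (hnn i) (hle i hi) (by norm_num)
    · intro j hj hji
      rw [Finset.mem_range] at hj
      have h0 : (∑ x ∈ F j, if x.1 = n then (1 : ℝ) else 0) = 0 := by
        refine Finset.sum_eq_zero fun y hy => ?_
        rw [if_neg]
        intro hyn
        rcases lt_or_gt_of_ne hji with h2 | h2
        · have := hF.2 j i h2 hi y hy x hx
          omega
        · have := hF.2 i j h2 hj x hx y hy
          omega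
      rw [h0, Real.zero_rpow (by norm_num)]
    · intro h2
      exact absurd (Finset.mem_range.mpr hi) h2
  · push Not at h
    have h0 : ∀ j ∈ Finset.range r, (∑ x ∈ F j, if x.1 = n then (1 : ℝ) else 0) ^ (4 / 3 : ℝ) = 0 := by
      intro j hj
      rw [Finset.mem_range] at hj
      have h0 : (∑ x ∈ F j, if x.1 = n then (1 : ℝ) else 0) = 0 := by
        refine Finset.sum_eq_zero fun y hy => ?_
        rw [if_neg (h j hj y hy)]
      rw [h0, Real.zero_rpow (by norm_num)]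
    rw [Finset.sum_eq_zero h0]
    norm_num

end basic

section nle
variable {ι : Type} {Φ : Set (ι → ℝ)}

theorem NLe.mono (hΦ : ∀ f ∈ Φ, ∀ i, 0 ≤ f i) {u v : ι → ℝ} {c : ℝ} (h : NLe Φ v c)
    (huv : ∀ i, |u i| ≤ |v i|) : NLe Φ u c := fun f hf s =>
  (Finset.sum_le_sum fun i _ => mul_le_mul_of_nonneg_left (huv i) (hΦ f hf i)).trans (h f hf s)

theorem NLe.mono_right {u : ι → ℝ} {c c' : ℝ} (h : NLe Φ u c) (hc : c ≤ c') : NLe Φ u c' :=
  fun f hf s => (h f hf s).trans hc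

theorem NLe.add (hΦ : ∀ f ∈ Φ, ∀ i, 0 ≤ f i) {u v : ι → ℝ} {c d : ℝ} (hu : NLe Φ u c)
    (hv : NLe Φ v d) : NLe Φ (fun i => u i + v i) (c + d) := fun f hf s => by
  refine le_trans ?_ (add_le_add (hu f hf s) (hv f hf s))
  rw [← Finset.sum_add_distrib]
  refine Finset.sum_le_sum fun i _ => ?_
  rw [← mul_add]
  exact mul_le_mul_of_nonneg_left (abs_add_le _ _) (hΦ f hf i)

theorem NLe.smul {u : ι → ℝ} {c : ℝ} (hu : NLe Φ u c) (t : ℝ) :
    NLe Φ (fun i => t * u i) (|t| * c) := fun f hf s => by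
  have h1 : ∑ x ∈ s, f x * |t * u x| = |t| * ∑ x ∈ s, f x * |u x| := by
    rw [Finset.mul_sum]
    refine Finset.sum_congr rfl fun i _ => ?_
    rw [abs_mul]
    ring
  rw [h1]
  exact mul_le_mul_of_nonneg_left (hu f hf s) (abs_nonneg t)

end nle

end Pool.Agent.T2H72.DC
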