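import Pool.Agent.T2H72.DC.Stm

set_option autoImplicit false

namespace Pool.Agent.T2H72.DC

open Finset

/-- cardinalities of the sets of labels -/
def sysN (n : ℕ) : ℕ := ∏ j : Fin n, sysN j * ((j : ℕ) + 1)
  termination_by n
  decreasing_by exact j.2

theorem sysN_eq (n : ℕ) : sysN n = ∏ j : Fin n, sysN j * ((j : ℕ) + 1) := by
  rw [sysN]

theorem sysN_pos (n : ℕ) : 0 < sysN n := by
  induction n using Nat.strong_induction_on with
  | _ n ih =>
    rw [sysN_eq]
    apply Finset.prod_pos
    intro j _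
    exact Nat.mul_pos (ih j j.2) (Nat.succ_pos _)

theorem pSYS : S_SYS := by
  refine ⟨Sys.mk (fun n => Fin (sysN n)) (fun n => inferInstance) (fun n => inferInstance)
    (fun n => ⟨⟨0, sysN_pos n⟩⟩) (fun n => Fintype.equivOfCardEq ?_)⟩
  rw [Fintype.card_fin, Fintype.card_pi, sysN_eq]
  refine Finset.prod_congr rfl fun j _ => ?_
  rw [Fintype.card_prod, Fintype.card_fin, Fintype.card_fin]

end Pool.Agent.T2H72.DC
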