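import Pool.Agent.T2H72.DC.Defs

/-!
# Statements of the packages (project DC, MP_eafca2_an)

Overview. `S.X` is the countable set of nodes, `S.Phi` the set of functions `f ≥ 0` with dual norm `≤ 1`, where
`‖f‖_* = sup (∑_i (∑_{F_i} f)^{4/3})^{3/4}` over successive coherent sets `F_1 < F_2 < …`. The lattice is
`E = {u : X → ℝ}` with `‖u‖ = sup_{f ∈ Phi} ∑ f |u|` (closure of the finitely supported functions).
* upper `4`-estimate for blocks: UP; lower `4`-estimate for a subsequence of blocks: LOW (from CA, CB, PG);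
* LOW, case B (CB): SEL, AVG, ESYM, DESC, PRS (probability), NUM, REM (removal), INEQ;
* not complemented: VAR, STEP, FC (dense sets contain long coherent sets), NC.

File of package `X`: `Pool/Agent/T2H72/DC/X.lean`, theorem `pX : S_X` (with the hypotheses named in the docstring,
e.g. `theorem pDESC (hA : S_AVG) (hE : S_ESYM) : S_DESC`).
-/

set_option autoImplicit false

namespace Pool.Agent.T2H72.DC

open Finset Filter

/-! ### The lattice -/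

/-- SYS (15 min). Labels exist. Proof: define `N : ℕ → ℕ` by strong recursion with
`N n = ∏ j : Fin n, N j * (j+1)`; it is positive; `A n = Fin (N n)`; the equivalence `e n` comes from the
equality of the cardinalities (`Fintype.equivOfCardEq`, `Fintype.card_pi`, `Fintype.card_prod`). -/
def S_SYS : Prop := Nonempty Sys

/-- KL (75 min). The Banach lattice. Let `E` be the set (a submodule) of all `u : ι → ℝ` such that for every `ε > 0` there is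
a finite `s` with `NLe Φ (sᶜ.indicator u) ε`, with `‖u‖ = sSup {∑_{s} f |u| : f ∈ Φ, s finite}`
(bounded above: `∑_t f|u| ≤ ∑_s |u| + ε`, because `f ≤ 1`). Coordinatewise order and lattice operations
(`|max u v| ≤ |u| + |v|`, so `E` is a sublattice). `|u i| ≤ ‖u‖` because some `f ∈ Φ` has `f i = 1`. Solid norm: clear.
Complete: a Cauchy sequence `u_n` converges at every coordinate, to `u`; if `‖u_n - u_m‖ ≤ ε` for `m ≥ n` then
`NLe Φ (u_n - u) ε` (limit in the finite sums), so `u ∈ E` (use the tail of `u_n`) and `u_n → u`.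
Separable: the finitely supported functions with rational values are countably many and dense.
`norm_le`: `Φ` is nonempty, so `NLe Φ u c` implies `0 ≤ c` (empty `s`). -/
def S_KL : Prop := ∀ (ι : Type) [Countable ι] (Φ : Set (ι → ℝ)), Φ.Nonempty →
  (∀ f ∈ Φ, ∀ i, 0 ≤ f i ∧ f i ≤ 1) → (∀ i, ∃ f ∈ Φ, f i = 1) → Nonempty (Model ι Φ)

/-! ### Probability -/

/-- SEL (50 min). Selection of a subsequence from iterated quantifiers. Proof: choose `s₀ < s₁ < …` one after the other such that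
(*) for every `i` chosen, every increasing list `l` of chosen numbers `> i` and every `r`:
`It U r (fun l' => G i (l ++ l'))`.
If (*) holds for `s₀, …, s_{n-1}`, then for the finitely many `(i, l)` and for the finitely many `r ≤ N i + 1`, the set
of the `k` with `It U r (fun l' => G i (l ++ k :: l'))` is in `U` (this is (*) for `r + 1`); take `k > s_{n-1}` in the
intersection. Then (*) holds for `(i, l ++ [k])`: for `r ≤ N i + 1` by the choice, for larger `r` because all lists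
`l ++ [k] ++ l'` are longer than `N i` (lemma: if `G l'` for all `l'` of length `r` then `It U r G`). For the new head
`i = k`, `l = []` use the hypothesis `∀ i r, It U r (G i)`. At the end take `r = 0`. -/
def S_SEL : Prop := ∀ (U : Filter ℕ) [U.NeBot], U ≤ cofinite → ∀ (G : ℕ → List ℕ → Prop) (N : ℕ → ℕ),
  (∀ i l, N i < l.length → G i l) → (∀ i r, It U r (G i)) →
  ∃ φ : ℕ → ℕ, StrictMono φ ∧ ∀ i l, (i :: l).Pairwise (· < ·) → G (φ i) (l.map φ)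

/-- AVG (75 min). Weak limits are approximated by convex combinations. Proof (no functional analysis needed): for a
bounded family `W = (W_m)` let `p(W) = lim_{m → U} ∑_ω ν m ω W_m(ω)` (limit along the ultrafilter of a bounded
sequence; linear, monotone, `p(W) ≤ sup |W|`). For a set `V ∈ U` let `conv V` be the set of the families
`z_a = ∑_{k ∈ K} c_k x^k_a` (`K ⊆ V` finite, `c ≥ 0`, `∑ c = 1`), `Q(z) = ∑_a p(z_a²) ∈ [0, h]`, and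
`d(V) = inf_{conv V} Q`; `V ⊆ V'` implies `d(V) ≥ d(V')`. Let `D = sup_{V ∈ U} d(V)`, take `V₀ ∈ U` with
`d(V₀) > D - δ` and `z ∈ conv V₀` with `Q(z) < d(V₀) + δ`. This `z` works, if `8δ ≤ (ε/4)²`: given `Z` and `a` let
`λ = lim_{k → U} p(Z x^k_a)`, `V = V₀ ∩ {k : |p(Z x^k_a) - λ| < ε/4} ∈ U`, `z' ∈ conv V` with
`Q(z') < d(V) + δ ≤ D + δ`. Since `(z+z')/2 ∈ conv V₀`,
`Q(z - z') = 2Q(z) + 2Q(z') - 4Q((z+z')/2) ≤ 4(D+δ) - 4(D-δ) = 8δ`, so by Cauchy-Schwarz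
`|p(Z(z_a - z'_a))| ≤ ε/4`. Also `|p(Z z'_a) - λ| ≤ ε/4`. So for `k ∈ V`: `|p(Z(x^k_a - z_a))| ≤ 3ε/4`, hence
`|∑ ν Z (x^k_a - z_a)| ≤ ε` for `U`-almost all `m`.
(Alternatively: Hilbert space completion and Mazur. If `h = 0` everything is trivial: take `K = {0}`.) -/
def S_AVG : Prop := ∀ (U : Ultrafilter ℕ) (Ω : ℕ → Type) [∀ m, Fintype (Ω m)] (ν : ∀ m, Ω m → ℝ),
  (∀ m ω, 0 ≤ ν m ω) → (∀ m, ∑ ω, ν m ω = 1) →
  ∀ (h : ℕ) (x : ℕ → ∀ m, Ω m → Fin h → ℝ), (∀ k m ω a, 0 ≤ x k m ω a ∧ x k m ω a ≤ 1) →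
  ∀ ε : ℝ, 0 < ε → ∃ (K : Finset ℕ) (c : ℕ → ℝ), (∀ k, 0 ≤ c k) ∧ ∑ k ∈ K, c k = 1 ∧
    ∀ Z : ∀ m, Ω m → ℝ, (∀ m ω, |Z m ω| ≤ 1) → ∀ a : Fin h,
      ∀ᶠ k in (U : Filter ℕ), ∀ᶠ m in (U : Filter ℕ),
        |∑ ω, ν m ω * Z m ω * (x k m ω a - ∑ k' ∈ K, c k' * x k' m ω a)| ≤ ε

/-- ESYM (40 min). `e_r(z) ≤ (∑ z)^r / r!`. Proof: `(∑ z)^r` is the sum of `∏ z (a i)` over all `a : Fin r → Fin h`
(`Finset.prod_univ_sum` or `Finset.sum_pow'`), and for strictly decreasing `a` the `r!` functions `a ∘ σ`, `σ` a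
permutation of `Fin r`, have the same product, and `(a, σ) ↦ a ∘ σ` is injective. Or induction on `r`. -/
def S_ESYM : Prop := ∀ (h r : ℕ) (z : Fin h → ℝ), (∀ a, 0 ≤ z a) →
  ∑ a ∈ (Finset.univ : Finset (Fin r → Fin h)).filter (fun a => ∀ i j, i < j → a j < a i),
    ∏ i, z (a i) ≤ (∑ a, z a) ^ r / (r.factorial : ℝ)

/-- DESC (60 min), from `S_AVG`, `S_ESYM`. Proof: let `x k m ω a = 1` if `X k m ω = a` and `0` otherwise (`a : Fin h`).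
Let `ε > 0` with `h^r * r * ε ≤ 1/r!` and let `K, c` be given by AVG, `z m ω a = ∑_{k∈K} c k * x k m ω a`, so `z ≥ 0`,
`∑_a z_a = 1`. Claim, by induction on `r`: for every `Z` with `|Z| ≤ 1` and `a : Fin r → Fin h`,
`It U r (fun l => ∀ᶠ m in U, |∑ ν Z ∏_j x (l.getD j 0) m ω (a j) - ∑ ν Z ∏_j z m ω (a j)| ≤ r ε)`.
Step `r → r+1`: for fixed first element `k` use the claim for `Z' = Z * x^k_{a 0}` and `Fin.tail a` (error `r ε`), then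
`AVG` for `Z'' = Z ∏_{j ≥ 1} z_{a j}` (error `ε`, for `U`-almost all `k`). (`It` commutes with finite intersections
and is monotone.) Summing over the strictly decreasing `a : Fin r → Fin h`:
`dpr (ν m) X l = ∑_{a decreasing} ∑ ν ∏_j x (l_j) (a j) ≤ ∑ ν (∑_{a decreasing} ∏_j z (a j)) + h^r r ε
≤ 1/r! + 1/r!` by ESYM. -/
def S_DESC : Prop := ∀ (U : Ultrafilter ℕ) (Ω : ℕ → Type) [∀ m, Fintype (Ω m)] (ν : ∀ m, Ω m → ℝ),
  (∀ m ω, 0 ≤ ν m ω) → (∀ m, ∑ ω, ν m ω = 1) →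
  ∀ (h : ℕ) (X : ℕ → ∀ m, Ω m → ℕ), (∀ k m ω, X k m ω < h) →
  ∀ r : ℕ, It U r (fun l => ∀ᶠ m in (U : Filter ℕ), dpr (ν m) (fun k => X k m) l ≤ 2 / (r.factorial : ℝ))

/-- `x` (of level `n k`, say) is the top of a coherent set with a node of level `n j` for each `j ∈ K`. -/
def Top (S : Sys) (n : ℕ → ℕ) (K : Finset ℕ) (x : S.X) : Prop :=
  ∃ F, S.Coh F ∧ x ∈ F ∧ ∀ j ∈ K, ∃ y ∈ F, y.1 = n j

/-- Small probability of coherence (for probabilities `ν k` on the nodes of level `n k`). -/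
def Small (S : Sys) (n : ℕ → ℕ) (ν : ℕ → S.X → ℝ) : Prop :=
  (∀ k x, 0 ≤ ν k x) ∧ (∀ k, ∑ x ∈ S.lvl (n k), ν k x = 1) ∧
  ∀ (K : Finset ℕ) (k : ℕ), (∀ j ∈ K, j < k) → K.Nonempty → ∀ B : Finset S.X, B ⊆ S.lvl (n k) →
    (∀ x ∈ B, Top S n K x) → ∑ x ∈ B, ν k x ≤ 2 / ((K.card - 1).factorial : ℝ)

/-- PRS (60 min), from `S_SEL`, `S_DESC`. Proof: `U = hyperfilter ℕ`, `Ω m = S.A (n m)`, `ν m ω = ν m ⟨n m, ω⟩`. For every
`i` apply DESC with `X k m ω = S.bud (n i) (S.pt (n k) ⟨n m, ω⟩)`, `h = n i + 1`: for all `r`,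
`∀ᶠ k₁ … ∀ᶠ k_r ∀ᶠ m, P_m (X^{k₁} > … > X^{k_r}) ≤ 2/r!`. Let `G i l` say: if `l = l' ++ [m]` then
`dpr (ν m) (X^·) l' ≤ 2 / l'.length!` (true for `l = []`; for `l'.length > n i + 1` true, because `n i + 2` strictly
decreasing numbers `< n i + 1` do not exist, the mass is `0`). By SEL there is `φ` with `G (φ i) (l.map φ)` for all increasing
`i :: l`. Now let `K = {j₁ < … < j_r}`, `k > j_r` and `x` of level `n (φ k)` with `Top`, `F` the coherent set,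
`y_j ∈ F` of level `n (φ j)`. By coherence `y_j = S.pt (n (φ j)) x` and
`bud (n (φ j₁)) y_{j₂} > … > bud (n (φ j₁)) y_{j_r}`: this is the event with `i = j₁`, `l' = [j₂, …, j_r]`,
`m = k`, of probability `≤ 2/(r-1)!`. -/
def S_PRS : Prop := ∀ (S : Sys) (n : ℕ → ℕ), StrictMono n → ∀ ν : ℕ → S.X → ℝ, (∀ k x, 0 ≤ ν k x) →
  (∀ k, ∑ x ∈ S.lvl (n k), ν k x = 1) →
  ∃ φ : ℕ → ℕ, StrictMono φ ∧ Small S (n ∘ φ) (ν ∘ φ)

/-! ### Removal -/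

/-- NUM (30 min). Proof: `(Nat.sqrt (J^3)).choose (J-1) ≤ (J^{3/2})^{J-1}/(J-1)!` and `J! ≥ (J/e)^J` (or `J! ≥ (J/3)^J`), so the
term is `≤ C (9/J^{1/2})^J J^2`, summable; take a tail. -/
def S_NUM : Prop := ∃ J₀ : ℕ, 2 ≤ J₀ ∧ ∀ N : ℕ,
  ∑ J ∈ Finset.Icc J₀ N, ((Nat.sqrt (J ^ 3)).choose (J - 1) : ℝ) * (2 / ((J - 2).factorial : ℝ)) ≤ 1 / 2

/-- REM (60 min), from `S_NUM`. Proof: `J₀` from NUM. For `k` and `J` let `pred J k` be the set of the `k' ∈ A` with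
`τ k' = τ k`, `k' < k` and `#{k'' ∈ A : τ k'' = τ k, k' ≤ k'' < k} ≤ sqrt (J^3)`; it has at most `sqrt (J^3)` elements.
`Bad k` = union over `J ≥ J₀` and over `K' ⊆ pred J k` with `#K' = J - 1` of the sets
`{x ∈ lvl (n k) : Top K' x}` (only `J ≤ #A + 1` matter); by `Small` its mass is
`≤ ∑_J (sqrt (J^3)).choose (J-1) * 2/(J-2)! ≤ 1/2`. `B k = lvl (n k) \ Bad k`. Let `F, K, t` be as
below, `J = #K > J₀`, `k = max K`, `K' = K \ {k}`, and suppose `#{k' ∈ A : τ k' = t, min K ≤ k' ≤ max K}^2 < J^3`. Then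
`K' ⊆ pred J k`, `#K' = J - 1`, and the node `x ∈ F ∩ B k` satisfies `Top K' x`: contradiction. -/
def S_REM : Prop := ∃ J₀ : ℕ, ∀ (S : Sys) (n : ℕ → ℕ), StrictMono n → ∀ ν : ℕ → S.X → ℝ, Small S n ν →
  ∀ (A : Finset ℕ) (τ : ℕ → ℤ), ∃ B : ℕ → Finset S.X, (∀ k, B k ⊆ S.lvl (n k)) ∧
    (∀ k, 1 / 2 ≤ ∑ x ∈ B k, ν k x) ∧
    ∀ F, S.Coh F → ∀ K ⊆ A, ∀ t : ℤ, (∀ k ∈ K, τ k = t ∧ ∃ x ∈ F, x ∈ B k) →
      K.card ≤ J₀ ∨
      K.card ^ 3 ≤ (A.filter (fun k' => τ k' = t ∧ (∃ i ∈ K, i ≤ k') ∧ (∃ j ∈ K, k' ≤ j))).card ^ 2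

/-- INEQ (60 min). Pure inequality. Proof: let `m_t, s_t` be the two cardinalities, `U = ∑_D b^{4/3}`. If `m_t > 0` then
`m_t ≤ (J₀+1) s_t^{2/3}`. `U ≥ s_t (2^{t-1})^{4/3}`, so `s_t ≤ 2^{4/3} U 2^{-4t/3}`, and
`2^{t-1} ≤ U^{3/4}` for all `t` with `m_t > 0`. Hence, with `t₀` the largest `t` with `m_t > 0`,
`∑_K b ≤ ∑_t 2^t m_t ≤ (J₀+1) ∑_{t ≤ t₀} 2^t (2^{4/3} U 2^{-4t/3})^{2/3} = (J₀+1) 2^{8/9} U^{2/3} ∑_{t ≤ t₀} 2^{t/9}
≤ C U^{2/3} 2^{t₀/9} ≤ C' U^{2/3} U^{1/12} = C' U^{3/4}`. -/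
def S_INEQ : Prop := ∀ J₀ : ℕ, ∃ C : ℝ, 0 < C ∧ ∀ (b : ℕ → ℝ) (τ : ℕ → ℤ) (D K : Finset ℕ),
  (∀ k ∈ D, (2 : ℝ) ^ (τ k - 1) < b k ∧ b k ≤ (2 : ℝ) ^ (τ k)) → K ⊆ D →
  (∀ t : ℤ, (K.filter (fun k => τ k = t)).card ≤ J₀ ∨
    (K.filter (fun k => τ k = t)).card ^ 3 ≤ (D.filter (fun k => τ k = t)).card ^ 2) →
  (∑ k ∈ K, b k) ^ (4 / 3 : ℝ) ≤ C * ∑ k ∈ D, (b k) ^ (4 / 3 : ℝ)

/-- CB (75 min), case B of LOW, from `S_PRS`, `S_REM`, `S_INEQ`. Proof: `n` is strictly increasing (`T k` has a node of level `n k`, and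
`T` is successive). `M k = ∑_{x ∈ T k, x.1 = n k} |u k x| ≥ c`, `ν k x = |u k x| / M k` for `x ∈ T k` of level `n k`,
and `0` otherwise. `φ` from PRS; write `T, u, n, ν, M` for the sequences composed with `φ`. Given `b ≥ 0` and `N`, let `A = {k < N : 0 < b k}`,
`τ k = Int.clog 2 (b k)` (so `2^(τ k - 1) < b k ≤ 2^(τ k)` on `A`), `B` from REM, `g k = 1` on `B k ∩ T k`, `0` elsewhere.
Then `∑_{T k} g k |u k| = M k ∑_{B k} ν k ≥ c/2`. Let `F_i` (`i < r`) be successive coherent sets and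
`K_i = {k ∈ A : F_i ∩ B k ∩ T k ≠ ∅}`, `D_i = {k ∈ A : min K_i ≤ k ≤ max K_i}`. The sets `D_i` are disjoint
(levels), `∑_{F_i} ∑_k b k g k = ∑_{K_i} b k` (at most one node of `F_i` in each level), and by REM (for
`K = {k ∈ K_i : τ k = t}`) and INEQ `(∑_{K_i} b)^{4/3} ≤ C ∑_{D_i} b^{4/3}`. Sum over `i`. -/
def S_CB : Prop := ∀ (S : Sys) (T : ℕ → Finset S.X), S.Blk T → ∀ (u : ℕ → S.X → ℝ) (n : ℕ → ℕ) (c : ℝ), 0 < c →
  (∀ k, c ≤ ∑ x ∈ (T k).filter (fun x => x.1 = n k), |u k x|) →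
  ∃ φ : ℕ → ℕ, StrictMono φ ∧ S.DL (T ∘ φ) (u ∘ φ)

/-! ### Lower and upper estimates -/

/-- PG (30 min). Proof: let `L` be the set of the levels of the nodes `x ∈ T` with `ε < f x`, and choose such a node `x_n` for each
`n ∈ L`. The singletons `{x_n}`, `n ∈ L` in increasing order (`Finset.orderEmbOfFin`/`orderIsoOfFin`, `coh_single`), are
successive coherent sets, so `∑_{n ∈ L} f(x_n)^{4/3} ≤ 1`, `#L * ε^{4/3} ≤ 1`. As `f ≤ 1` (`Phi.le_one`),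
`c ≤ ∑_{n ∈ L} ∑_{x ∈ T, x.1 = n} |u x|`, so some `n ∈ L` has `∑_{x.1 = n} |u x| ≥ c / #L ≥ c ε^{4/3}`. -/
def S_PG : Prop := ∀ (S : Sys) (f : S.X → ℝ), f ∈ S.Phi → ∀ (T : Finset S.X) (u : S.X → ℝ) (ε c : ℝ), 0 < ε → 0 < c →
  c ≤ ∑ x ∈ T.filter (fun x => ε < f x), f x * |u x| →
  ∃ n : ℕ, c * ε ^ (4 / 3 : ℝ) ≤ ∑ x ∈ T.filter (fun x => x.1 = n), |u x|

/-- CA (75 min), case A of LOW. Proof: choose `φ` strictly increasing and `H k` with all levels of `T (φ i)`, `i < k`, at most `H k`, and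
`c ≤ ∑_{x ∈ T (φ k), f x ≤ ε k} f x |u x|` where `ε k = 2^{-k}/(H k + 2)` and `f = f (φ k)`. Write again `T, u, f`
for the subsequence. `g k x = f k x` if `x ∈ T k` and `f k x ≤ ε k`, `0` otherwise (the same `g` for all `b`).
Let `F` be coherent, `F' = F ∩ ⋃_{k<n} T k` nonempty, `x₀ ∈ F'` of minimal level, `x₀ ∈ T k₀`. Then
`∑_F ∑_k b k g k = b k₀ ∑_{F ∩ T k₀} g k₀ + R`, `R = ∑_{k > k₀} b k ∑_{F ∩ T k} g k`. By `Coh.card_above`
`F'` has `≤ x₀.1 + 2 ≤ H k + 2` nodes, so `∑_{F ∩ T k} g k ≤ 2^{-k}` for `k > k₀`. For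
a successive family `F_i`: `(∑_{F_i} G)^{4/3} ≤ 2^{1/3} ((b k₀ ∑_{F_i ∩ T k₀} f k₀)^{4/3} + R_i^{4/3})`, `k₀ = k₀(i)`.
For each `k`: `∑_{i : k₀(i) = k} (∑_{F_i ∩ T k} f k)^{4/3} ≤ 1` as `f k ∈ Phi`; and there is at most one `i` with `k₀(i) < k` and
`F_i ∩ T k ≠ ∅` (if `i < i'` were two, the minimal node of `F_{i'}` would be in an earlier block than a
node of `F_i`), so `∑_i R_i ≤ ∑_k b k 2^{-k} ≤ 2 max b` and `∑_i R_i^{4/3} ≤ (∑_i R_i)^{4/3} ≤ 4 ∑ b^{4/3}`.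
Total `≤ C ∑_{k<n} b^{4/3}`. -/
def S_CA : Prop := ∀ (S : Sys) (T : ℕ → Finset S.X), S.Blk T → ∀ (u f : ℕ → S.X → ℝ) (c : ℝ), 0 < c →
  (∀ k, f k ∈ S.Phi) →
  (∀ ε : ℝ, 0 < ε → ∀ N : ℕ, ∃ k, N ≤ k ∧ c ≤ ∑ x ∈ (T k).filter (fun x => f k x ≤ ε), f k x * |u k x|) →
  ∃ φ : ℕ → ℕ, StrictMono φ ∧ S.DL (T ∘ φ) (u ∘ φ)

/-- LOW (30 min), from `S_CA`, `S_CB`, `S_PG`. Proof: if for all `ε > 0`, `N` there is `k ≥ N` with
`c/2 ≤ ∑_{T k, f ≤ ε} f |u|`: CA. Otherwise there are `ε, N` such that for all `k ≥ N`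
`c/2 ≤ ∑_{T k, ε < f} f |u|`, so by PG there is a level `n k` with `(c/2) ε^{4/3} ≤ ∑_{T k, x.1 = n k} |u|`;
apply CB to the shifted sequences `T (k + N)`, … . -/
def S_LOW : Prop := ∀ (S : Sys) (T : ℕ → Finset S.X), S.Blk T → ∀ (u f : ℕ → S.X → ℝ) (c : ℝ), 0 < c →
  (∀ k, f k ∈ S.Phi) → (∀ k, c ≤ ∑ x ∈ T k, f k x * |u k x|) →
  ∃ φ : ℕ → ℕ, StrictMono φ ∧ S.DL (T ∘ φ) (u ∘ φ)

/-- UP (60 min). Upper `4`-estimate. Proof: let `f ∈ Phi`. For `k < n` let `m k` be the supremum of the sums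
`∑_{i<r} (∑_{F i} f)^{4/3}` over the successive coherent families of subsets of `T k` (it is `≤ 1`). Concatenating almost optimal
families for `k = 0, …, n-1` gives a successive coherent family, so `∑_{k<n} m k ≤ 1`. The function `f 1_{T k}` satisfies
`Bd _ (m k)` (replace `F i` by `F i ∩ T k`), so by `Bd.normalize` `∑_{T k} f |u k| ≤ (m k)^{3/4}` (also for `m k = 0`: use
`m k + δ`). Then by Hölder (`4` and `4/3`)
`∑_s f |∑ a k u k| ≤ ∑_k |a k| ∑_{T k} f |u k| ≤ ∑ |a k| (m k)^{3/4} ≤ (∑ |a k|^4)^{1/4} (∑ m k)^{3/4}`. -/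
def S_UP : Prop := ∀ (S : Sys) (T : ℕ → Finset S.X), S.Blk T → ∀ u : ℕ → S.X → ℝ,
  (∀ k, ∀ x, x ∉ T k → u k x = 0) → (∀ k, NLe S.Phi (u k) 1) → ∀ (a : ℕ → ℝ) (n : ℕ),
  NLe S.Phi (fun x => ∑ k ∈ Finset.range n, a k * u k x)
    ((∑ k ∈ Finset.range n, |a k| ^ 4) ^ (1 / 4 : ℝ))

/-- BLK (45 min). Almost disjoint blocks. Proof: choose inductively `φ k` and `N₀ < N₁ < …` (`N₀ = 0`):
only finitely many nodes have level `≤ N k`, and each of them is in the support of at most one `v m`, so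
there is `φ k > φ (k-1)` such that `v (φ k)` vanishes on all levels `≤ N k`; take `s` with
`NLe (sᶜ.indicator (v (φ k))) (1/2^(k+2))` and `N (k+1) > N k` at least all the levels of `s`;
`T k = {x : N k < x.1 ≤ N (k+1)}` (finite: `(Ioc _ _).biUnion lvl`). `NLe` is monotone for `|·|`. -/
def S_BLK : Prop := ∀ (S : Sys) (v : ℕ → S.X → ℝ), (∀ m n, m ≠ n → ∀ x, v m x = 0 ∨ v n x = 0) →
  (∀ k, ∀ ε > (0 : ℝ), ∃ s : Finset S.X, NLe S.Phi ((↑s : Set S.X)ᶜ.indicator (v k)) ε) →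
  ∃ φ : ℕ → ℕ, StrictMono φ ∧ ∃ T : ℕ → Finset S.X, S.Blk T ∧
    ∀ k, NLe S.Phi ((↑(T k) : Set S.X)ᶜ.indicator (v (φ k))) (1 / 2 ^ (k + 2))

/-- FOUR (60 min), from `S_BLK`, `S_UP`, `S_LOW`. `E` is `4`-DH. Proof: `φ₁, T` from BLK, `u k = 1_{T k} v (φ₁ k)`. If `NLe (u k) (1/2)` then
`NLe (v (φ₁ k)) (3/4)`, impossible; so there are `f k ∈ Phi` and `s` with `1/2 < ∑_s f k |u k| ≤ ∑_{T k} f k |u k|`. `φ₂` from
LOW, `φ = φ₁ ∘ φ₂`. Upper estimate: UP for the `u (φ₂ k)` (`|u k| ≤ |v (φ₁ k)|`) plus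
`∑ |a k| 2^{-k-2} ≤ (∑ |a k|^4)^{1/4}` (each `|a k| ≤ (∑ |a|^4)^{1/4}`), `C = 2`. Lower estimate: take
`b k = |a k|^3` (`b^{4/3} = |a|^4`) in DL, `A = ∑_{k<n} |a k|^4 > 0` (if `A = 0` it is trivial since `0 ≤ M`), `g`; `f = (C A)^{-3/4} ∑ b k g k ∈ Phi`
(`Bd.normalize`). On `T (φ₂ k)` the function `|∑_j a j v (φ j)|` is `≥ |a k| |v (φ k)|` (at a point where `v (φ k) ≠ 0` the other
terms vanish), so with `s = ⋃_{k<n} T (φ₂ k)` (a disjoint union)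
`M ≥ ∑_s f |∑ a v| ≥ (C A)^{-3/4} ∑_k |a k|^3 |a k| ∑_{T} g k |u k| ≥ (C A)^{-3/4} A c = c C^{-3/4} A^{1/4}`. -/
def S_FOUR : Prop := ∀ (S : Sys) (v : ℕ → S.X → ℝ), (∀ m n, m ≠ n → ∀ x, v m x = 0 ∨ v n x = 0) →
  (∀ k, ∀ ε > (0 : ℝ), ∃ s : Finset S.X, NLe S.Phi ((↑s : Set S.X)ᶜ.indicator (v k)) ε) →
  (∀ k, NLe S.Phi (v k) 1) → (∀ k, ∀ c < (1 : ℝ), ¬ NLe S.Phi (v k) c) →
  ∃ φ : ℕ → ℕ, StrictMono φ ∧ ∃ c > (0 : ℝ), ∃ C > (0 : ℝ), ∀ (n : ℕ) (a : ℕ → ℝ),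
    NLe S.Phi (fun x => ∑ k ∈ Finset.range n, a k * v (φ k) x)
      (C * (∑ k ∈ Finset.range n, |a k| ^ 4) ^ (1 / 4 : ℝ)) ∧
    ∀ M : ℝ, NLe S.Phi (fun x => ∑ k ∈ Finset.range n, a k * v (φ k) x) M →
      c * (∑ k ∈ Finset.range n, |a k| ^ 4) ^ (1 / 4 : ℝ) ≤ M

/-! ### Dense sets contain long coherent sets -/

/-- VAR (50 min). Bessel inequality for the uniform probability on a finite product. Proof: `E` = average over
`w : ∀ j, Y j`, `f = 1_B`, `β = E f`, `q_j(p) = #{w ∈ B : w j = p} |Y j| / |∏ Y|` (the conditional expectation of `f` given `w j = p`,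
as `#{w : w j = p} = |∏ Y| / |Y j|`), `v_j(w) = q_j(w j) - β`. Then `E v_j = 0`, `E (v_i v_j) = 0` for
`i ≠ j` (product), `E (f v_j) = E v_j² = (1/|Y j|) ∑_p (q_j(p) - β)²`. So
`0 ≤ E (f - ∑ v_j)² = E f² - ∑_j E v_j²`, and `E f² ≤ 1`. -/
def S_VAR : Prop := ∀ (n : ℕ) (Y : Fin n → Type) [∀ j, Fintype (Y j)] [∀ j, DecidableEq (Y j)] [∀ j, Nonempty (Y j)]
  (B : Finset (∀ j, Y j)),
  ∑ j : Fin n, (1 / (Fintype.card (Y j) : ℝ)) * ∑ p : Y j,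
    (((B.filter (fun w => w j = p)).card : ℝ) * Fintype.card (Y j) / Fintype.card (∀ j, Y j)
      - (B.card : ℝ) / Fintype.card (∀ j, Y j)) ^ 2 ≤ 1

/-- STEP (75 min), from `S_VAR`. Proof: let `M ∈ ℕ`, `M > 8 J / δ³`, and let `R ⊆ σ` be a finite set of `M` numbers `≥ 2J`. For `n ∈ σ`, `n > max R`, transport
`B s n` to `∀ j : Fin n, A j × Fin (j+1)` by `S.e n`; for `j ∈ R` let `q_{s,n,j}(l, ρ)` be the conditional density of `B s n` given that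
`w` has (pointer, budget) `= (l, ρ)` at level `j`, and `V_{s,n,j}` the mean over `(l, ρ)` of `(q - β)²`, `β = #(B s n)/#(lvl n) ≥ δ`. VAR:
`∑_{j ∈ R} V_{s,n,j} ≤ 1`. So for some `j ∈ R`, `∑_s V_{s,n,j} ≤ J/M`; by the pigeonhole principle the same `j = m` works
for all `n` in an infinite `σ₁ ⊆ σ`. Let `W_n` be the set of `(l, ρ)` with `q_{s,n,m}(l, ρ) ≥ δ/2` for all `s`; again by pigeonhole
`W_n = W` for all `n` in an infinite `σ' ⊆ σ₁`. By Chebyshev the complement of `W` has proportion `≤ (J/M)(2/δ)² < δ/2`. If for every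
`l ∈ B₀ m` more than half of the `ρ ∈ {0..m}` had `(l, ρ) ∉ W`, the proportion would be `≥ δ/2`. So there is `x = (m, l) ∈ B₀ m` with at
least `(m+1)/2 ≥ J` good `ρ`; take `J` of them in decreasing order. For `n ∈ σ'`, `n > m`:
`#{w ∈ B s n : pt m w = x, bud m w = r s} = q * #(lvl n) / (#(A m) (m+1)) ≥ δ' #(lvl n)`,
`δ' = δ / (2 #(A m) (m+1))`. -/
def S_STEP : Prop := ∀ (S : Sys) (J : ℕ) (δ : ℝ), 0 < δ → ∀ (σ : Set ℕ), σ.Infinite →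
  ∀ (B₀ : ℕ → Finset S.X) (B : Fin J → ℕ → Finset S.X), (∀ n, B₀ n ⊆ S.lvl n) → (∀ s n, B s n ⊆ S.lvl n) →
  (∀ n ∈ σ, δ * (S.lvl n).card ≤ (B₀ n).card) → (∀ s, ∀ n ∈ σ, δ * (S.lvl n).card ≤ (B s n).card) →
  ∃ m ∈ σ, ∃ x ∈ B₀ m, ∃ r : Fin J → ℕ, StrictAnti r ∧ ∃ δ' : ℝ, 0 < δ' ∧ ∃ σ' ⊆ σ, σ'.Infinite ∧
    ∀ n ∈ σ', m < n ∧ ∀ s, δ' * (S.lvl n).card ≤
      (((B s n).filter (fun w => S.pt m w = x ∧ S.bud m w = r s)).card : ℝ)

/-- FC (45 min), from `S_STEP`. Proof: by induction on `J`, for families: if `B s n ⊆ lvl n` (`s : Fin J`, `n ∈ σ` infinite) all have density `≥ δ`, there are nodes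
`x s ∈ B s (x s).1`, `(x s).1 ∈ σ`, with strictly increasing levels, `pt (x s).1 (x t) = x s` for `s < t` and
`bud (x s).1 (x u) < bud (x s).1 (x t)` for `s < t < u`. Step `J → J+1`: STEP for `B 0` and `B 1, …, B J` gives `x 0`,
`r`, `δ'`, `σ'`; induction hypothesis for `{w ∈ B (s+1) n : pt m w = x 0, bud m w = r s}`, `n ∈ σ'`. Finally `F` = the set of the `x s`,
with all `B s = B`. -/
def S_FC : Prop := ∀ (S : Sys) (J : ℕ) (δ : ℝ), 0 < δ → ∀ (σ : Set ℕ), σ.Infinite → ∀ B : ℕ → Finset S.X,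
  (∀ n, B n ⊆ S.lvl n) → (∀ n ∈ σ, δ * (S.lvl n).card ≤ (B n).card) →
  ∃ F, S.Coh F ∧ F.card = J ∧ ∀ x ∈ F, x.1 ∈ σ ∧ x ∈ B x.1

/-- NC1 (75 min). A projection onto level-constant functions which fixes the averages `x n` (`n ∈ σ`) has a large diagonal.
Proof: `C₀ = max 1 ‖P‖`. For a node `w` let `e w ∈ E` be its indicator function (`fin_supp`); `‖e w‖ ≤ 1` (`Phi.le_one`).
`q w = #(lvl w.1) * toFun (P (e w)) w = ∑_{w' ∈ lvl w.1} toFun (P (e w)) w'`. `|q w| ≤ ‖P (e w)‖ ≤ C₀` (`norm_le` with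
`f = ` the indicator of the level, `lvl_mem_Phi`). `x n = #(lvl n)⁻¹ ∑_{w ∈ lvl n} e w` (`inj`), so for `n ∈ σ` (all `P z` are constant on levels)
`∑_{w ∈ lvl n} q w = #(lvl n)² * toFun (P (x n)) w₀ = #(lvl n)`. `B n = {w ∈ lvl n : q w ≥ 1/2}`; then
`#(lvl n) ≤ C₀ #(B n) + #(lvl n)/2`, so `#(lvl n) ≤ 2 C₀ #(B n)`. Let `F` be coherent with `w ∈ B w.1` for all `w ∈ F`. For signs
`ε : F → {±1}` let `y_ε = ∑_{w ∈ F} ε w e w`; `‖y_ε‖ ≤ 1` by `Phi.sum_le_one`. Let `f ∈ Phi`, `s` finite, all the levels of `s` among those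
of `F` (others do not contribute). `∑_{x ∈ s} f x * ε(w_x) * (P y_ε)(x) ≤ ‖P y_ε‖ ≤ C₀`, `w_x ∈ F` the node of the level of `x`.
Average over all `ε`: `∑_{x ∈ s} f x (P e_{w_x})(x) ≤ C₀`, and `(P e_{w_x})(x) = q w_x / #lvl ≥ 1/(2 #lvl)`. So `C = 2 C₀` works. -/
def S_NC1 : Prop := ∀ (S : Sys) (M : Model S.X S.Phi) (x : ℕ → M.E),
  (∀ n y, M.toFun (x n) y = if y.1 = n then 1 / ((S.lvl n).card : ℝ) else 0) →
  ∀ (P : M.E →L[ℝ] M.E) (σ : Set ℕ), (∀ n ∈ σ, P (x n) = x n) →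
  (∀ z, ∀ y y' : S.X, y.1 = y'.1 → M.toFun (P z) y = M.toFun (P z) y') →
  ∃ C : ℝ, 0 < C ∧ ∃ B : ℕ → Finset S.X, (∀ n, B n ⊆ S.lvl n) ∧
    (∀ n ∈ σ, ((S.lvl n).card : ℝ) ≤ C * (B n).card) ∧
    ∀ F, S.Coh F → (∀ w ∈ F, w ∈ B w.1) → ∀ L : Finset ℕ, (∀ n, n ∈ L ↔ ∃ w ∈ F, w.1 = n) →
      NLe S.Phi (fun y => if y.1 ∈ L then 1 / ((S.lvl y.1).card : ℝ) else 0) C

/-- NC2 (40 min), from `S_LOW`. Growth of the sums of the averages. Proof: apply LOW to `T k = lvl (m k)`, `u k = 1/#(lvl (m k))` on `T k`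
and `0` elsewhere, `f k` = indicator of `lvl (m k)` (`lvl_mem_Phi`), `c = 1`: get `ψ` and the constants `c, C` of DL.
For `K ⊆ ℕ` finite nonempty take `b = 1_K`, `n` large: `f = (C #K)^{-3/4} ∑_{k<n} b k g k ∈ Phi` (`Bd.normalize`), and with
`s = ⋃_{k ∈ K} T (ψ k)` (disjoint) `M ≥ ∑_s f u = (C #K)^{-3/4} ∑_{k ∈ K} ∑_{T (ψ k)} g k u (ψ k) ≥ (C #K)^{-3/4} c #K`. -/
def S_NC2 : Prop := ∀ (S : Sys) (m : ℕ → ℕ), StrictMono m → ∃ ψ : ℕ → ℕ, StrictMono ψ ∧ ∃ c : ℝ, 0 < c ∧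
  ∀ (L : Finset ℕ) (M : ℝ), (∀ n ∈ L, ∃ k, m (ψ k) = n) →
    NLe S.Phi (fun y => if y.1 ∈ L then 1 / ((S.lvl y.1).card : ℝ) else 0) M →
    c * (L.card : ℝ) ^ (1 / 4 : ℝ) ≤ M

/-- NC (45 min), from `S_FC`, `S_NC1`, `S_NC2`. The sequence of the uniform averages has no subsequence with complemented closed span.
Proof: let `P : E → K` be a bounded projection onto `K = closure span (x (φ k))`. All elements of `K` are constant on every level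
(this is a closed condition: `|toFun z i| ≤ ‖z‖` from `norm_le` and `lvl_mem_Phi`). NC1 with `σ = range φ` (compose `P` with the inclusion)
gives `C, B`; NC2 with `m = φ` gives `ψ, c`. FC with `σ = range (φ ∘ ψ)`, `δ = 1/C` gives for every `J` a coherent `F` with
`#F = J`, `w ∈ B w.1`, levels in `σ`. `L` = set of the levels of `F`, `#L = J`. So `c J^{1/4} ≤ C` for all `J`. -/
def S_NC : Prop := ∀ (S : Sys) (M : Model S.X S.Phi) (x : ℕ → M.E),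
  (∀ n y, M.toFun (x n) y = if y.1 = n then 1 / ((S.lvl n).card : ℝ) else 0) →
  ∀ φ : ℕ → ℕ, StrictMono φ →
    ¬ (Submodule.span ℝ (Set.range (x ∘ φ))).topologicalClosure.ClosedComplemented

end Pool.Agent.T2H72.DC
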