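import Pool.Agent.T2H72.DC.Stm

set_option autoImplicit false

namespace Pool.Agent.T2H72.DC

open Finset

/-- the values of the sums over successive coherent families in `T` -/
def upV (S : Sys) (f : S.X → ℝ) (T : Finset S.X) : Set ℝ :=
  {t | ∃ (r : ℕ) (F : ℕ → Finset S.X), S.Suc r F ∧ (∀ i < r, F i ⊆ T) ∧
    t = ∑ i ∈ Finset.range r, (∑ x ∈ F i, f x) ^ (4 / 3 : ℝ)}

theorem upV_zero {S : Sys} {f : S.X → ℝ} {T : Finset S.X} : (0 : ℝ) ∈ upV S f T :=
  ⟨0, fun _ => ∅, ⟨fun i hi => by omega, fun i j hij hj => by omega⟩, fun i hi => by omega, by simp⟩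

theorem upV_bdd {S : Sys} {f : S.X → ℝ} (hf : f ∈ S.Phi) {T : Finset S.X} : ∀ t ∈ upV S f T, t ≤ 1 := by
  rintro t ⟨r, F, hF, _, rfl⟩
  exact hf.2 r F hF

theorem upV_concat {S : Sys} {f : S.X → ℝ} {T : ℕ → Finset S.X} (hT : S.Blk T) (t : ℕ → ℝ)
    (ht : ∀ k, t k ∈ upV S f (T k)) (n : ℕ) :
    ∃ (R : ℕ) (G : ℕ → Finset S.X), S.Suc R G ∧ (∀ i < R, ∃ k < n, G i ⊆ T k) ∧
      ∑ i ∈ Finset.range R, (∑ x ∈ G i, f x) ^ (4 / 3 : ℝ) = ∑ k ∈ Finset.range n, t k := by
  induction n with
  | zero =>
    exact ⟨0, fun _ => ∅, ⟨fun i hi => by omega, fun i j hij hj => by omega⟩,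
      fun i hi => by omega, by simp⟩
  | succ n ih =>
    obtain ⟨R, G, hG, hGT, hGs⟩ := ih
    obtain ⟨r, F, hF, hFT, hFs⟩ := ht n
    refine ⟨R + r, fun i => if i < R then G i else F (i - R), ⟨?_, ?_⟩, ?_, ?_⟩
    · intro i hi
      dsimp only
      split_ifs with h
      · exact hG.1 i h
      · exact hF.1 _ (by omega)
    · intro i j hij hj x hx y hy
      dsimp only at hx hy
      by_cases hjR : j < R
      · rw [if_pos hjR] at hy
        rw [if_pos (by omega)] at hx
        exact hG.2 i j hij hjR x hx y hy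
      · rw [if_neg hjR] at hy
        by_cases hiR : i < R
        · rw [if_pos hiR] at hx
          obtain ⟨k, hk, hGk⟩ := hGT i hiR
          exact hT k n hk x (hGk hx) y (hFT _ (by omega) hy)
        · rw [if_neg hiR] at hx
          exact hF.2 (i - R) (j - R) (by omega) (by omega) x hx y hy
    · intro i hi
      dsimp only
      split_ifs with h
      · obtain ⟨k, hk, hGk⟩ := hGT i h
        exact ⟨k, by omega, hGk⟩
      · exact ⟨n, by omega, hFT _ (by omega)⟩
    · rw [Finset.sum_range_add, Finset.sum_range_succ, ← hGs, hFs]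
      congr 1
      · refine Finset.sum_congr rfl fun i hi => ?_
        rw [Finset.mem_range] at hi
        dsimp only
        rw [if_pos hi]
      · refine Finset.sum_congr rfl fun i _ => ?_
        dsimp only
        rw [if_neg (by omega), Nat.add_sub_cancel_left]

theorem pUP : S_UP := by
  classical
  intro S T hT u hu0 hu1 a n f hf s
  let m : ℕ → ℝ := fun k => sSup (upV S f (T k))
  have hbdd : ∀ k, BddAbove (upV S f (T k)) := fun k => ⟨1, fun t ht => upV_bdd hf t ht⟩
  have hm0 : ∀ k, 0 ≤ m k := fun k => le_csSup (hbdd k) upV_zero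
  have hm : ∑ k ∈ Finset.range n, m k ≤ 1 := by
    apply le_of_forall_pos_le_add
    intro δ hδ
    have hδ' : 0 < δ / (n + 1) := by positivity
    have h1 : ∀ k, ∃ t ∈ upV S f (T k), m k - δ / (n + 1) < t := fun k =>
      exists_lt_of_lt_csSup ⟨0, upV_zero⟩ (by linarith)
    choose t ht1 ht2 using h1
    obtain ⟨R, G, hG, _, hGs⟩ := upV_concat hT t ht1 n
    have h2 := hf.2 R G hG
    rw [hGs] at h2
    have h3 : ∑ k ∈ Finset.range n, m k ≤ ∑ k ∈ Finset.range n, (t k + δ / (n + 1)) :=
      Finset.sum_le_sum fun k _ => by linarith [ht2 k]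
    rw [Finset.sum_add_distrib, Finset.sum_const, Finset.card_range, nsmul_eq_mul] at h3
    have h4 : (n : ℝ) * (δ / (n + 1)) ≤ δ := by
      rw [mul_div_assoc', div_le_iff₀ (by positivity)]
      nlinarith
    linarith
  -- one block
  have hblock : ∀ k, ∑ x ∈ T k, f x * |u k x| ≤ (m k) ^ (3 / 4 : ℝ) := by
    intro k
    rcases (hm0 k).eq_or_lt with h0 | h0
    · have h1 : ∀ x ∈ T k, f x * |u k x| = 0 := by
        intro x hx
        have h2 : (f x) ^ (4 / 3 : ℝ) ≤ m k := by
          apply le_csSup (hbdd k)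
          refine ⟨1, fun _ => {x}, ⟨fun _ _ => coh_single x, fun i j hij hj => by omega⟩,
            fun _ _ => Finset.singleton_subset_iff.2 hx, ?_⟩
          simp
        rw [← h0] at h2
        have h3 : f x = 0 := by
          by_contra hne
          have h4 : 0 < f x := lt_of_le_of_ne (hf.1 x) (Ne.symm hne)
          have := Real.rpow_pos_of_pos h4 (4 / 3)
          linarith
        rw [h3, zero_mul]
      rw [Finset.sum_eq_zero h1]
      exact Real.rpow_nonneg (hm0 k) _
    · let fk : S.X → ℝ := fun x => if x ∈ T k then f x else 0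
      have hfk0 : ∀ x, 0 ≤ fk x := fun x => by
        simp only [fk]
        split_ifs
        · exact hf.1 x
        · exact le_rfl
      have hfk : S.Bd fk (m k) := by
        intro r F hF
        apply le_csSup (hbdd k)
        refine ⟨r, fun i => (F i).filter (fun x => x ∈ T k), ⟨fun i hi => ?_, ?_⟩, fun i _ => ?_, ?_⟩
        · exact Coh.subset (hF.1 i hi) (Finset.filter_subset _ _)
        · intro i j hij hj x hx y hy
          exact hF.2 i j hij hj x (Finset.mem_filter.1 hx).1 y (Finset.mem_filter.1 hy).1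
        · intro x hx
          exact (Finset.mem_filter.1 hx).2
        · refine Finset.sum_congr rfl fun i _ => ?_
          congr 1
          rw [Finset.sum_filter]
      have hPhi := Bd.normalize hfk0 hfk h0
      have h1 := hu1 k _ hPhi (T k)
      have h2 : ∑ x ∈ T k, m k ^ (-(3 / 4) : ℝ) * fk x * |u k x| =
          m k ^ (-(3 / 4) : ℝ) * ∑ x ∈ T k, f x * |u k x| := by
        rw [Finset.mul_sum]
        refine Finset.sum_congr rfl fun x hx => ?_
        simp only [fk]
        rw [if_pos hx]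
        ring
      rw [h2] at h1
      have h3 : m k ^ (3 / 4 : ℝ) * m k ^ (-(3 / 4) : ℝ) = 1 := by
        rw [← Real.rpow_add h0]
        norm_num
      have h4 : 0 < m k ^ (3 / 4 : ℝ) := Real.rpow_pos_of_pos h0 _
      calc ∑ x ∈ T k, f x * |u k x| =
            m k ^ (3 / 4 : ℝ) * (m k ^ (-(3 / 4) : ℝ) * ∑ x ∈ T k, f x * |u k x|) := by
              rw [← mul_assoc, h3, one_mul]
        _ ≤ m k ^ (3 / 4 : ℝ) * 1 := mul_le_mul_of_nonneg_left h1 h4.le
        _ = _ := mul_one _
  -- Hölder
  have hh : ∑ k ∈ Finset.range n, |a k| * (m k) ^ (3 / 4 : ℝ) ≤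
      (∑ k ∈ Finset.range n, |a k| ^ 4) ^ (1 / 4 : ℝ) := by
    have hpq : Real.HolderConjugate 4 (4 / 3) := by
      rw [Real.holderConjugate_iff]
      norm_num
    have h1 := Real.inner_le_Lp_mul_Lq (Finset.range n) (fun k => |a k|) (fun k => (m k) ^ (3 / 4 : ℝ)) hpq
    have h2 : ∑ k ∈ Finset.range n, |(|a k|)| ^ (4 : ℝ) = ∑ k ∈ Finset.range n, |a k| ^ 4 := by
      refine Finset.sum_congr rfl fun k _ => ?_
      rw [abs_abs]
      exact_mod_cast Real.rpow_natCast (|a k|) 4
    have h3 : ∑ k ∈ Finset.range n, |(m k) ^ (3 / 4 : ℝ)| ^ (4 / 3 : ℝ) = ∑ k ∈ Finset.range n, m k := by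
      refine Finset.sum_congr rfl fun k _ => ?_
      rw [abs_of_nonneg (Real.rpow_nonneg (hm0 k) _), ← Real.rpow_mul (hm0 k)]
      norm_num
    rw [h2, h3] at h1
    refine h1.trans ?_
    apply mul_le_of_le_one_right
    · exact Real.rpow_nonneg (Finset.sum_nonneg fun k _ => by positivity) _
    · exact Real.rpow_le_one (Finset.sum_nonneg fun k _ => hm0 k) hm (by norm_num)
  refine le_trans ?_ hh
  calc ∑ x ∈ s, f x * |∑ k ∈ Finset.range n, a k * u k x|
      ≤ ∑ x ∈ s, ∑ k ∈ Finset.range n, |a k| * (f x * |u k x|) := by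
        refine Finset.sum_le_sum fun x _ => ?_
        calc f x * |∑ k ∈ Finset.range n, a k * u k x|
            ≤ f x * ∑ k ∈ Finset.range n, |a k * u k x| :=
              mul_le_mul_of_nonneg_left (Finset.abs_sum_le_sum_abs _ _) (hf.1 x)
          _ = _ := by
              rw [Finset.mul_sum]
              refine Finset.sum_congr rfl fun k _ => ?_
              rw [abs_mul]
              ring
    _ = ∑ k ∈ Finset.range n, |a k| * ∑ x ∈ s, f x * |u k x| := by
        rw [Finset.sum_comm]
        refine Finset.sum_congr rfl fun k _ => ?_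
        rw [Finset.mul_sum]
    _ ≤ ∑ k ∈ Finset.range n, |a k| * (m k) ^ (3 / 4 : ℝ) := by
        refine Finset.sum_le_sum fun k _ => ?_
        apply mul_le_mul_of_nonneg_left _ (abs_nonneg _)
        refine le_trans ?_ (hblock k)
        have h3 : ∑ x ∈ s, f x * |u k x| = ∑ x ∈ s.filter (fun x => x ∈ T k), f x * |u k x| := by
          rw [Finset.sum_filter]
          refine Finset.sum_congr rfl fun x _ => ?_
          split_ifs with hx
          · rfl
          · rw [hu0 k x hx, abs_zero, mul_zero]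
        rw [h3]
        apply Finset.sum_le_sum_of_subset_of_nonneg
        · intro x hx
          exact (Finset.mem_filter.1 hx).2
        · intro x _ _
          exact mul_nonneg (hf.1 x) (abs_nonneg _)

end Pool.Agent.T2H72.DC
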